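import Mathlib

set_option autoImplicit false

/-!
# Brouwer's fixed point theorem (Milnor-Rogers proof)
-/

open Set Metric MeasureTheory Topology

namespace Pool.Agent.helper66.Brouwer

variable {E : Type*} [NormedAddCommGroup E] [InnerProductSpace ℝ E] [FiniteDimensional ℝ E]

/-- `t ↦ det (1 + t A)` is a polynomial of degree at most `dim E`. -/
theorem exists_poly (A : E →L[ℝ] E) : ∃ p : Polynomial ℝ, p.natDegree ≤ Module.finrank ℝ E ∧
    ∀ t : ℝ, p.eval t = (ContinuousLinearMap.id ℝ E + t • A).det := by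
  classical
  let b := Module.finBasis ℝ E
  let M := LinearMap.toMatrix b b (A : E →ₗ[ℝ] E)
  refine ⟨Matrix.det ((Polynomial.X : Polynomial ℝ) • M.map Polynomial.C +
    (1 : Matrix _ _ ℝ).map Polynomial.C), ?_, ?_⟩
  · refine (Polynomial.natDegree_det_X_add_C_le M 1).trans ?_
    simp
  · intro t
    have h1 : (ContinuousLinearMap.id ℝ E + t • A).det =
        LinearMap.det ((ContinuousLinearMap.id ℝ E + t • A : E →L[ℝ] E) : E →ₗ[ℝ] E) := rfl
    rw [h1, ← LinearMap.det_toMatrix b]
    have h2 : (Matrix.det ((Polynomial.X : Polynomial ℝ) • M.map Polynomial.C +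
        (1 : Matrix _ _ ℝ).map Polynomial.C)).eval t =
        ((Polynomial.evalRingHom t).mapMatrix ((Polynomial.X : Polynomial ℝ) • M.map Polynomial.C +
        (1 : Matrix _ _ ℝ).map Polynomial.C)).det := by
      rw [← RingHom.map_det]
      rfl
    rw [h2]
    congr 1
    ext i j
    simp only [RingHom.mapMatrix_apply, Matrix.map_apply, Matrix.add_apply, Matrix.smul_apply,
      Polynomial.coe_evalRingHom, Polynomial.eval_add, smul_eq_mul, Polynomial.eval_mul,
      Polynomial.eval_X, Polynomial.eval_C, M, LinearMap.toMatrix_apply]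
    simp [Matrix.one_apply, Finsupp.single_apply, eq_comm, add_comm]

theorem range_eq_top_of_det {f : E →ₗ[ℝ] E} (hf : LinearMap.det f ≠ 0) :
    LinearMap.range f = ⊤ := by
  have h1 : LinearMap.ker f = ⊥ := by
    by_contra h
    exact hf (LinearMap.det_eq_zero_iff_ker_ne_bot.2 h)
  exact LinearMap.ker_eq_bot_iff_range_eq_top.1 h1

/-- no retraction theorem, smooth version -/
theorem no_retract (f : E → E) (U : Set E) (hU : IsOpen U) (hB : closedBall (0 : E) 1 ⊆ U)
    (hf : ContDiffOn ℝ 1 f U) (h1 : ∀ x ∈ closedBall (0 : E) 1, ‖f x‖ = 1)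
    (h2 : ∀ x, ‖x‖ = 1 → f x = x) : False := by
  classical
  borelize E
  let μ : Measure E := Measure.addHaar
  let D : E → E →L[ℝ] E := fun x => fderiv ℝ f x - ContinuousLinearMap.id ℝ E
  have hball : ball (0 : E) 1 ⊆ closedBall 0 1 := ball_subset_closedBall
  have hdf : ∀ x ∈ U, HasFDerivAt f (fderiv ℝ f x) x := fun x hx =>
    ((hf.contDiffAt (hU.mem_nhds hx)).differentiableAt (by norm_num)).hasFDerivAt
  have hsdf : ∀ x ∈ U, HasStrictFDerivAt f (fderiv ℝ f x) x := fun x hx =>
    (hf.contDiffAt (hU.mem_nhds hx)).hasStrictFDerivAt (by norm_num)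
  have hDc : ContinuousOn D U :=
    (hf.continuousOn_fderiv_of_isOpen hU le_rfl).sub continuousOn_const
  have hcomp : IsCompact (closedBall (0 : E) 1) := isCompact_closedBall 0 1
  obtain ⟨C, hC⟩ := hcomp.exists_bound_of_continuousOn (hDc.mono hB)
  have hC0 : 0 ≤ C := (norm_nonneg _).trans (hC 0 (by simp))
  let F : ℝ → E → E := fun t x => x + t • (f x - x)
  have hF : ∀ t, ∀ x ∈ U, HasStrictFDerivAt (F t) (ContinuousLinearMap.id ℝ E + t • D x) x := by
    intro t x hx
    exact (hasStrictFDerivAt_id x).add (((hsdf x hx).sub (hasStrictFDerivAt_id x)).const_smul t)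
  -- `f - id` is Lipschitz on the ball
  have hLip : ∀ x ∈ closedBall (0 : E) 1, ∀ y ∈ closedBall (0 : E) 1,
      ‖(f y - y) - (f x - x)‖ ≤ C * ‖y - x‖ := by
    intro x hx y hy
    refine (convex_closedBall (0 : E) 1).norm_image_sub_le_of_norm_hasFDerivWithin_le
      (f := fun z => f z - z) (f' := D) (fun z hz => ?_) hC hx hy
    exact ((hdf z (hB hz)).sub (hasFDerivAt_id z)).hasFDerivWithinAt
  obtain ⟨t0, ht0, ht0C, ht01⟩ : ∃ t0 : ℝ, 0 < t0 ∧ t0 * C < 1 ∧ t0 < 1 := by
    refine ⟨1 / (C + 2), by positivity, ?_, ?_⟩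
    · rw [div_mul_eq_mul_div, one_mul, div_lt_one (by positivity)]
      linarith
    · rw [div_lt_one (by positivity)]
      linarith
  have key : ∀ t, 0 ≤ t → t ≤ t0 →
      ∫ x in ball (0 : E) 1, (ContinuousLinearMap.id ℝ E + t • D x).det ∂μ =
        (μ (ball (0 : E) 1)).toReal := by
    intro t htn htt
    have htC : t * C < 1 := lt_of_le_of_lt (mul_le_mul_of_nonneg_right htt hC0) ht0C
    have ht1 : t < 1 := lt_of_le_of_lt htt ht01
    have hinj : InjOn (F t) (ball (0 : E) 1) := by
      intro x hx y hy hxy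
      have h3 := hLip x (hball hx) y (hball hy)
      have h4 : y - x = -(t • ((f y - y) - (f x - x))) := by
        have : x + t • (f x - x) = y + t • (f y - y) := hxy
        rw [smul_sub t (f y - y) (f x - x), neg_sub]
        rw [sub_eq_sub_iff_add_eq_add, ← this]
        abel
      have h5 : ‖y - x‖ ≤ t * (C * ‖y - x‖) := by
        calc ‖y - x‖ = t * ‖(f y - y) - (f x - x)‖ := by
              conv_lhs => rw [h4]
              rw [norm_neg, norm_smul, Real.norm_of_nonneg htn]
          _ ≤ _ := by gcongr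
      by_contra hne
      have h6 : 0 < ‖y - x‖ := norm_pos_iff.2 (sub_ne_zero.2 fun h => hne h.symm)
      nlinarith
    -- invertibility of the derivative
    have hker : ∀ s, 0 ≤ s → s ≤ t → ∀ x ∈ closedBall (0 : E) 1,
        (ContinuousLinearMap.id ℝ E + s • D x).det ≠ 0 := by
      intro s hs0 hst x hx h0
      have h3 : ¬ Function.Injective (ContinuousLinearMap.id ℝ E + s • D x) := by
        intro hi
        have h4 : LinearMap.ker ((ContinuousLinearMap.id ℝ E + s • D x : E →L[ℝ] E) :
            E →ₗ[ℝ] E) = ⊥ := LinearMap.ker_eq_bot.2 hi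
        have h5 : LinearMap.det ((ContinuousLinearMap.id ℝ E + s • D x : E →L[ℝ] E) :
            E →ₗ[ℝ] E) ≠ 0 := by
          intro h6
          exact (LinearMap.bot_lt_ker_of_det_eq_zero h6).ne' h4
        exact h5 h0
      apply h3
      rw [injective_iff_map_eq_zero]
      intro v hv
      have h4 : v = -(s • D x v) := by
        have : v + s • D x v = 0 := by simpa using hv
        exact eq_neg_of_add_eq_zero_left this
      have h5 : ‖v‖ ≤ s * (C * ‖v‖) := by
        calc ‖v‖ = s * ‖D x v‖ := by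
              conv_lhs => rw [h4]
              rw [norm_neg, norm_smul, Real.norm_of_nonneg hs0]
          _ ≤ s * (C * ‖v‖) := by
              gcongr
              exact (D x).le_of_opNorm_le (hC x hx) v
      by_contra hne
      have h6 : 0 < ‖v‖ := norm_pos_iff.2 hne
      have h7 : s * C < 1 := lt_of_le_of_lt (mul_le_mul_of_nonneg_right hst hC0) htC
      nlinarith
    have hpos : ∀ x ∈ closedBall (0 : E) 1, 0 < (ContinuousLinearMap.id ℝ E + t • D x).det := by
      intro x hx
      by_contra hneg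
      push Not at hneg
      obtain ⟨p, -, hp⟩ := exists_poly (D x)
      have hcont : ContinuousOn (fun s : ℝ => p.eval s) (Icc 0 t) := p.continuous.continuousOn
      have h3 : (0 : ℝ) ∈ Icc (p.eval t) (p.eval 0) := by
        rw [hp, hp]
        refine ⟨hneg, ?_⟩
        have : (ContinuousLinearMap.id ℝ E + (0 : ℝ) • D x).det = 1 := by
          rw [zero_smul, add_zero]
          exact LinearMap.det_id
        rw [this]
        exact zero_le_one
      obtain ⟨s, hs, hs'⟩ := intermediate_value_Icc' htn hcont h3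
      exact hker s hs.1 hs.2 x hx (by rw [← hp]; exact hs')
    -- the image is the ball
    have hsub : F t '' ball (0 : E) 1 ⊆ ball (0 : E) 1 := by
      rintro _ ⟨x, hx, rfl⟩
      have hx' : ‖x‖ < 1 := by simpa using hx
      have h3 : F t x = (1 - t) • x + t • f x := by
        simp only [F]
        module
      rw [mem_ball_zero_iff, h3]
      calc ‖(1 - t) • x + t • f x‖ ≤ ‖(1 - t) • x‖ + ‖t • f x‖ := norm_add_le _ _
        _ = (1 - t) * ‖x‖ + t * 1 := by
            rw [norm_smul, norm_smul, Real.norm_of_nonneg htn, h1 x (hball hx),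
              Real.norm_of_nonneg (by linarith)]
        _ < 1 := by nlinarith
    have hopen : IsOpen (F t '' ball (0 : E) 1) := by
      rw [isOpen_iff_mem_nhds]
      rintro _ ⟨x, hx, rfl⟩
      have h3 := hF t x (hB (hball hx))
      have hdet := hpos x (hball hx)
      have hsurj : LinearMap.range ((ContinuousLinearMap.id ℝ E + t • D x : E →L[ℝ] E) :
          E →ₗ[ℝ] E) = ⊤ := range_eq_top_of_det hdet.ne'
      rw [← h3.map_nhds_eq_of_surj hsurj]
      exact Filter.image_mem_map (isOpen_ball.mem_nhds hx)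
    have hcl : closure (F t '' ball (0 : E) 1) ∩ ball (0 : E) 1 ⊆ F t '' ball (0 : E) 1 := by
      have hFc : ContinuousOn (F t) (closedBall (0 : E) 1) := fun x hx =>
        (hF t x (hB hx)).hasFDerivAt.continuousAt.continuousWithinAt
      have hclosed : IsClosed (F t '' closedBall (0 : E) 1) := (hcomp.image_of_continuousOn hFc).isClosed
      rintro y ⟨hy1, hy2⟩
      have h3 : y ∈ F t '' closedBall (0 : E) 1 :=
        closure_minimal (image_mono hball) hclosed hy1
      obtain ⟨x, hx, rfl⟩ := h3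
      rcases (mem_closedBall_zero_iff.1 hx).lt_or_eq with h4 | h4
      · exact ⟨x, mem_ball_zero_iff.2 h4, rfl⟩
      · exfalso
        have h5 : F t x = x := by simp [F, h2 x h4]
        rw [h5, mem_ball_zero_iff, h4] at hy2
        exact lt_irrefl _ hy2
    have himg : F t '' ball (0 : E) 1 = ball (0 : E) 1 := by
      refine Subset.antisymm hsub ?_
      refine (convex_ball (0 : E) 1).isPreconnected.subset_of_closure_inter_subset hopen ?_ hcl
      refine ⟨F t 0, hsub ⟨0, by simp, rfl⟩, ⟨0, by simp, rfl⟩⟩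
    have h3 := integral_image_eq_integral_abs_det_fderiv_smul (μ := μ)
      (measurableSet_ball (x := (0 : E)) (ε := 1))
      (fun x hx => (hF t x (hB (hball hx))).hasFDerivAt.hasFDerivWithinAt) hinj (fun _ => (1 : ℝ))
    rw [himg] at h3
    simp only [smul_eq_mul, mul_one] at h3
    rw [setIntegral_const, smul_eq_mul, mul_one] at h3
    have h4 : ∫ x in ball (0 : E) 1, (ContinuousLinearMap.id ℝ E + t • D x).det ∂μ =
        ∫ x in ball (0 : E) 1, |(ContinuousLinearMap.id ℝ E + t • D x).det| ∂μ := by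
      refine setIntegral_congr_fun measurableSet_ball fun x hx => ?_
      exact (abs_of_pos (hpos x (hball hx))).symm
    rw [h4, ← h3]
    rfl
  -- interpolation
  set n := Module.finrank ℝ E with hn
  let s : Finset ℕ := Finset.range (n + 1)
  let v : ℕ → ℝ := fun j => t0 * j / (n + 1)
  have hn1 : (0 : ℝ) < n + 1 := by positivity
  have hv : InjOn v s := by
    intro i _ j _ hij
    simp only [v] at hij
    rw [div_left_inj' hn1.ne'] at hij
    exact_mod_cast mul_left_cancel₀ ht0.ne' hij
  have hv0 : ∀ j ∈ s, 0 ≤ v j ∧ v j ≤ t0 := by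
    intro j hj
    have hj' : (j : ℝ) ≤ n + 1 := by
      have := Finset.mem_range.1 hj
      exact_mod_cast this.le
    refine ⟨by positivity, ?_⟩
    rw [div_le_iff₀ hn1]
    exact mul_le_mul_of_nonneg_left hj' ht0.le
  have hcontdet : ∀ t : ℝ, ContinuousOn
      (fun x => (ContinuousLinearMap.id ℝ E + t • D x).det) (closedBall (0 : E) 1) := by
    intro t
    refine ContinuousLinearMap.continuous_det.comp_continuousOn ?_
    exact continuousOn_const.add ((hDc.mono hB).const_smul t)
  have hint : ∀ t : ℝ, IntegrableOn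
      (fun x => (ContinuousLinearMap.id ℝ E + t • D x).det) (ball (0 : E) 1) μ := fun t =>
    ((hcontdet t).integrableOn_compact hcomp).mono_set hball
  have hlag : ∀ x, (ContinuousLinearMap.id ℝ E + (1 : ℝ) • D x).det =
      ∑ j ∈ s, (Lagrange.basis s v j).eval 1 * (ContinuousLinearMap.id ℝ E + v j • D x).det := by
    intro x
    obtain ⟨p, hp1, hp⟩ := exists_poly (D x)
    have h3 : p.degree < (s.card : WithBot ℕ) := by
      refine lt_of_le_of_lt Polynomial.degree_le_natDegree ?_
      rw [Finset.card_range]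
      exact_mod_cast Nat.lt_succ_of_le hp1
    have h4 := Lagrange.eq_interpolate hv h3
    rw [← hp]
    conv_lhs => rw [h4]
    rw [Lagrange.interpolate_apply, Polynomial.eval_finsetSum]
    refine Finset.sum_congr rfl fun j _ => ?_
    rw [Polynomial.eval_mul, Polynomial.eval_C, hp, mul_comm]
  have hsum1 : ∑ j ∈ s, (Lagrange.basis s v j).eval 1 = 1 := by
    have := Lagrange.sum_basis hv (Finset.nonempty_range_iff.2 (Nat.succ_ne_zero n))
    rw [← Polynomial.eval_finsetSum, this, Polynomial.eval_one]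
  have hfinal : ∫ x in ball (0 : E) 1, (ContinuousLinearMap.id ℝ E + (1 : ℝ) • D x).det ∂μ =
      (μ (ball (0 : E) 1)).toReal := by
    simp_rw [hlag]
    rw [integral_finsetSum _ fun j _ => (hint (v j)).const_mul _]
    simp_rw [integral_const_mul]
    rw [Finset.sum_congr rfl fun j hj => by rw [key (v j) (hv0 j hj).1 (hv0 j hj).2]]
    rw [← Finset.sum_mul, hsum1, one_mul]
  have hzero : ∫ x in ball (0 : E) 1, (ContinuousLinearMap.id ℝ E + (1 : ℝ) • D x).det ∂μ = 0 := by
    rw [setIntegral_congr_fun (g := fun _ => (0 : ℝ)) measurableSet_ball]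
    · simp
    · intro x hx
      have h3 : ContinuousLinearMap.id ℝ E + (1 : ℝ) • D x = fderiv ℝ f x := by
        simp [D]
      show (ContinuousLinearMap.id ℝ E + (1 : ℝ) • D x).det = 0
      rw [h3]
      -- the norm of `f` is constant
      have h4 : ∀ w : E, inner ℝ (f x) (fderiv ℝ f x w) = 0 := by
        have h5 : HasFDerivAt (fun z => ‖f z‖ ^ 2) (2 • (innerSL ℝ (f x)).comp (fderiv ℝ f x)) x :=
          (hdf x (hB (hball hx))).norm_sq
        have h6 : (fun z : E => ‖f z‖ ^ 2) =ᶠ[𝓝 x] fun _ : E => (1 : ℝ) := by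
          filter_upwards [isOpen_ball.mem_nhds hx] with z hz
          rw [h1 z (hball hz), one_pow]
        have h7 : HasFDerivAt (fun z : E => ‖f z‖ ^ 2) (0 : E →L[ℝ] ℝ) x :=
          (hasFDerivAt_const (1 : ℝ) x).congr_of_eventuallyEq h6
        have h8 := h5.unique h7
        intro w
        have h9 := congrArg (fun L : E →L[ℝ] ℝ => L w) h8
        simpa using h9
      by_contra hne
      have hsurj : Function.Surjective (fderiv ℝ f x) := by
        have h5 : LinearMap.range ((fderiv ℝ f x : E →L[ℝ] E) : E →ₗ[ℝ] E) = ⊤ :=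
          range_eq_top_of_det hne
        exact fun y => (h5 ▸ Submodule.mem_top : y ∈ LinearMap.range
          ((fderiv ℝ f x : E →L[ℝ] E) : E →ₗ[ℝ] E))
      obtain ⟨w, hw⟩ := hsurj (f x)
      have h5 := h4 w
      rw [hw, real_inner_self_eq_norm_sq, h1 x (hball hx)] at h5
      norm_num at h5
  rw [hzero] at hfinal
  have h3 : 0 < μ (ball (0 : E) 1) := measure_ball_pos μ 0 one_pos
  have h4 : μ (ball (0 : E) 1) ≠ ⊤ := measure_ball_lt_top.ne
  exact (ENNReal.toReal_pos h3.ne' h4).ne hfinal

/-- Brouwer for smooth maps with values in the ball -/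
theorem exists_fixed_smooth (g : E → E) (hg : ContDiff ℝ 1 g)
    (hB : ∀ x ∈ closedBall (0 : E) 1, ‖g x‖ ≤ 1) : ∃ x ∈ closedBall (0 : E) 1, g x = x := by
  by_contra hcon
  push Not at hcon
  -- `u x = x - g x` is nonzero near the ball
  let u : E → E := fun x => x - g x
  have hu : ContDiff ℝ 1 u := contDiff_id.sub hg
  let q : E → ℝ := fun x => (inner ℝ x (u x)) ^ 2 + (1 - ‖x‖ ^ 2) * ‖u x‖ ^ 2
  have hq : ContDiff ℝ 1 q :=
    ((contDiff_id.inner ℝ hu).pow 2).add ((contDiff_const.sub (contDiff_id.norm_sq ℝ)).mul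
      (hu.norm_sq ℝ))
  let U : Set E := {x | u x ≠ 0 ∧ 0 < q x}
  have hU : IsOpen U := (isOpen_ne_fun hu.continuous continuous_const).inter
    (isOpen_lt continuous_const hq.continuous)
  have hu0 : ∀ x ∈ closedBall (0 : E) 1, u x ≠ 0 := fun x hx h =>
    hcon x hx (sub_eq_zero.1 h).symm
  have hxu : ∀ x, ‖x‖ = 1 → 0 < inner ℝ x (u x) := by
    intro x hx
    have hx' : x ∈ closedBall (0 : E) 1 := mem_closedBall_zero_iff.2 hx.le
    have h1 : inner ℝ x (u x) = 1 - inner ℝ x (g x) := by
      simp only [u, inner_sub_right, real_inner_self_eq_norm_sq, hx, one_pow]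
    rw [h1]
    have h2 : inner ℝ x (g x) ≤ 1 := by
      refine (real_inner_le_norm x (g x)).trans ?_
      rw [hx, one_mul]
      exact hB x hx'
    rcases h2.lt_or_eq with h3 | h3
    · linarith
    · exfalso
      have h4 : ‖g x - x‖ ^ 2 ≤ 0 := by
        rw [norm_sub_sq_real, real_inner_comm, h3, hx]
        have := hB x hx'
        nlinarith [norm_nonneg (g x)]
      have h5 : ‖g x - x‖ = 0 := by
        have := sq_nonneg ‖g x - x‖
        exact pow_eq_zero_iff (two_ne_zero) |>.1 (le_antisymm h4 this)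
      exact hcon x hx' (sub_eq_zero.1 (norm_eq_zero.1 h5))
  have hBU : closedBall (0 : E) 1 ⊆ U := by
    intro x hx
    refine ⟨hu0 x hx, ?_⟩
    have h1 : 0 < ‖u x‖ ^ 2 := by
      have := norm_pos_iff.2 (hu0 x hx)
      positivity
    rcases (mem_closedBall_zero_iff.1 hx).lt_or_eq with h2 | h2
    · have h3 : 0 < 1 - ‖x‖ ^ 2 := by nlinarith [norm_nonneg x]
      have := sq_nonneg (inner ℝ x (u x))
      have := mul_pos h3 h1
      simp only [q]
      linarith
    · have h3 := hxu x h2
      simp only [q, h2]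
      have := pow_pos h3 2
      linarith
  -- the retraction
  let s : E → ℝ := fun x => (-inner ℝ x (u x) + Real.sqrt (q x)) / ‖u x‖ ^ 2
  let f : E → E := fun x => x + s x • u x
  have hs : ContDiffOn ℝ 1 s U := by
    refine ContDiffOn.div ?_ (hu.norm_sq ℝ).contDiffOn ?_
    · refine (contDiff_id.inner ℝ hu).neg.contDiffOn.add ?_
      exact hq.contDiffOn.sqrt fun x hx => hx.2.ne'
    · intro x hx
      exact (pow_pos (norm_pos_iff.2 hx.1) 2).ne'
  have hf : ContDiffOn ℝ 1 f U := contDiffOn_id.add (hs.smul hu.contDiffOn)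
  refine no_retract f U hU hBU hf ?_ ?_
  · intro x hx
    obtain ⟨h1, h2⟩ := hBU hx
    have h3 : ‖u x‖ ^ 2 ≠ 0 := (pow_pos (norm_pos_iff.2 h1) 2).ne'
    have h4 : ‖f x‖ ^ 2 = 1 := by
      simp only [f]
      rw [norm_add_sq_real, norm_smul, mul_pow, Real.norm_eq_abs, sq_abs, real_inner_smul_right]
      have h5 : s x * ‖u x‖ ^ 2 = -inner ℝ x (u x) + Real.sqrt (q x) := div_mul_cancel₀ _ h3
      have h6 : Real.sqrt (q x) ^ 2 = q x := Real.sq_sqrt h2.le
      have h7 : (s x ^ 2 * ‖u x‖ ^ 2) * ‖u x‖ ^ 2 = (-inner ℝ x (u x) + Real.sqrt (q x)) ^ 2 := by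
        rw [← h5]; ring
      have h8 : (‖x‖ ^ 2 + 2 * (s x * inner ℝ x (u x)) + s x ^ 2 * ‖u x‖ ^ 2 - 1) *
          ‖u x‖ ^ 2 = 0 := by
        have e1 : (‖x‖ ^ 2 + 2 * (s x * inner ℝ x (u x)) + s x ^ 2 * ‖u x‖ ^ 2 - 1) *
          ‖u x‖ ^ 2 = (‖x‖ ^ 2 - 1) * ‖u x‖ ^ 2 + 2 * inner ℝ x (u x) * (s x * ‖u x‖ ^ 2) +
            (s x ^ 2 * ‖u x‖ ^ 2) * ‖u x‖ ^ 2 := by ring
        rw [e1, h7, h5]
        have e2 : (-inner ℝ x (u x) + Real.sqrt (q x)) ^ 2 =
            inner ℝ x (u x) ^ 2 - 2 * inner ℝ x (u x) * Real.sqrt (q x) +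
              Real.sqrt (q x) ^ 2 := by ring
        rw [e2, h6]
        simp only [q]
        ring
      have h9 := (mul_eq_zero.1 h8).resolve_right h3
      linarith
    have h5 := norm_nonneg (f x)
    nlinarith
  · intro x hx
    have h1 := hxu x hx
    have h2 : q x = inner ℝ x (u x) ^ 2 := by simp [q, hx]
    have h3 : s x = 0 := by
      simp only [s, h2]
      rw [Real.sqrt_sq h1.le]
      simp
    simp [f, h3]

/-- **Brouwer's fixed point theorem** for bounded continuous maps -/
theorem exists_fixed (g : E → E) (hg : Continuous g) (R : ℝ) (hR : ∀ x, ‖g x‖ ≤ R) :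
    ∃ x, g x = x := by
  by_contra hcon
  push Not at hcon
  let r : ℝ := |R| + 1
  have hr : 0 < r := by positivity
  have hRr : ∀ x, ‖g x‖ ≤ r := fun x => (hR x).trans ((le_abs_self R).trans (by simp [r]))
  let k : E → E := fun x => r⁻¹ • g (r • x)
  have hk : Continuous k := by fun_prop
  have hk1 : ∀ x, ‖k x‖ ≤ 1 := by
    intro x
    simp only [k]
    rw [norm_smul, norm_inv, Real.norm_of_nonneg hr.le, inv_mul_le_iff₀ hr, mul_one]
    exact hRr _
  have hkne : ∀ x, k x ≠ x := by
    intro x hx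
    apply hcon (r • x)
    have : r • k x = g (r • x) := by simp [k, hr.ne']
    rw [← this, hx]
  -- distance bounded below
  have hcomp : IsCompact (closedBall (0 : E) 1) := isCompact_closedBall 0 1
  obtain ⟨x0, hx0, hmin⟩ := hcomp.exists_isMinOn ⟨0, by simp⟩
    (f := fun x => ‖k x - x‖) (by fun_prop)
  set d := ‖k x0 - x0‖ with hd
  have hd0 : 0 < d := norm_pos_iff.2 (sub_ne_zero.2 (hkne x0))
  let ε : ℝ := d / 4
  have hε : 0 < ε := by positivity
  obtain ⟨p, hp, hp1, -⟩ := hk.exists_contDiff_approx 1 (ε := fun _ => ε) continuous_const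
    (fun _ => hε)
  have hp2 : ∀ x, ‖p x‖ ≤ 1 + ε := by
    intro x
    have h1 := hp1 x
    rw [dist_eq_norm] at h1
    have h2 := norm_le_norm_add_norm_sub' (p x) (k x)
    have := hk1 x
    linarith
  have h1ε : 0 < 1 + ε := by positivity
  obtain ⟨x, hx, hx'⟩ := exists_fixed_smooth (fun x => (1 + ε)⁻¹ • p x)
    ((contDiff_const (c := (1 + ε)⁻¹)).smul (hp.of_le (by simp))) (fun x _ => by
      rw [norm_smul, norm_inv, Real.norm_of_nonneg h1ε.le, inv_mul_le_iff₀ h1ε, mul_one]
      exact hp2 x)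
  have h3 : p x = (1 + ε) • x := by
    have h4 : (1 + ε)⁻¹ • p x = x := hx'
    rw [inv_smul_eq_iff₀ h1ε.ne'] at h4
    exact h4
  have h4 : ‖k x - x‖ ≤ 2 * ε := by
    have h5 : k x - x = -(p x - k x) + ε • x := by
      rw [h3]
      module
    rw [h5]
    calc ‖-(p x - k x) + ε • x‖ ≤ ‖-(p x - k x)‖ + ‖ε • x‖ := norm_add_le _ _
      _ ≤ ε + ε * 1 := by
          rw [norm_neg, norm_smul, Real.norm_of_nonneg hε.le]
          have h6 := hp1 x
          rw [dist_eq_norm] at h6
          have h7 := mem_closedBall_zero_iff.1 hx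
          gcongr
      _ = 2 * ε := by ring
  have h5 : d ≤ ‖k x - x‖ := hmin hx
  have : 2 * ε = d / 2 := by simp only [ε]; ring
  linarith

omit [FiniteDimensional ℝ E] in
/-- clipping to a product of intervals is continuous, so **Brouwer for boxes** -/
theorem exists_fixed_box {ι : Type*} [Fintype ι] (a b : ι → ℝ) (hab : ∀ i, a i ≤ b i)
    (f : (ι → ℝ) → (ι → ℝ)) (hf : ContinuousOn f (Icc a b)) (hfm : MapsTo f (Icc a b) (Icc a b)) :
    ∃ x ∈ Icc a b, f x = x := by
  let e : EuclideanSpace ℝ ι ≃L[ℝ] (ι → ℝ) := EuclideanSpace.equiv ι ℝ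
  let c : (ι → ℝ) → (ι → ℝ) := fun x i => max (a i) (min (b i) (x i))
  have hc : Continuous c := by fun_prop
  have hcm : ∀ x, c x ∈ Icc a b := fun x =>
    ⟨fun i => le_max_left _ _, fun i => max_le (hab i) (min_le_left _ _)⟩
  have hcx : ∀ x ∈ Icc a b, c x = x := by
    intro x hx
    funext i
    simp only [c]
    rw [min_eq_right (hx.2 i), max_eq_right (hx.1 i)]
  have hfc : Continuous fun x => f (c x) := hf.comp_continuous hc hcm
  let g : EuclideanSpace ℝ ι → EuclideanSpace ℝ ι := fun x => e.symm (f (c (e x)))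
  have hg : Continuous g := e.symm.continuous.comp (hfc.comp e.continuous)
  obtain ⟨R, hR⟩ : ∃ R, ∀ y ∈ Icc a b, ‖e.symm y‖ ≤ R :=
    (isCompact_Icc (a := a) (b := b)).exists_bound_of_continuousOn
      e.symm.continuous.continuousOn
  obtain ⟨x, hx⟩ := exists_fixed g hg R (fun x => hR _ (hfm (hcm _)))
  have h1 : f (c (e x)) = e x := by
    have := congrArg e hx
    simpa [g] using this
  have h2 : e x ∈ Icc a b := by
    rw [← h1]
    exact hfm (hcm _)
  exact ⟨e x, h2, by rw [hcx _ h2] at h1; exact h1⟩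

end Pool.Agent.helper66.Brouwer
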