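import Pool.Agent.helper66.NbrConstr

/-!
# A `(3,0)`-robust graph on 18 vertices
-/

set_option autoImplicit false

open Finset Classical

namespace Pool.Agent.Nbr

/-- closed neighbourhoods of the 18 vertices, as bit masks -/
def msk (v : Fin 18) : ℕ :=
  ([26657, 1586, 3148, 136204, 242, 16435, 2516, 164048, 86848, 67330, 1550, 10309, 151816,
    108545, 20769, 237696, 107264, 168072] : List ℕ).getD v.1 0

/-- membership of `w` in the closed neighbourhood of `v` -/
def nbd (v w : Fin 18) : Bool := Nat.testBit (msk v) w.1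

lemma nbd_symm : ∀ v w : Fin 18, nbd v w = nbd w v := by decide +kernel

lemma nbd_self : ∀ v : Fin 18, nbd v v = true := by decide +kernel

/-- the graph -/
def g18 : SimpleGraph (Fin 18) where
  Adj u v := u ≠ v ∧ nbd u v = true
  symm := ⟨fun u v h => ⟨h.1.symm, by rw [nbd_symm]; exact h.2⟩⟩
  loopless := ⟨fun _ h => h.1 rfl⟩

/-- one step of the closure -/
def stp (s r : ℕ) : ℕ :=
  (List.finRange 18).foldl
    (fun acc v => if Nat.testBit r v.1 then acc ||| (msk v &&& s) else acc) r

/-- is `s` the mask of a set inducing a connected and non-complete graph? -/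
def chk (s : ℕ) : Bool :=
  ((List.finRange 18).any fun v => Nat.testBit s v.1 &&
    (stp s (stp s (stp s (stp s (stp s (2 ^ v.1)))))) == s) &&
  ((List.finRange 18).any fun u => Nat.testBit s u.1 &&
    ((List.finRange 18).any fun v => Nat.testBit s v.1 && !nbd u v))

/-- the mask of the survivors of `N[a] ∪ N[b] ∪ N[c]` -/
def srv (a b c : Fin 18) : ℕ := 262143 ^^^ (262143 &&& (msk a ||| msk b ||| msk c))

lemma chk_all : (List.finRange 18).all (fun a => (List.finRange 18).all (fun b =>
    (List.finRange 18).all (fun c => decide (c < b) || decide (b < a) || chk (srv a b c)))) = true := by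
  decide +kernel

lemma chk_full : chk 262143 = true := by decide +kernel


lemma srv_swap1 (a b c : Fin 18) : srv a b c = srv b a c := by
  unfold srv
  rw [Nat.or_comm (msk a) (msk b)]

lemma srv_swap2 (a b c : Fin 18) : srv a b c = srv a c b := by
  unfold srv
  rw [Nat.or_assoc, Nat.or_assoc, Nat.or_comm (msk b) (msk c)]

lemma chk_sorted (a b c : Fin 18) (hab : a ≤ b) (hbc : b ≤ c) : chk (srv a b c) = true := by
  have h := chk_all
  rw [List.all_eq_true] at h
  have h1 := h a (List.mem_finRange a)
  rw [List.all_eq_true] at h1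
  have h2 := h1 b (List.mem_finRange b)
  rw [List.all_eq_true] at h2
  have h3 := h2 c (List.mem_finRange c)
  simp only [Bool.or_eq_true, decide_eq_true_eq] at h3
  rcases h3 with (h3 | h3) | h3
  · exact absurd h3 (not_lt.2 hbc)
  · exact absurd h3 (not_lt.2 hab)
  · exact h3

lemma chk_abc (a b c : Fin 18) : chk (srv a b c) = true := by
  rcases le_total a b with hab | hab
  · rcases le_total b c with hbc | hbc
    · exact chk_sorted a b c hab hbc
    · rcases le_total a c with hac | hac
      · rw [srv_swap2]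
        exact chk_sorted a c b hac hbc
      · rw [srv_swap2, srv_swap1]
        exact chk_sorted c a b hac hab
  · rcases le_total a c with hac | hac
    · rw [srv_swap1]
      exact chk_sorted b a c hab hac
    · rcases le_total b c with hbc | hbc
      · rw [srv_swap1, srv_swap2]
        exact chk_sorted b c a hbc hac
      · rw [srv_swap1, srv_swap2, srv_swap1]
        exact chk_sorted c b a hbc hab

lemma foldl_inv (s r : ℕ) (P : Fin 18 → Prop)
    (hr : ∀ v : Fin 18, Nat.testBit r v.1 = true → P v)
    (hP : ∀ v w : Fin 18, P v → nbd v w = true → Nat.testBit s w.1 = true → P w)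
    (l : List (Fin 18)) :
    ∀ acc : ℕ, (∀ v : Fin 18, Nat.testBit acc v.1 = true → P v) →
      ∀ v : Fin 18, Nat.testBit (l.foldl
        (fun acc v => if Nat.testBit r v.1 then acc ||| (msk v &&& s) else acc) acc) v.1 = true →
        P v := by
  induction l with
  | nil =>
    intro acc hacc v hv
    exact hacc v hv
  | cons u l ih =>
    intro acc hacc
    rw [List.foldl_cons]
    apply ih
    by_cases hu : Nat.testBit r u.1 = true
    · rw [if_pos hu]
      intro v hv
      rw [Nat.testBit_or, Nat.testBit_and, Bool.or_eq_true, Bool.and_eq_true] at hv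
      rcases hv with hv | hv
      · exact hacc v hv
      · exact hP u v (hr u hu) hv.1 hv.2
    · rw [if_neg hu]
      exact hacc

lemma stp_inv (s r : ℕ) (P : Fin 18 → Prop)
    (hr : ∀ v : Fin 18, Nat.testBit r v.1 = true → P v)
    (hP : ∀ v w : Fin 18, P v → nbd v w = true → Nat.testBit s w.1 = true → P w) :
    ∀ v : Fin 18, Nat.testBit (stp s r) v.1 = true → P v :=
  foldl_inv s r P hr hP _ r hr

lemma chk_sound (s : ℕ) (T : Set (Fin 18)) (hT : ∀ v : Fin 18, v ∈ T ↔ Nat.testBit s v.1 = true)
    (h : chk s = true) : (g18.induce T).Connected ∧ ¬ IsCompleteGraph (g18.induce T) := by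
  unfold chk at h
  rw [Bool.and_eq_true, List.any_eq_true, List.any_eq_true] at h
  obtain ⟨⟨v, _, hv⟩, u, _, hu⟩ := h
  rw [Bool.and_eq_true] at hv hu
  refine ⟨?_, ?_⟩
  · have hvT : v ∈ T := (hT v).2 hv.1
    set P : Fin 18 → Prop := fun w => ∃ hw : w ∈ T, (g18.induce T).Reachable ⟨v, hvT⟩ ⟨w, hw⟩
      with hPdef
    have hP : ∀ a b : Fin 18, P a → nbd a b = true → Nat.testBit s b.1 = true → P b := by
      rintro a b ⟨ha, hra⟩ hab hb
      refine ⟨(hT b).2 hb, hra.trans (reach_of ?_)⟩
      by_cases h1 : a = b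
      · left
        exact Subtype.ext h1
      · right
        exact ⟨h1, hab⟩
    have h0 : ∀ w : Fin 18, Nat.testBit (2 ^ v.1) w.1 = true → P w := by
      intro w hw
      rw [Nat.testBit_two_pow] at hw
      have h1 : v = w := Fin.ext (by simpa using hw)
      subst h1
      exact ⟨hvT, SimpleGraph.Reachable.refl _⟩
    have h5 := stp_inv s _ P (stp_inv s _ P (stp_inv s _ P (stp_inv s _ P
      (stp_inv s _ P h0 hP) hP) hP) hP) hP
    have h6 : stp s (stp s (stp s (stp s (stp s (2 ^ v.1))))) = s := by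
      simpa using hv.2
    rw [h6] at h5
    rw [SimpleGraph.connected_iff_exists_forall_reachable]
    refine ⟨⟨v, hvT⟩, ?_⟩
    rintro ⟨w, hw⟩
    obtain ⟨hw', h7⟩ := h5 w ((hT w).1 hw)
    exact h7
  · intro hcomp
    obtain ⟨hu1, hu2⟩ := hu
    rw [List.any_eq_true] at hu2
    obtain ⟨w, _, hw⟩ := hu2
    rw [Bool.and_eq_true, Bool.not_eq_true'] at hw
    have huw : u ≠ w := by
      rintro rfl
      rw [nbd_self] at hw
      exact absurd hw.2 (by simp)
    have h1 := hcomp ⟨u, (hT u).2 hu1⟩ ⟨w, (hT w).2 hw.1⟩ (fun h2 => huw (congrArg Subtype.val h2))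
    have h2 : nbd u w = true := h1.2
    rw [h2] at hw
    exact absurd hw.2 (by simp)

lemma testBit_full (v : Fin 18) : Nat.testBit 262143 v.1 = true := by
  revert v
  decide +kernel

lemma testBit_srv (a b c v : Fin 18) : Nat.testBit (srv a b c) v.1 = true ↔
    ¬ (nbd a v = true ∨ nbd b v = true ∨ nbd c v = true) := by
  unfold srv nbd
  rw [Nat.testBit_xor, Nat.testBit_and, Nat.testBit_or, Nat.testBit_or, testBit_full]
  cases Nat.testBit (msk a) v.1 <;> cases Nat.testBit (msk b) v.1 <;>
    cases Nat.testBit (msk c) v.1 <;> simp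

lemma g18_nbd (x v : Fin 18) : (v = x ∨ g18.Adj x v) ↔ nbd x v = true := by
  constructor
  · rintro (rfl | h)
    · exact nbd_self _
    · exact h.2
  · intro h
    by_cases h1 : v = x
    · exact Or.inl h1
    · exact Or.inr ⟨fun h2 => h1 h2.symm, h⟩

lemma g18_robust : IsRobust g18 3 0 := by
  intro X Y hX hY
  have hY0 : Y = ∅ := card_eq_zero.1 (by omega)
  subst hY0
  rcases X.eq_empty_or_nonempty with hX0 | hX0
  · subst hX0
    refine chk_sound 262143 _ ?_ chk_full
    intro v
    rw [testBit_full]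
    refine ⟨fun _ => rfl, fun _ => ⟨?_, by simp⟩⟩
    rintro ⟨x, hx, _⟩
    simp at hx
  · obtain ⟨a, b, c, habc⟩ : ∃ a b c : Fin 18, X = {a, b, c} := by
      have h1 : 1 ≤ X.card := card_pos.2 hX0
      obtain h2 | h2 | h2 : X.card = 1 ∨ X.card = 2 ∨ X.card = 3 := by omega
      · obtain ⟨a, rfl⟩ := card_eq_one.1 h2
        exact ⟨a, a, a, by simp⟩
      · obtain ⟨a, b, _, rfl⟩ := card_eq_two.1 h2
        exact ⟨a, b, b, by simp⟩
      · obtain ⟨a, b, c, _, _, _, rfl⟩ := card_eq_three.1 h2
        exact ⟨a, b, c, rfl⟩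
    refine chk_sound (srv a b c) _ ?_ (chk_abc a b c)
    intro v
    rw [testBit_srv, ← g18_nbd, ← g18_nbd, ← g18_nbd]
    constructor
    · rintro ⟨h1, _⟩ h2
      apply h1
      rcases h2 with h2 | h2 | h2
      · exact ⟨a, by rw [habc]; simp, h2⟩
      · exact ⟨b, by rw [habc]; simp, h2⟩
      · exact ⟨c, by rw [habc]; simp, h2⟩
    · intro h1
      refine ⟨?_, by simp⟩
      rintro ⟨x, hx, h2⟩
      rw [habc, mem_insert, mem_insert, mem_singleton] at hx
      apply h1
      rcases hx with rfl | rfl | rfl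
      · exact Or.inl h2
      · exact Or.inr (Or.inl h2)
      · exact Or.inr (Or.inr h2)

end Pool.Agent.Nbr
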