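import Pool.Agent.helper66.Orbit

set_option autoImplicit false

/-!
# Existence of `T`-good states near the centre of a box (screening lemma of helper98 / helper99)
-/

open Set Metric Topology Filter

namespace Pool.Agent.helper66.Brouwer

variable {ι : Type*} [Fintype ι]

/-- General screening lemma. `E` is a function on the box `[z - r, z + r]` with gradient `F`
(`E y - E x ≥ F x · (y - x) - L |y - x|²`), `τ i ≥ c > 0` are tolerances, `p i (x i)`, `q i (x i)`
are the allowed speeds upwards and downwards (they vanish at the upper and lower end of the box).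
Then there is a state `x` at which no coordinate is moved, and whose `ℓ¹` distance from the centre
is at most `(E (2z - w) - E w) / (2c)` for some `w` in the box. -/
theorem exists_tgood (z r : ι → ℝ) (hr : ∀ i, 0 ≤ r i) (E : (ι → ℝ) → ℝ)
    (hE : ContinuousOn E (Icc (z - r) (z + r))) (F : (ι → ℝ) → ι → ℝ)
    (hF : ContinuousOn F (Icc (z - r) (z + r))) (L : ℝ)
    (hEF : ∀ x ∈ Icc (z - r) (z + r), ∀ y ∈ Icc (z - r) (z + r),
      ∑ i, F x i * (y i - x i) - L * ∑ i, (y i - x i) ^ 2 ≤ E y - E x)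
    (τ : ι → ℝ) (c : ℝ) (hc : 0 < c) (hτ : ∀ i, c ≤ τ i)
    (p q : ι → ℝ → ℝ) (hp : ∀ i, Continuous (p i)) (hq : ∀ i, Continuous (q i)) (P : ℝ)
    (hP : 0 < P)
    (hp0 : ∀ i t, z i - r i ≤ t → t ≤ z i + r i → 0 ≤ p i t ∧ p i t ≤ P * (z i + r i - t) ∧ p i t ≤ P)
    (hq0 : ∀ i t, z i - r i ≤ t → t ≤ z i + r i →
      0 ≤ q i t ∧ q i t ≤ P * (t - (z i - r i)) ∧ q i t ≤ P) :
    ∃ w ∈ Icc (z - r) (z + r), ∃ x ∈ Icc (z - r) (z + r),
      2 * c * ∑ i, |x i - z i| ≤ E ((2 : ℝ) • z - w) - E w ∧
      2 * c * ∑ i, |w i - z i| ≤ E ((2 : ℝ) • z - w) - E w ∧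
      ∀ i, (τ i < F x i → p i (x i) = 0) ∧ (F x i < -τ i → q i (x i) = 0) := by
  classical
  set K : Set (ι → ℝ) := Icc (z - r) (z + r) with hK
  obtain ⟨B, hB⟩ := (isCompact_Icc (a := z - r) (b := z + r)).exists_bound_of_continuousOn hF
  have hBF : ∀ x ∈ K, ∀ i, |F x i| ≤ max B 0 := fun x hx i =>
    ((norm_le_pi_norm (F x) i).trans (hB x hx)).trans (le_max_left _ _)
  set M := max B 0 with hM
  have hM0 : 0 ≤ M := le_max_right _ _
  -- the step size
  obtain ⟨η, hη0, hη1, hη2⟩ : ∃ η : ℝ, 0 < η ∧ η * (M * P) ≤ 1 ∧ η * (|L| * P) ≤ 1 := by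
    refine ⟨1 / (M * P + |L| * P + 1), by positivity, ?_, ?_⟩
    · rw [div_mul_eq_mul_div, one_mul, div_le_one (by positivity)]
      have : 0 ≤ |L| * P := by positivity
      linarith
    · rw [div_mul_eq_mul_div, one_mul, div_le_one (by positivity)]
      have : 0 ≤ M * P := by positivity
      linarith
  have hKi : ∀ x ∈ K, ∀ i, z i - r i ≤ x i ∧ x i ≤ z i + r i := fun x hx i => ⟨hx.1 i, hx.2 i⟩
  let X : (ι → ℝ) → ι → ℝ := fun x i =>
    max (F x i - τ i) 0 * p i (x i) - max (-F x i - τ i) 0 * q i (x i)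
  let S : (ι → ℝ) → ι → ℝ := fun x i => x i + η * X x i
  have hFi : ∀ i, ContinuousOn (fun x => F x i) K := fun i => (continuous_apply i).comp_continuousOn hF
  have hX : ContinuousOn X K := by
    refine continuousOn_pi.2 fun i => ?_
    have h1 : ContinuousOn (fun x : ι → ℝ => p i (x i)) K :=
      ((hp i).comp (continuous_apply i)).continuousOn
    have h2 : ContinuousOn (fun x : ι → ℝ => q i (x i)) K :=
      ((hq i).comp (continuous_apply i)).continuousOn
    exact ((((hFi i).sub continuousOn_const).sup continuousOn_const).mul h1).sub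
      ((((hFi i).neg.sub continuousOn_const).sup continuousOn_const).mul h2)
  have hS : ContinuousOn S K := by
    refine continuousOn_pi.2 fun i => ?_
    exact (continuous_apply i).continuousOn.add
      (continuousOn_const.mul ((continuous_apply i).comp_continuousOn hX))
  have hτ0 : ∀ i, 0 < τ i := fun i => hc.trans_le (hτ i)
  have hsp : ∀ x ∈ K, ∀ i, max (F x i - τ i) 0 ≤ M ∧ max (-F x i - τ i) 0 ≤ M := by
    intro x hx i
    have h1 := abs_le.1 (hBF x hx i)
    have h2 := hτ0 i
    constructor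
    · exact max_le (by linarith [h1.2]) hM0
    · exact max_le (by linarith [h1.1]) hM0
  have hm : MapsTo S K K := by
    intro x hx
    constructor
    · intro i
      obtain ⟨h1, h2⟩ := hKi x hx i
      obtain ⟨h3, h4, h5⟩ := hp0 i (x i) h1 h2
      obtain ⟨h6, h7, h8⟩ := hq0 i (x i) h1 h2
      obtain ⟨h9, h10⟩ := hsp x hx i
      have h11 : 0 ≤ max (F x i - τ i) 0 := le_max_right _ _
      have h12 : 0 ≤ max (-F x i - τ i) 0 := le_max_right _ _
      show z i - r i ≤ x i + η * X x i
      have h13 : η * (max (-F x i - τ i) 0 * q i (x i)) ≤ x i - (z i - r i) := by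
        calc η * (max (-F x i - τ i) 0 * q i (x i)) ≤ η * (M * (P * (x i - (z i - r i)))) := by
              gcongr
          _ = (η * (M * P)) * (x i - (z i - r i)) := by ring
          _ ≤ 1 * (x i - (z i - r i)) := mul_le_mul_of_nonneg_right hη1 (by linarith)
          _ = _ := one_mul _
      have h14 : 0 ≤ η * (max (F x i - τ i) 0 * p i (x i)) := by positivity
      simp only [X]
      rw [mul_sub]
      linarith
    · intro i
      obtain ⟨h1, h2⟩ := hKi x hx i
      obtain ⟨h3, h4, h5⟩ := hp0 i (x i) h1 h2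
      obtain ⟨h6, h7, h8⟩ := hq0 i (x i) h1 h2
      obtain ⟨h9, h10⟩ := hsp x hx i
      have h11 : 0 ≤ max (F x i - τ i) 0 := le_max_right _ _
      have h12 : 0 ≤ max (-F x i - τ i) 0 := le_max_right _ _
      show x i + η * X x i ≤ z i + r i
      have h13 : η * (max (F x i - τ i) 0 * p i (x i)) ≤ z i + r i - x i := by
        calc η * (max (F x i - τ i) 0 * p i (x i)) ≤ η * (M * (P * (z i + r i - x i))) := by
              gcongr
          _ = (η * (M * P)) * (z i + r i - x i) := by ring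
          _ ≤ 1 * (z i + r i - x i) := mul_le_mul_of_nonneg_right hη1 (by linarith)
          _ = _ := one_mul _
      have h14 : 0 ≤ η * (max (-F x i - τ i) 0 * q i (x i)) := by positivity
      simp only [X]
      rw [mul_sub]
      linarith
  -- pointwise inequality
  have hpt : ∀ x ∈ K, ∀ i, c * |X x i| + X x i ^ 2 / P ≤ F x i * X x i := by
    intro x hx i
    obtain ⟨h1, h2⟩ := hKi x hx i
    obtain ⟨h3, h4, h5⟩ := hp0 i (x i) h1 h2
    obtain ⟨h6, h7, h8⟩ := hq0 i (x i) h1 h2
    have hcτ := hτ i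
    have hτi := hτ0 i
    rcases lt_or_ge (τ i) (F x i) with h9 | h9
    · have e1 : max (F x i - τ i) 0 = F x i - τ i := max_eq_left (by linarith)
      have e2 : max (-F x i - τ i) 0 = 0 := max_eq_right (by linarith)
      have e3 : X x i = (F x i - τ i) * p i (x i) := by simp only [X, e1, e2]; ring
      have e4 : 0 ≤ X x i := by rw [e3]; exact mul_nonneg (by linarith) h3
      have e5 : X x i ≤ (F x i - τ i) * P := by
        rw [e3]; exact mul_le_mul_of_nonneg_left h5 (by linarith)
      have e6 : X x i ^ 2 / P ≤ (F x i - τ i) * X x i := by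
        rw [div_le_iff₀ hP]
        nlinarith
      rw [abs_of_nonneg e4]
      nlinarith
    · rcases lt_or_ge (F x i) (-τ i) with h10 | h10
      · have e1 : max (F x i - τ i) 0 = 0 := max_eq_right (by linarith)
        have e2 : max (-F x i - τ i) 0 = -F x i - τ i := max_eq_left (by linarith)
        have e3 : X x i = -((-F x i - τ i) * q i (x i)) := by simp only [X, e1, e2]; ring
        have e4 : X x i ≤ 0 := by
          rw [e3]; exact neg_nonpos.2 (mul_nonneg (by linarith) h6)
        have e5 : -X x i ≤ (-F x i - τ i) * P := by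
          rw [e3, neg_neg]; exact mul_le_mul_of_nonneg_left h8 (by linarith)
        have e6 : X x i ^ 2 / P ≤ (-F x i - τ i) * (-X x i) := by
          rw [div_le_iff₀ hP]
          nlinarith
        rw [abs_of_nonpos e4]
        nlinarith
      · have e1 : max (F x i - τ i) 0 = 0 := max_eq_right (by linarith)
        have e2 : max (-F x i - τ i) 0 = 0 := max_eq_right (by linarith)
        have e3 : X x i = 0 := by simp only [X, e1, e2]; ring
        simp [e3]
  have hstep : ∀ x ∈ K, c * ∑ i, |S x i - x i| ≤ E (S x) - E x := by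
    intro x hx
    refine le_trans ?_ (hEF x hx (S x) (hm hx))
    have h1 : ∀ i, S x i - x i = η * X x i := fun i => by simp only [S]; ring
    simp only [h1]
    rw [Finset.mul_sum, Finset.mul_sum, ← Finset.sum_sub_distrib]
    refine Finset.sum_le_sum fun i _ => ?_
    have h2 := hpt x hx i
    rw [abs_mul, abs_of_pos hη0]
    have h3 : L * (η * X x i) ^ 2 ≤ η * (X x i ^ 2 / P) := by
      have h4 : 0 ≤ X x i ^ 2 := sq_nonneg _
      calc L * (η * X x i) ^ 2 ≤ |L| * (η * X x i) ^ 2 :=
            mul_le_mul_of_nonneg_right (le_abs_self L) (sq_nonneg _)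
        _ = (η * (|L| * P)) * (η * (X x i ^ 2 / P)) := by
            field_simp
        _ ≤ 1 * (η * (X x i ^ 2 / P)) := mul_le_mul_of_nonneg_right hη2 (by positivity)
        _ = _ := one_mul _
    have h5 := mul_le_mul_of_nonneg_left h2 hη0.le
    calc c * (η * |X x i|) = η * (c * |X x i| + X x i ^ 2 / P) - η * (X x i ^ 2 / P) := by ring
      _ ≤ η * (F x i * X x i) - L * (η * X x i) ^ 2 := by linarith
      _ = _ := by ring
  obtain ⟨w, hw, x, hx, h1, h2, h3⟩ := orbit z r hr S hS hm E hE c hc hstep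
  refine ⟨w, hw, x, hx, h2, h3, fun i => ?_⟩
  have h4 : X x i = 0 := by
    have h5 : x i + η * X x i = x i := congrFun h1 i
    have h6 : η * X x i = 0 := by linarith
    exact (mul_eq_zero.1 h6).resolve_left hη0.ne'
  have hτi := hτ0 i
  constructor
  · intro h5
    have e1 : max (F x i - τ i) 0 = F x i - τ i := max_eq_left (by linarith)
    have e2 : max (-F x i - τ i) 0 = 0 := max_eq_right (by linarith)
    simp only [X, e1, e2, zero_mul, sub_zero] at h4
    exact (mul_eq_zero.1 h4).resolve_left (by linarith)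
  · intro h5
    have e1 : max (F x i - τ i) 0 = 0 := max_eq_right (by linarith)
    have e2 : max (-F x i - τ i) 0 = -F x i - τ i := max_eq_left (by linarith)
    simp only [X, e1, e2, zero_mul, zero_sub, neg_eq_zero] at h4
    exact (mul_eq_zero.1 h4).resolve_left (by linarith)

/-- quadratic energies -/
theorem quad_lower (A : ι → ι → ℝ) (hA : ∀ i j, A i j = A j i) (h : ι → ℝ) (x y : ι → ℝ) :
    ∑ i, (h i + ∑ j, A i j * x j) * (y i - x i) -
      (∑ i, ∑ j, |A i j|) * ∑ i, (y i - x i) ^ 2 ≤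
    (∑ i, h i * y i + (∑ i, ∑ j, A i j * y i * y j) / 2) -
      (∑ i, h i * x i + (∑ i, ∑ j, A i j * x i * x j) / 2) := by
  classical
  let d : ι → ℝ := fun i => y i - x i
  have hy : ∀ i, y i = x i + d i := fun i => by simp [d]
  have h1 : (∑ i, ∑ j, A i j * y i * y j) = (∑ i, ∑ j, A i j * x i * x j) +
      2 * ∑ i, (∑ j, A i j * x j) * d i + ∑ i, ∑ j, A i j * d i * d j := by
    have e1 : ∀ i j, A i j * y i * y j = A i j * x i * x j + A i j * x j * d i +
        A i j * x i * d j + A i j * d i * d j := fun i j => by rw [hy i, hy j]; ring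
    simp only [e1, Finset.sum_add_distrib]
    have e2 : ∑ i, ∑ j, A i j * x i * d j = ∑ i, ∑ j, A i j * x j * d i := by
      rw [Finset.sum_comm]
      refine Finset.sum_congr rfl fun i _ => Finset.sum_congr rfl fun j _ => ?_
      rw [hA j i]
    have e3 : ∑ i, (∑ j, A i j * x j) * d i = ∑ i, ∑ j, A i j * x j * d i :=
      Finset.sum_congr rfl fun i _ => Finset.sum_mul _ _ _
    rw [e2, e3]
    ring
  have h2 : ∑ i, h i * y i = ∑ i, h i * x i + ∑ i, h i * d i := by
    rw [← Finset.sum_add_distrib]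
    exact Finset.sum_congr rfl fun i _ => by rw [hy i]; ring
  have h3 : ∑ i, (h i + ∑ j, A i j * x j) * (y i - x i) =
      ∑ i, h i * d i + ∑ i, (∑ j, A i j * x j) * d i := by
    rw [← Finset.sum_add_distrib]
    exact Finset.sum_congr rfl fun i _ => by simp only [d]; ring
  have h4 : -(2 * ((∑ i, ∑ j, |A i j|) * ∑ i, d i ^ 2)) ≤ ∑ i, ∑ j, A i j * d i * d j := by
    have e1 : ∀ i j, -(|A i j| * ((d i) ^ 2 + (d j) ^ 2)) ≤ A i j * d i * d j := by
      intro i j
      have e2 : |A i j * d i * d j| ≤ |A i j| * ((d i) ^ 2 + (d j) ^ 2) := by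
        rw [mul_assoc, abs_mul]
        refine mul_le_mul_of_nonneg_left ?_ (abs_nonneg _)
        rw [abs_le]
        constructor <;> nlinarith [sq_nonneg (d i + d j), sq_nonneg (d i - d j), sq_nonneg (d i),
          sq_nonneg (d j)]
      exact (abs_le.1 e2).1
    have e3 : ∑ i, ∑ j, |A i j| * ((d i) ^ 2 + (d j) ^ 2) ≤
        2 * ((∑ i, ∑ j, |A i j|) * ∑ i, d i ^ 2) := by
      have e4 : ∀ i, (d i) ^ 2 ≤ ∑ k, d k ^ 2 := fun i =>
        Finset.single_le_sum (f := fun k => d k ^ 2) (fun k _ => sq_nonneg _) (Finset.mem_univ i)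
      calc ∑ i, ∑ j, |A i j| * ((d i) ^ 2 + (d j) ^ 2)
          ≤ ∑ i, ∑ j, |A i j| * (2 * ∑ k, d k ^ 2) := by
            refine Finset.sum_le_sum fun i _ => Finset.sum_le_sum fun j _ => ?_
            refine mul_le_mul_of_nonneg_left ?_ (abs_nonneg _)
            have := e4 i
            have := e4 j
            linarith
        _ = _ := by
            simp only [← Finset.sum_mul]
            ring
    calc -(2 * ((∑ i, ∑ j, |A i j|) * ∑ i, d i ^ 2))
        ≤ -∑ i, ∑ j, |A i j| * ((d i) ^ 2 + (d j) ^ 2) := neg_le_neg e3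
      _ = ∑ i, ∑ j, -(|A i j| * ((d i) ^ 2 + (d j) ^ 2)) := by
          simp only [Finset.sum_neg_distrib]
      _ ≤ _ := Finset.sum_le_sum fun i _ => Finset.sum_le_sum fun j _ => e1 i j
  rw [h1, h2, h3]
  have h5 : ∑ i, (y i - x i) ^ 2 = ∑ i, d i ^ 2 := rfl
  rw [h5]
  linarith

/-- **Screening lemma** (helper98, helper99): for a symmetric matrix `A`, a field `h` and a
tolerance `τ > 0` there is a `T`-good state with `τ ‖x‖₁ ≤ ‖h‖₁`. -/
theorem screening (A : ι → ι → ℝ) (hA : ∀ i j, A i j = A j i) (h : ι → ℝ) (τ : ℝ) (hτ : 0 < τ) :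
    ∃ x : ι → ℝ, (∀ i, |x i| ≤ 1) ∧ τ * ∑ i, |x i| ≤ ∑ i, |h i| ∧
      ∀ i, (τ < h i + ∑ j, A i j * x j → x i = 1) ∧
        (h i + ∑ j, A i j * x j < -τ → x i = -1) := by
  classical
  obtain ⟨w, hw, x, hx, h1, h2, h3⟩ := exists_tgood (ι := ι) 0 1 (fun i => zero_le_one)
    (fun y => ∑ i, h i * y i + (∑ i, ∑ j, A i j * y i * y j) / 2) (by fun_prop)
    (fun y i => h i + ∑ j, A i j * y j) (by fun_prop) (∑ i, ∑ j, |A i j|)
    (fun x _ y _ => quad_lower A hA h x y) (fun _ => τ) τ hτ (fun _ => le_rfl)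
    (fun _ t => 1 - t) (fun _ t => 1 + t) (fun _ => by fun_prop) (fun _ => by fun_prop) 2 two_pos
    (fun i t ht1 ht2 => by
      simp only [Pi.zero_apply, Pi.one_apply, zero_sub, zero_add] at ht1 ht2 ⊢
      refine ⟨by linarith, by linarith, by linarith⟩)
    (fun i t ht1 ht2 => by
      simp only [Pi.zero_apply, Pi.one_apply, zero_sub, zero_add] at ht1 ht2 ⊢
      refine ⟨by linarith, by linarith, by linarith⟩)
  have hb : ∀ y ∈ Icc ((0 : ι → ℝ) - 1) (0 + 1), ∀ i, |y i| ≤ 1 := by
    intro y hy i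
    have e1 := hy.1 i
    have e2 := hy.2 i
    simp only [Pi.zero_apply, Pi.one_apply, Pi.sub_apply, Pi.add_apply, zero_sub, zero_add]
      at e1 e2
    exact abs_le.2 ⟨e1, e2⟩
  refine ⟨x, hb x hx, ?_, fun i => ?_⟩
  · have e1 : (fun y : ι → ℝ => ∑ i, h i * y i + (∑ i, ∑ j, A i j * y i * y j) / 2)
        ((2 : ℝ) • (0 : ι → ℝ) - w) - (fun y : ι → ℝ => ∑ i, h i * y i +
          (∑ i, ∑ j, A i j * y i * y j) / 2) w = -(2 * ∑ i, h i * w i) := by
      simp only [smul_zero, zero_sub, Pi.neg_apply, mul_neg, neg_mul, neg_neg,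
        Finset.sum_neg_distrib]
      ring
    rw [e1] at h1
    have e2 : -(∑ i, h i * w i) ≤ ∑ i, |h i| := by
      rw [← Finset.sum_neg_distrib]
      refine Finset.sum_le_sum fun i _ => ?_
      calc -(h i * w i) ≤ |h i * w i| := neg_le_abs _
        _ = |h i| * |w i| := abs_mul _ _
        _ ≤ |h i| * 1 := mul_le_mul_of_nonneg_left (hb w hw i) (abs_nonneg _)
        _ = _ := mul_one _
    simp only [Pi.zero_apply, sub_zero] at h1
    linarith
  · constructor
    · intro h4
      have := (h3 i).1 h4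
      linarith
    · intro h4
      have := (h3 i).2 h4
      linarith

end Pool.Agent.helper66.Brouwer
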