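import Pool.Agent.helper66.NbrLower

/-!
# Constructions of robust graphs
-/

set_option autoImplicit false

open Finset Classical

namespace Pool.Agent.Nbr

/-- reachability of vertices which are equal or adjacent -/
lemma reach_of {V : Type*} {G : SimpleGraph V} {u v : V} (h : u = v ∨ G.Adj u v) :
    G.Reachable u v := by
  rcases h with rfl | h
  · exact SimpleGraph.Reachable.refl _
  · exact h.reachable

/-- the rook's graph -/
def rook (a b : ℕ) : SimpleGraph (Fin a × Fin b) where
  Adj u v := u ≠ v ∧ (u.1 = v.1 ∨ u.2 = v.2)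
  symm := ⟨fun _ _ h => ⟨h.1.symm, h.2.imp Eq.symm Eq.symm⟩⟩
  loopless := ⟨fun _ h => h.1 rfl⟩

lemma rook_robust (k m : ℕ) (hm : 1 ≤ m) : IsRobust (rook (k + 2) (k + m + 1)) k m := by
  intro X Y hX hY
  set R : Finset (Fin (k + 2)) := univ \ X.image Prod.fst with hR
  set C : Finset (Fin (k + m + 1)) := univ \ X.image Prod.snd with hC
  have hRcard : 2 ≤ R.card := by
    have h1 : (X.image Prod.fst).card ≤ k := card_image_le.trans hX
    rw [hR, card_sdiff_of_subset (subset_univ _), card_univ, Fintype.card_fin]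
    omega
  have hCcard : m + 1 ≤ C.card := by
    have h1 : (X.image Prod.snd).card ≤ k := card_image_le.trans hX
    rw [hC, card_sdiff_of_subset (subset_univ _), card_univ, Fintype.card_fin]
    omega
  have hsurv : ∀ i ∈ R, ∀ j ∈ C, (i, j) ∉ Y → (i, j) ∈ survivors (rook (k + 2) (k + m + 1)) X Y := by
    intro i hi j hj hY'
    refine ⟨?_, hY'⟩
    rintro ⟨x, hx, h1⟩
    rw [hR, mem_sdiff, mem_image] at hi
    rw [hC, mem_sdiff, mem_image] at hj
    rcases h1 with h1 | ⟨_, h1⟩
    · exact hi.2 ⟨x, hx, by rw [← h1]⟩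
    · rcases h1 with h1 | h1
      · exact hi.2 ⟨x, hx, h1⟩
      · exact hj.2 ⟨x, hx, h1⟩
  have hsurv' : ∀ v ∈ survivors (rook (k + 2) (k + m + 1)) X Y, v.1 ∈ R ∧ v.2 ∈ C := by
    rintro v ⟨hv, _⟩
    refine ⟨?_, ?_⟩
    · rw [hR, mem_sdiff, mem_image]
      refine ⟨mem_univ _, ?_⟩
      rintro ⟨x, hx, h1⟩
      apply hv
      refine ⟨x, hx, ?_⟩
      by_cases h2 : v = x
      · exact Or.inl h2
      · exact Or.inr ⟨fun h3 => h2 h3.symm, Or.inl h1⟩
    · rw [hC, mem_sdiff, mem_image]
      refine ⟨mem_univ _, ?_⟩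
      rintro ⟨x, hx, h1⟩
      apply hv
      refine ⟨x, hx, ?_⟩
      by_cases h2 : v = x
      · exact Or.inl h2
      · exact Or.inr ⟨fun h3 => h2 h3.symm, Or.inr h1⟩
  have hcol : ∀ i i' : Fin (k + 2), i ≠ i' → ∃ j ∈ C, (i, j) ∉ Y ∧ (i', j) ∉ Y := by
    intro i i' hii
    by_contra hcon
    push Not at hcon
    have h1 : C.card ≤ Y.card := by
      refine card_le_card_of_injOn (fun j => if (i, j) ∈ Y then (i, j) else (i', j)) ?_ ?_
      · intro j hj
        by_cases h2 : (i, j) ∈ Y
        · simp only [h2, if_true, mem_coe]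
        · simp only [h2, if_false, mem_coe]
          exact hcon j hj h2
      · intro j _ j' _ hjj
        have h2 := congrArg Prod.snd hjj
        simp only at h2
        split_ifs at h2 <;> exact h2
    omega
  obtain ⟨i, hi, i', hi', hii⟩ := one_lt_card.1 hRcard
  obtain ⟨j, hj, hij, hij'⟩ := hcol i i' hii
  refine ⟨?_, ?_⟩
  · rw [SimpleGraph.connected_iff]
    refine ⟨?_, ⟨⟨(i, j), hsurv i hi j hj hij⟩⟩⟩
    rintro ⟨u, hu⟩ ⟨v, hv⟩
    by_cases huv : u.1 = v.1
    · apply reach_of
      by_cases h1 : u = v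
      · left
        exact Subtype.ext h1
      · right
        exact ⟨h1, Or.inl huv⟩
    · obtain ⟨l, hl, hl1, hl2⟩ := hcol u.1 v.1 huv
      have hu' := hsurv u.1 (hsurv' u hu).1 l hl hl1
      have hv' := hsurv v.1 (hsurv' v hv).1 l hl hl2
      refine (reach_of (v := ⟨(u.1, l), hu'⟩) ?_).trans
        ((reach_of (v := ⟨(v.1, l), hv'⟩) ?_).trans (reach_of ?_))
      · by_cases h1 : u = (u.1, l)
        · left
          exact Subtype.ext h1
        · right
          exact ⟨h1, Or.inl rfl⟩
      · right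
        refine ⟨fun h1 => huv ?_, Or.inr rfl⟩
        have h2 : ((u.1, l) : Fin (k + 2) × Fin (k + m + 1)) = (v.1, l) := h1
        exact (Prod.mk.inj h2).1
      · by_cases h1 : (v.1, l) = v
        · left
          exact Subtype.ext h1
        · right
          exact ⟨h1, Or.inl rfl⟩
  · intro hcomp
    have key : ∃ l ∈ C, l ≠ j ∧ ((i, l) ∉ Y ∨ (i', l) ∉ Y) := by
      by_contra hcon
      push Not at hcon
      have h1 : (C.erase j).image (fun l => (i, l)) ∪ (C.erase j).image (fun l => (i', l)) ⊆ Y := by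
        intro v hv
        rw [mem_union, mem_image, mem_image] at hv
        rcases hv with ⟨l, hl, rfl⟩ | ⟨l, hl, rfl⟩
        · rw [mem_erase] at hl
          exact (hcon l hl.2 hl.1).1
        · rw [mem_erase] at hl
          exact (hcon l hl.2 hl.1).2
      have h2 := card_le_card h1
      rw [card_union_of_disjoint, card_image_of_injective, card_image_of_injective,
        card_erase_of_mem hj] at h2
      · omega
      · intro a b hab
        exact congrArg Prod.snd hab
      · intro a b hab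
        exact congrArg Prod.snd hab
      · rw [disjoint_left]
        intro v hv hv'
        rw [mem_image] at hv hv'
        obtain ⟨a, _, ha⟩ := hv
        obtain ⟨b, _, hb⟩ := hv'
        exact hii (congrArg Prod.fst (ha.trans hb.symm))
    obtain ⟨l, hl, hlj, hl1 | hl1⟩ := key
    · have h1 := hcomp ⟨(i, l), hsurv i hi l hl hl1⟩ ⟨(i', j), hsurv i' hi' j hj hij'⟩
        (fun h2 => hii (congrArg Prod.fst (congrArg Subtype.val h2)))
      rcases h1.2 with h2 | h2
      · exact hii h2
      · exact hlj h2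
    · have h1 := hcomp ⟨(i', l), hsurv i' hi' l hl hl1⟩ ⟨(i, j), hsurv i hi j hj hij⟩
        (fun h2 => hii (congrArg Prod.fst (congrArg Subtype.val h2)).symm)
      rcases h1.2 with h2 | h2
      · exact hii h2.symm
      · exact hlj h2

/-- the inflated complete graph: ordered pairs of distinct elements of `Fin a`, adjacent if they
have the same first entry or are reverses of each other -/
def inflated (a : ℕ) : SimpleGraph {q : Fin a × Fin a // q.1 ≠ q.2} where
  Adj u v := u ≠ v ∧ (u.1.1 = v.1.1 ∨ (u.1.1 = v.1.2 ∧ u.1.2 = v.1.1))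
  symm := ⟨fun _ _ h => ⟨h.1.symm, h.2.imp Eq.symm (fun h2 => ⟨h2.2.symm, h2.1.symm⟩)⟩⟩
  loopless := ⟨fun _ h => h.1 rfl⟩

lemma inflated_card (a : ℕ) : Fintype.card {q : Fin a × Fin a // q.1 ≠ q.2} = a * (a - 1) := by
  rw [Fintype.card_subtype]
  have h1 : (univ.filter (fun q : Fin a × Fin a => q.1 ≠ q.2)).card +
      (univ.filter (fun q : Fin a × Fin a => ¬ q.1 ≠ q.2)).card = (univ : Finset (Fin a × Fin a)).card :=
    card_filter_add_card_filter_not _
  have h2 : (univ.filter (fun q : Fin a × Fin a => ¬ q.1 ≠ q.2)).card = a := by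
    have h3 : univ.filter (fun q : Fin a × Fin a => ¬ q.1 ≠ q.2) =
        (univ : Finset (Fin a)).image (fun i => (i, i)) := by
      ext q
      simp only [mem_filter, mem_univ, true_and, mem_image, not_not]
      constructor
      · intro h
        exact ⟨q.1, Prod.ext rfl h⟩
      · rintro ⟨i, rfl⟩
        rfl
    rw [h3, card_image_of_injective, card_univ, Fintype.card_fin]
    intro i j hij
    exact congrArg Prod.fst hij
  rw [card_univ, Fintype.card_prod, Fintype.card_fin, h2] at h1
  rw [Nat.mul_sub, mul_one]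
  omega

lemma inflated_robust (k : ℕ) (hk : 1 ≤ k) : IsRobust (inflated (k + 2)) k 0 := by
  intro X Y hX hY
  have hY0 : Y = ∅ := card_eq_zero.1 (by omega)
  subst hY0
  set R : Finset (Fin (k + 2)) := univ \ X.image (fun x => x.1.1) with hR
  have hRcard : 2 ≤ R.card := by
    have h1 : (X.image (fun x => x.1.1)).card ≤ k := card_image_le.trans hX
    rw [hR, card_sdiff_of_subset (subset_univ _), card_univ, Fintype.card_fin]
    omega
  have hRX : ∀ i ∈ R, ∀ x ∈ X, x.1.1 ≠ i := by
    intro i hi x hx h1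
    rw [hR, mem_sdiff, mem_image] at hi
    exact hi.2 ⟨x, hx, h1⟩
  have hsurv : ∀ (i j : Fin (k + 2)) (hij : i ≠ j), i ∈ R → (∀ x ∈ X, x.1 ≠ (j, i)) →
      (⟨(i, j), hij⟩ : {q : Fin (k + 2) × Fin (k + 2) // q.1 ≠ q.2}) ∈
        survivors (inflated (k + 2)) X ∅ := by
    intro i j hij hi hx'
    refine ⟨?_, by simp⟩
    rintro ⟨x, hx, h1⟩
    rcases h1 with h1 | ⟨_, h1⟩
    · exact hRX i hi x hx (by rw [← h1])
    · rcases h1 with h1 | h1
      · exact hRX i hi x hx h1
      · exact hx' x hx (Prod.ext h1.1 h1.2)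
  have hsurv2 : ∀ (i j : Fin (k + 2)) (hij : i ≠ j), i ∈ R → j ∈ R →
      (⟨(i, j), hij⟩ : {q : Fin (k + 2) × Fin (k + 2) // q.1 ≠ q.2}) ∈
        survivors (inflated (k + 2)) X ∅ := by
    intro i j hij hi hj
    refine hsurv i j hij hi ?_
    intro x hx h1
    exact hRX j hj x hx (congrArg Prod.fst h1)
  have hsurv' : ∀ v ∈ survivors (inflated (k + 2)) X ∅, v.1.1 ∈ R := by
    rintro v ⟨hv, _⟩
    rw [hR, mem_sdiff, mem_image]
    refine ⟨mem_univ _, ?_⟩
    rintro ⟨x, hx, h1⟩
    apply hv
    refine ⟨x, hx, ?_⟩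
    by_cases h2 : v = x
    · exact Or.inl h2
    · exact Or.inr ⟨fun h3 => h2 h3.symm, Or.inl h1⟩
  obtain ⟨i, hi, i', hi', hii⟩ := one_lt_card.1 hRcard
  refine ⟨?_, ?_⟩
  · rw [SimpleGraph.connected_iff]
    refine ⟨?_, ⟨⟨⟨(i, i'), hii⟩, hsurv2 i i' hii hi hi'⟩⟩⟩
    rintro ⟨u, hu⟩ ⟨v, hv⟩
    by_cases huv : u.1.1 = v.1.1
    · apply reach_of
      by_cases h1 : u = v
      · left
        exact Subtype.ext h1
      · right
        exact ⟨h1, Or.inl huv⟩
    · have hu' := hsurv2 u.1.1 v.1.1 huv (hsurv' u hu) (hsurv' v hv)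
      have hv' := hsurv2 v.1.1 u.1.1 (fun h => huv h.symm) (hsurv' v hv) (hsurv' u hu)
      refine (reach_of (v := ⟨⟨(u.1.1, v.1.1), huv⟩, hu'⟩) ?_).trans
        ((reach_of (v := ⟨⟨(v.1.1, u.1.1), fun h => huv h.symm⟩, hv'⟩) ?_).trans (reach_of ?_))
      · by_cases h1 : u = ⟨(u.1.1, v.1.1), huv⟩
        · left
          exact Subtype.ext h1
        · right
          exact ⟨h1, Or.inl rfl⟩
      · right
        refine ⟨fun h1 => huv ?_, Or.inr ⟨rfl, rfl⟩⟩
        have h2 : ((u.1.1, v.1.1) : Fin (k + 2) × Fin (k + 2)) = (v.1.1, u.1.1) :=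
          congrArg Subtype.val h1
        exact (Prod.mk.inj h2).1
      · by_cases h1 : (⟨(v.1.1, u.1.1), fun h => huv h.symm⟩ :
            {q : Fin (k + 2) × Fin (k + 2) // q.1 ≠ q.2}) = v
        · left
          exact Subtype.ext h1
        · right
          exact ⟨h1, Or.inl rfl⟩
  · intro hcomp
    have key : ∃ t : Fin (k + 2), t ≠ i ∧ t ≠ i' ∧
        ((∀ x ∈ X, x.1 ≠ (t, i)) ∨ (∀ x ∈ X, x.1 ≠ (t, i'))) := by
      by_contra hcon
      push Not at hcon
      set T : Finset (Fin (k + 2)) := (univ.erase i).erase i' with hT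
      have hTcard : T.card = k := by
        rw [hT, card_erase_of_mem, card_erase_of_mem (mem_univ _), card_univ, Fintype.card_fin]
        · omega
        · rw [mem_erase]
          exact ⟨fun h => hii h.symm, mem_univ _⟩
      have h1 : T.image (fun t => (t, i)) ∪ T.image (fun t => (t, i')) ⊆
          X.image (fun x => x.1) := by
        intro v hv
        rw [mem_union, mem_image, mem_image] at hv
        rcases hv with ⟨t, ht, rfl⟩ | ⟨t, ht, rfl⟩
        · rw [hT, mem_erase, mem_erase] at ht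
          obtain ⟨⟨x, hx, h2⟩, _⟩ := hcon t ht.2.1 ht.1
          rw [mem_image]
          exact ⟨x, hx, h2⟩
        · rw [hT, mem_erase, mem_erase] at ht
          obtain ⟨_, ⟨x, hx, h2⟩⟩ := hcon t ht.2.1 ht.1
          rw [mem_image]
          exact ⟨x, hx, h2⟩
      have h2 := card_le_card h1
      rw [card_union_of_disjoint, card_image_of_injective, card_image_of_injective, hTcard] at h2
      · have h3 : (X.image (fun x => x.1)).card ≤ k := card_image_le.trans hX
        omega
      · intro a b hab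
        exact congrArg Prod.fst hab
      · intro a b hab
        exact congrArg Prod.fst hab
      · rw [disjoint_left]
        intro v hv hv'
        rw [mem_image] at hv hv'
        obtain ⟨a, _, ha⟩ := hv
        obtain ⟨b, _, hb⟩ := hv'
        exact hii (congrArg Prod.snd (ha.trans hb.symm))
    obtain ⟨t, hti, hti', h1 | h1⟩ := key
    · have h2 := hcomp ⟨⟨(i, t), hti.symm⟩, hsurv i t hti.symm hi h1⟩
        ⟨⟨(i', i), fun h => hii h.symm⟩, hsurv2 i' i (fun h => hii h.symm) hi' hi⟩
        (fun h2 => hii (congrArg (fun w : survivors (inflated (k + 2)) X ∅ => w.1.1.1) h2))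
      rcases h2.2 with h3 | h3
      · exact hii h3
      · exact hti' h3.2
    · have h2 := hcomp ⟨⟨(i', t), hti'.symm⟩, hsurv i' t hti'.symm hi' h1⟩
        ⟨⟨(i, i'), hii⟩, hsurv2 i i' hii hi hi'⟩
        (fun h2 => hii (congrArg (fun w : survivors (inflated (k + 2)) X ∅ => w.1.1.1) h2).symm)
      rcases h2.2 with h3 | h3
      · exact hii h3.symm
      · exact hti h3.2

/-- complete multipartite graph by residues -/
def resGraph (n r : ℕ) : SimpleGraph (Fin n) where
  Adj u v := u.1 % r ≠ v.1 % r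
  symm := ⟨fun _ _ h => Ne.symm h⟩
  loopless := ⟨fun _ h => h rfl⟩

lemma resGraph_robust (m r : ℕ) (hr : m + 1 ≤ r * (r - 1)) :
    IsRobust (resGraph (m + 1 + r) r) 0 m := by
  have hr0 : 0 < r := by
    rcases Nat.eq_zero_or_pos r with h | h
    · subst h
      simp at hr
    · exact h
  have hsq : m + 1 + r ≤ r * r := by
    have h1 : r * (r - 1) + r = r * r := by
      rw [Nat.mul_sub, mul_one]
      have : r ≤ r * r := Nat.le_mul_of_pos_left r hr0
      omega
    omega
  intro X Y hX hY
  have hX0 : X = ∅ := card_eq_zero.1 (by omega)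
  subst hX0
  set S : Finset (Fin (m + 1 + r)) := univ \ Y with hS
  have hScard : r + 1 ≤ S.card := by
    rw [hS, card_sdiff_of_subset (subset_univ _), card_univ, Fintype.card_fin]
    omega
  have hsurv : ∀ v, v ∈ survivors (resGraph (m + 1 + r) r) ∅ Y ↔ v ∈ S := by
    intro v
    rw [hS, mem_sdiff]
    constructor
    · rintro ⟨_, h2⟩
      exact ⟨mem_univ _, h2⟩
    · rintro ⟨_, h2⟩
      refine ⟨?_, h2⟩
      rintro ⟨x, hx, _⟩
      simp at hx
  have hclass : ∀ a : ℕ, (S.filter (fun v => v.1 % r = a)).card ≤ r := by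
    intro a
    have h1 : (S.filter (fun v => v.1 % r = a)).card ≤ (range r).card := by
      refine card_le_card_of_injOn (fun v => v.1 / r) ?_ ?_
      · intro v _
        simp only [coe_range, Set.mem_Iio]
        rw [Nat.div_lt_iff_lt_mul hr0]
        exact v.2.trans_le hsq
      · intro u hu v hv huv
        rw [mem_coe, mem_filter] at hu hv
        apply Fin.ext
        rw [← Nat.div_add_mod u.1 r, ← Nat.div_add_mod v.1 r, hu.2, hv.2]
        simp only at huv
        rw [huv]
    rwa [card_range] at h1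
  refine ⟨?_, ?_⟩
  · rw [SimpleGraph.connected_iff]
    refine ⟨?_, ?_⟩
    · rintro ⟨u, hu⟩ ⟨v, hv⟩
      by_cases huv : u.1 % r = v.1 % r
      · have h1 : ∃ w ∈ S, w.1 % r ≠ u.1 % r := by
          by_contra hcon
          push Not at hcon
          have h2 := hclass (u.1 % r)
          rw [filter_true_of_mem hcon] at h2
          omega
        obtain ⟨w, hwS, hw⟩ := h1
        have hw' := (hsurv w).2 hwS
        refine (reach_of (v := ⟨w, hw'⟩) (Or.inr ?_)).trans (reach_of (Or.inr ?_))
        · exact Ne.symm hw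
        · change w.1 % r ≠ v.1 % r
          rw [← huv]
          exact hw
      · exact reach_of (Or.inr huv)
    · obtain ⟨v, hv⟩ : S.Nonempty := by
        rw [← card_pos]
        omega
      exact ⟨⟨v, (hsurv v).2 hv⟩⟩
  · intro hcomp
    have h1 : (range r).card < S.card := by
      rw [card_range]
      omega
    obtain ⟨u, hu, v, hv, huv, h2⟩ := exists_ne_map_eq_of_card_lt_of_maps_to h1
      (f := fun v : Fin (m + 1 + r) => v.1 % r) (by
        intro v _
        simp only [coe_range, Set.mem_Iio]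
        exact Nat.mod_lt _ hr0)
    exact hcomp ⟨u, (hsurv u).2 hu⟩ ⟨v, (hsurv v).2 hv⟩ (fun h => huv (congrArg Subtype.val h)) h2

end Pool.Agent.Nbr
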