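import Pool.Agent.helper66.NbrDefs

/-!
# Robustness relative to a set of vertices; degree and independence lemmas
-/

set_option autoImplicit false

open Finset Classical

namespace Pool.Agent.Nbr

variable {V : Type*} [Fintype V] (G : SimpleGraph V)

/-- closed neighbourhood as a finset -/
noncomputable def cn (X : Finset V) : Finset V :=
  univ.filter (fun v => ∃ x ∈ X, v = x ∨ G.Adj x v)

lemma mem_cn {X : Finset V} {v : V} : v ∈ cn G X ↔ ∃ x ∈ X, v = x ∨ G.Adj x v := by
  simp [cn]

/-- `T` induces a connected and non-complete graph -/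
def Good (T : Finset V) : Prop :=
  (∀ A ⊆ T, A.Nonempty → A ≠ T → ∃ a ∈ A, ∃ b ∈ T \ A, G.Adj a b) ∧
    ∃ u ∈ T, ∃ v ∈ T, u ≠ v ∧ ¬ G.Adj u v

/-- robustness of the graph induced on `S` -/
def Rob (S : Finset V) (k m : ℕ) : Prop :=
  ∀ X Y : Finset V, X.card ≤ k → Y.card ≤ m → Good G ((S \ cn G X) \ Y)

variable {G}

lemma subset_cn (X : Finset V) : X ⊆ cn G X := by
  intro x hx
  exact (mem_cn G).2 ⟨x, hx, Or.inl rfl⟩

lemma cn_mono {X Y : Finset V} (h : X ⊆ Y) : cn G X ⊆ cn G Y := by
  intro v hv
  obtain ⟨x, hx, hxv⟩ := (mem_cn G).1 hv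
  exact (mem_cn G).2 ⟨x, h hx, hxv⟩

lemma cn_union (X Y : Finset V) : cn G (X ∪ Y) = cn G X ∪ cn G Y := by
  ext v
  simp only [mem_cn, mem_union]
  constructor
  · rintro ⟨x, hx | hx, h⟩
    · exact Or.inl ⟨x, hx, h⟩
    · exact Or.inr ⟨x, hx, h⟩
  · rintro (⟨x, hx, h⟩ | ⟨x, hx, h⟩)
    · exact ⟨x, Or.inl hx, h⟩
    · exact ⟨x, Or.inr hx, h⟩

lemma cn_insert (x : V) (X : Finset V) : cn G (insert x X) = cn G {x} ∪ cn G X := by
  rw [← cn_union]
  congr 1

lemma cn_empty : cn G (∅ : Finset V) = ∅ := by
  ext v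
  simp [mem_cn]

lemma mem_cn_singleton {x v : V} : v ∈ cn G {x} ↔ v = x ∨ G.Adj x v := by
  simp [mem_cn]

lemma Rob.mono {S : Finset V} {k m k' m' : ℕ} (h : Rob G S k m) (hk : k' ≤ k) (hm : m' ≤ m) :
    Rob G S k' m' := fun X Y hX hY => h X Y (hX.trans hk) (hY.trans hm)

lemma Rob.step {S : Finset V} {k m : ℕ} (h : Rob G S (k + 1) m) (x : V) :
    Rob G (S \ cn G {x}) k m := by
  intro X Y hX hY
  have h1 := h (insert x X) Y ((card_insert_le _ _).trans (by omega)) hY
  have h2 : S \ cn G (insert x X) = (S \ cn G {x}) \ cn G X := by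
    rw [cn_insert]
    ext v
    simp only [mem_sdiff, mem_union]
    tauto
  rwa [h2] at h1

/-- a vertex surviving the deletion of `N[X]` keeps more than `m` neighbours -/
lemma Rob.deg {S : Finset V} {k m : ℕ} (h : Rob G S k m) {X : Finset V} (hX : X.card ≤ k)
    {v : V} (hvS : v ∈ S) (hv : v ∉ cn G X) :
    m + 1 ≤ ((S \ cn G X).filter (fun w => G.Adj v w)).card := by
  by_contra hcon
  push Not at hcon
  set Y := (S \ cn G X).filter (fun w => G.Adj v w) with hY
  obtain ⟨h1, u, hu, w, hw, huw, hnadj⟩ := h X Y hX (by omega)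
  have hvY : v ∉ Y := by simp [hY]
  have hvT : v ∈ (S \ cn G X) \ Y := by simp [hvS, hv, hvY]
  by_cases hT : ({v} : Finset V) = (S \ cn G X) \ Y
  · rw [← hT] at hu hw
    rw [mem_singleton] at hu hw
    exact huw (hu.trans hw.symm)
  · obtain ⟨a, ha, b, hb, hab⟩ := h1 {v} (by simpa using hvT) (singleton_nonempty v) hT
    rw [mem_singleton] at ha
    subst ha
    rw [mem_sdiff, mem_sdiff] at hb
    apply hb.1.2
    rw [hY, mem_filter]
    exact ⟨hb.1.1, hab⟩

/-- independent sets of vertices -/
def Indep (G : SimpleGraph V) (I : Finset V) : Prop :=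
  ∀ u ∈ I, ∀ v ∈ I, u ≠ v → ¬ G.Adj u v

lemma indep_insert {I : Finset V} {u : V} (hI : Indep G I) (hu : u ∉ cn G I) :
    Indep G (insert u I) := by
  intro a ha b hb hab
  rw [mem_insert] at ha hb
  rcases ha with rfl | ha <;> rcases hb with rfl | hb
  · exact absurd rfl hab
  · intro hadj
    exact hu ((mem_cn G).2 ⟨b, hb, Or.inr hadj.symm⟩)
  · intro hadj
    exact hu ((mem_cn G).2 ⟨a, ha, Or.inr hadj⟩)
  · exact hI a ha b hb hab

/-- independent sets with at most `k` elements extend to independent sets with `k+2` elements -/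
lemma Rob.extend {S : Finset V} {k m : ℕ} (h : Rob G S k m) :
    ∀ (d : ℕ) (J : Finset V), J ⊆ S → Indep G J → J.card + d = k →
      ∃ I : Finset V, J ⊆ I ∧ I ⊆ S ∧ Indep G I ∧ I.card = k + 2 := by
  intro d
  induction d with
  | zero =>
    intro J hJS hJ hcard
    obtain ⟨_, u, hu, w, hw, huw, hnadj⟩ := h J ∅ (by omega) (by simp)
    rw [sdiff_empty, mem_sdiff] at hu hw
    have huJ : u ∉ J := fun h' => hu.2 (subset_cn J h')
    have hwJ : w ∉ J := fun h' => hw.2 (subset_cn J h')
    have h1 : Indep G (insert w J) := indep_insert hJ hw.2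
    have hucn : u ∉ cn G (insert w J) := by
      rw [cn_insert, mem_union, mem_cn_singleton]
      rintro ((h2 | h2) | h2)
      · exact huw h2
      · exact hnadj h2.symm
      · exact hu.2 h2
    have h2 : Indep G (insert u (insert w J)) := indep_insert h1 hucn
    refine ⟨insert u (insert w J), ?_, ?_, h2, ?_⟩
    · intro x hx
      simp [hx]
    · intro x hx
      rw [mem_insert, mem_insert] at hx
      rcases hx with rfl | rfl | hx
      · exact hu.1
      · exact hw.1
      · exact hJS hx
    · rw [card_insert_of_notMem, card_insert_of_notMem hwJ]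
      · omega
      · rw [mem_insert]
        rintro (h3 | h3)
        · exact huw h3
        · exact huJ h3
  | succ d ih =>
    intro J hJS hJ hcard
    obtain ⟨_, u, hu, _⟩ := h J ∅ (by omega) (by simp)
    rw [sdiff_empty, mem_sdiff] at hu
    have huJ : u ∉ J := fun h' => hu.2 (subset_cn J h')
    obtain ⟨I, hI1, hI2, hI3, hI4⟩ := ih (insert u J)
      (by
        intro x hx
        rw [mem_insert] at hx
        rcases hx with rfl | hx
        · exact hu.1
        · exact hJS hx) (indep_insert hJ hu.2)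
      (by rw [card_insert_of_notMem huJ]; omega)
    exact ⟨I, (subset_insert _ _).trans hI1, hI2, hI3, hI4⟩

lemma Rob.exists_indep {S : Finset V} {k m : ℕ} (h : Rob G S k m) (hk : 1 ≤ k) {v : V}
    (hv : v ∈ S) : ∃ I : Finset V, v ∈ I ∧ I ⊆ S ∧ Indep G I ∧ I.card = k + 2 := by
  obtain ⟨I, h1, h2, h3, h4⟩ := h.extend (k - 1) {v} (by simpa using hv)
    (by
      intro a ha b hb hab
      rw [mem_singleton] at ha hb
      exact absurd (ha.trans hb.symm) hab) (by simp; omega)
  exact ⟨I, h1 (mem_singleton_self v), h2, h3, h4⟩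

/-- every vertex has degree at least `k+m+1` -/
lemma Rob.min_deg {S : Finset V} {k m : ℕ} (h : Rob G S k m) {v : V} (hv : v ∈ S) :
    k + m + 1 ≤ (S.filter (fun w => G.Adj v w)).card := by
  have key : ∀ j ≤ k, ∃ X : Finset V, X.card ≤ j ∧ v ∉ cn G X ∧
      j ≤ ((S.filter (fun w => G.Adj v w)) ∩ cn G X).card := by
    intro j
    induction j with
    | zero =>
      intro _
      exact ⟨∅, by simp, by simp [cn_empty], by simp⟩
    | succ j ih =>
      intro hj
      obtain ⟨X, hX1, hX2, hX3⟩ := ih (by omega)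
      obtain ⟨_, u, hu, _⟩ := h (insert v X) ∅ ((card_insert_le _ _).trans (by omega)) (by simp)
      obtain ⟨hcon, _⟩ := h X ∅ (by omega) (by simp)
      rw [sdiff_empty] at hu hcon
      rw [mem_sdiff, cn_insert, mem_union] at hu
      push Not at hu
      set A := (S \ cn G X) ∩ cn G {v} with hA
      have hvA : v ∈ A := by
        rw [hA, mem_inter, mem_sdiff, mem_cn_singleton]
        exact ⟨⟨hv, hX2⟩, Or.inl rfl⟩
      have huA : u ∉ A := by
        rw [hA, mem_inter]
        rintro ⟨_, h2⟩
        exact hu.2.1 h2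
      obtain ⟨a, ha, x, hx, hax⟩ := hcon A inter_subset_left ⟨v, hvA⟩ (by
        intro h2
        apply huA
        rw [h2, mem_sdiff]
        exact ⟨hu.1, hu.2.2⟩)
      rw [mem_sdiff] at hx
      have hxv : x ∉ cn G {v} := by
        intro h2
        apply hx.2
        rw [hA, mem_inter]
        exact ⟨hx.1, h2⟩
      rw [hA, mem_inter, mem_cn_singleton] at ha
      have hav : a ≠ v := by
        rintro rfl
        exact hxv (mem_cn_singleton.2 (Or.inr hax))
      have hva : G.Adj v a := by
        rcases ha.2 with h2 | h2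
        · exact absurd h2 hav
        · exact h2
      rw [mem_sdiff] at ha
      refine ⟨insert x X, (card_insert_le _ _).trans (by omega), ?_, ?_⟩
      · rw [cn_insert, mem_union, mem_cn_singleton]
        rintro ((h2 | h2) | h2)
        · apply hxv
          rw [mem_cn_singleton]
          exact Or.inl h2.symm
        · apply hxv
          rw [mem_cn_singleton]
          exact Or.inr h2.symm
        · exact hX2 h2
      · have hlt : ((S.filter (fun w => G.Adj v w)) ∩ cn G X).card <
            ((S.filter (fun w => G.Adj v w)) ∩ cn G (insert x X)).card := by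
          apply card_lt_card
          rw [Finset.ssubset_iff_of_subset]
          · refine ⟨a, ?_, ?_⟩
            · rw [mem_inter, mem_filter, cn_insert, mem_union, mem_cn_singleton]
              exact ⟨⟨ha.1.1, hva⟩, Or.inl (Or.inr hax.symm)⟩
            · rw [mem_inter]
              rintro ⟨_, h2⟩
              exact ha.1.2 h2
          · exact inter_subset_inter_left (cn_mono (subset_insert _ _))
        omega
  obtain ⟨X, hX1, hX2, hX3⟩ := key k le_rfl
  have h1 := h.deg hX1 hv hX2
  have h2 : (S \ cn G X).filter (fun w => G.Adj v w) =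
      (S.filter (fun w => G.Adj v w)) \ cn G X := by
    ext w
    simp only [mem_filter, mem_sdiff]
    tauto
  rw [h2] at h1
  have h3 := card_sdiff_add_card_inter (S.filter (fun w => G.Adj v w)) (cn G X)
  omega

/-- size of a closed neighbourhood inside `S` -/
lemma card_inter_cn_singleton {S : Finset V} {v : V} (hv : v ∈ S) :
    (S ∩ cn G {v}).card = (S.filter (fun w => G.Adj v w)).card + 1 := by
  have h1 : S ∩ cn G {v} = insert v (S.filter (fun w => G.Adj v w)) := by
    ext w
    rw [mem_inter, mem_cn_singleton, mem_insert, mem_filter]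
    constructor
    · rintro ⟨h1, h2 | h2⟩
      · exact Or.inl h2
      · exact Or.inr ⟨h1, h2⟩
    · rintro (h1 | ⟨h1, h2⟩)
      · subst h1
        exact ⟨hv, Or.inl rfl⟩
      · exact ⟨h1, Or.inr h2⟩
  rw [h1, card_insert_of_notMem (by simp)]

lemma card_step {S : Finset V} {v : V} (hv : v ∈ S) :
    S.card = (S \ cn G {v}).card + (S.filter (fun w => G.Adj v w)).card + 1 := by
  have h1 := card_sdiff_add_card_inter S (cn G {v})
  rw [card_inter_cn_singleton hv] at h1
  omega

end Pool.Agent.Nbr
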