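import Pool.Agent.helper66.NbrCore

/-!
# Counting bounds from independent sets
-/

set_option autoImplicit false

open Finset Classical

namespace Pool.Agent.Nbr

variable {V : Type*} [Fintype V] {G : SimpleGraph V}

/-- a robust graph with an independent set of size `k+1+j`, `1 ≤ j ≤ k`, has many vertices -/
lemma Rob.cyclic {S : Finset V} {k m j : ℕ} (h : Rob G S k m) (hj1 : 1 ≤ j) (hjk : j ≤ k)
    {I : Finset V} (hIS : I ⊆ S) (hI : Indep G I) (hcard : I.card = k + 1 + j) :
    (k + 1 + j) * (m + 2) ≤ S.card := by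
  have : NeZero (k + 1 + j) := ⟨by omega⟩
  obtain ⟨e⟩ : Nonempty (ZMod (k + 1 + j) ≃ I) := by
    refine ⟨Fintype.equivOfCardEq ?_⟩
    rw [ZMod.card, Fintype.card_coe, hcard]
  set y : ZMod (k + 1 + j) → V := fun i => (e i : V) with hy
  have hyinj : Function.Injective y := by
    intro a b hab
    exact e.injective (Subtype.ext hab)
  have hyI : ∀ i, y i ∈ I := fun i => (e i).2
  set T : ZMod (k + 1 + j) → Finset V := fun i =>
    S.filter (fun v => G.Adj (y i) v ∧ ∀ l, G.Adj (y l) v → ∃ t ≤ j, l = i + (t : ZMod (k + 1 + j)))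
    with hT
  have hTcard : ∀ i, m + 1 ≤ (T i).card := by
    intro i
    set W : Finset (ZMod (k + 1 + j)) :=
      (range (j + 1)).image (fun t : ℕ => i + (t : ZMod (k + 1 + j))) with hW
    have hWcard : W.card = j + 1 := by
      rw [hW, card_image_of_injOn, card_range]
      intro a ha b hb hab
      simp only [coe_range, Set.mem_Iio] at ha hb
      have h1 : (a : ZMod (k + 1 + j)) = (b : ZMod (k + 1 + j)) := add_left_cancel hab
      rw [ZMod.natCast_eq_natCast_iff'] at h1
      rwa [Nat.mod_eq_of_lt (by omega), Nat.mod_eq_of_lt (by omega)] at h1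
    set X : Finset V := (univ \ W).image y with hX
    have hXcard : X.card ≤ k := by
      refine card_image_le.trans ?_
      rw [card_sdiff_of_subset (subset_univ _), hWcard, card_univ, ZMod.card]
      omega
    have hyi : y i ∉ cn G X := by
      rw [mem_cn]
      rintro ⟨x, hx, h2⟩
      rw [hX, mem_image] at hx
      obtain ⟨l, hl, rfl⟩ := hx
      rw [mem_sdiff] at hl
      have hli : l ≠ i := by
        rintro rfl
        apply hl.2
        rw [hW, mem_image]
        exact ⟨0, by simp, by simp⟩
      rcases h2 with h2 | h2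
      · exact hli (hyinj h2.symm)
      · exact hI _ (hyI l) _ (hyI i) (fun h3 => hli (hyinj h3)) h2
    refine (h.deg hXcard (hIS (hyI i)) hyi).trans (card_le_card ?_)
    intro v hv
    rw [mem_filter, mem_sdiff] at hv
    rw [hT]
    simp only [mem_filter]
    refine ⟨hv.1.1, hv.2, ?_⟩
    intro l hl
    by_contra hcon
    apply hv.1.2
    rw [mem_cn]
    refine ⟨y l, ?_, Or.inr hl⟩
    rw [hX]
    refine mem_image_of_mem _ ?_
    rw [mem_sdiff]
    refine ⟨mem_univ _, ?_⟩
    rw [hW, mem_image]
    rintro ⟨t, ht, htl⟩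
    rw [mem_range] at ht
    exact hcon ⟨t, by omega, htl.symm⟩
  have hdisj : ∀ i i', i ≠ i' → Disjoint (T i) (T i') := by
    intro i i' hii
    rw [disjoint_left]
    intro v hv hv'
    rw [hT] at hv hv'
    simp only [mem_filter] at hv hv'
    obtain ⟨t, ht, h1⟩ := hv.2.2 i' hv'.2.1
    obtain ⟨t', ht', h2⟩ := hv'.2.2 i hv.2.1
    have h3 : ((t + t' : ℕ) : ZMod (k + 1 + j)) = 0 := by
      have : i + ((t + t' : ℕ) : ZMod (k + 1 + j)) = i + 0 := by
        conv_rhs => rw [add_zero, h2, h1]
        push_cast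
        ring
      exact add_left_cancel this
    rw [ZMod.natCast_eq_zero_iff] at h3
    have h4 : t + t' = 0 := by
      refine Nat.eq_zero_of_dvd_of_lt h3 ?_
      omega
    have h5 : t = 0 := by omega
    subst h5
    apply hii
    rw [h1]
    simp
  have hTI : ∀ i, Disjoint I (T i) := by
    intro i
    rw [disjoint_left]
    intro v hvI hv
    rw [hT] at hv
    simp only [mem_filter] at hv
    exact hI _ (hyI i) _ hvI (fun h1 => by
      have := hv.2.1
      rw [← h1] at this
      exact G.irrefl this) hv.2.1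
  have hsub : I ∪ univ.biUnion T ⊆ S := by
    intro v hv
    rw [mem_union, mem_biUnion] at hv
    rcases hv with hv | ⟨i, _, hv⟩
    · exact hIS hv
    · rw [hT] at hv
      simp only [mem_filter] at hv
      exact hv.1
  refine le_trans ?_ (card_le_card hsub)
  rw [card_union_of_disjoint, card_biUnion]
  · rw [hcard]
    have h1 : (k + 1 + j) * (m + 1) ≤ ∑ i, (T i).card := by
      calc (k + 1 + j) * (m + 1) = ∑ _i : ZMod (k + 1 + j), (m + 1) := by
            rw [sum_const, card_univ, ZMod.card, smul_eq_mul]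
        _ ≤ ∑ i, (T i).card := sum_le_sum (fun i _ => hTcard i)
    nlinarith
  · intro i _ i' _ hii
    exact hdisj i i' hii
  · rw [disjoint_biUnion_right]
    intro i _
    exact hTI i

/-- `p(1,m) ≥ 3(m+2)` and more generally `p(k,m) ≥ (k+2)(m+2)` -/
lemma Rob.basic {S : Finset V} {k m : ℕ} (h : Rob G S k m) (hk : 1 ≤ k) :
    (k + 2) * (m + 2) ≤ S.card := by
  obtain ⟨_, u, hu, _⟩ := h ∅ ∅ (by simp) (by simp)
  rw [sdiff_empty, mem_sdiff] at hu
  obtain ⟨I, _, hI1, hI2, hI3⟩ := h.exists_indep hk hu.1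
  exact h.cyclic (j := 1) le_rfl hk hI1 hI2 hI3

/-- the lower bound valid for all parameters -/
lemma Rob.general : ∀ (k : ℕ) {S : Finset V} {m : ℕ}, Rob G S (k + 1) m →
    (k + 3) * (2 * m + k + 4) ≤ 2 * S.card := by
  intro k
  induction k with
  | zero =>
    intro S m h
    have := h.basic le_rfl
    nlinarith
  | succ k ih =>
    intro S m h
    obtain ⟨_, u, hu, _⟩ := h ∅ ∅ (by simp) (by simp)
    rw [sdiff_empty, mem_sdiff] at hu
    have h1 := ih (h.step u)
    have h2 := h.min_deg hu.1
    have h3 := card_step (G := G) hu.1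
    nlinarith

end Pool.Agent.Nbr
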