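import Mathlib

/-!
# Graphs surviving mixed neighbourhood and vertex deletions: definitions
-/

set_option autoImplicit false

namespace Pool.Agent.Nbr

/-- The closed neighbourhood `N[X]` of a finite set `X` of vertices of `G`: all members of `X` and
all vertices adjacent to a member of `X`. -/
def closedNbhd {V : Type*} (G : SimpleGraph V) (X : Finset V) : Set V :=
  {v | ∃ x ∈ X, v = x ∨ G.Adj x v}

/-- The set of vertices of `G - (N[X] ∪ Y)`. -/
def survivors {V : Type*} (G : SimpleGraph V) (X Y : Finset V) : Set V :=
  {v | v ∉ closedNbhd G X ∧ v ∉ Y}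

/-- `G` is complete: any two distinct vertices are adjacent. -/
def IsCompleteGraph {V : Type*} (G : SimpleGraph V) : Prop :=
  ∀ u v : V, u ≠ v → G.Adj u v

/-- `G` is `(k,m)`-robust: for all sets `X`, `Y` of vertices with at most `k` and `m` elements the
graph `G - (N[X] ∪ Y)` is connected and not complete. (`SimpleGraph.Connected` includes that the
graph is non-empty.) -/
def IsRobust {V : Type*} (G : SimpleGraph V) (k m : ℕ) : Prop :=
  ∀ X Y : Finset V, X.card ≤ k → Y.card ≤ m →
    (G.induce (survivors G X Y)).Connected ∧
      ¬ IsCompleteGraph (G.induce (survivors G X Y))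

/-- `p k m` is the least number of vertices of a (finite simple) `(k,m)`-robust graph. -/
noncomputable def p (k m : ℕ) : ℕ :=
  sInf {n : ℕ | ∃ (V : Type) (_ : Fintype V) (G : SimpleGraph V),
    Fintype.card V = n ∧ IsRobust G k m}

end Pool.Agent.Nbr
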