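import Pool.Agent.helper66.NbrConstr

/-!
# Values of `p(k,m)`
-/

set_option autoImplicit false

open Finset Classical

namespace Pool.Agent.Nbr

lemma good_of_connected {V : Type*} [Fintype V] {G : SimpleGraph V} {T : Set V} {F : Finset V}
    (hFT : ∀ v, v ∈ F ↔ v ∈ T) (h1 : (G.induce T).Connected)
    (h2 : ¬ IsCompleteGraph (G.induce T)) : Good G F := by
  refine ⟨?_, ?_⟩
  · intro A hAF hA hne
    by_contra hcon
    push Not at hcon
    obtain ⟨a, ha⟩ := hA
    have h3 : ∃ b ∈ F, b ∉ A := by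
      by_contra h4
      push Not at h4
      exact hne (Subset.antisymm hAF h4)
    obtain ⟨b, hb, hbA⟩ := h3
    have hreach : (G.induce T).Reachable ⟨a, (hFT a).1 (hAF ha)⟩ ⟨b, (hFT b).1 hb⟩ :=
      h1.preconnected _ _
    rw [SimpleGraph.reachable_iff_reflTransGen] at hreach
    have key : ∀ y : T, Relation.ReflTransGen (G.induce T).Adj ⟨a, (hFT a).1 (hAF ha)⟩ y →
        y.1 ∈ A := by
      intro y hy
      induction hy with
      | refl => exact ha
      | tail _ hbc ih =>
        rename_i x y _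
        by_contra hyA
        exact hcon x.1 ih y.1 (by
          rw [mem_sdiff]
          exact ⟨(hFT y.1).2 y.2, hyA⟩) hbc
    exact hbA (key _ hreach)
  · unfold IsCompleteGraph at h2
    push Not at h2
    obtain ⟨u, v, huv, hnadj⟩ := h2
    exact ⟨u.1, (hFT _).2 u.2, v.1, (hFT _).2 v.2, fun h => huv (Subtype.ext h), hnadj⟩

lemma IsRobust.rob {V : Type*} [Fintype V] {G : SimpleGraph V} {k m : ℕ}
    (h : IsRobust G k m) : Rob G univ k m := by
  intro X Y hX hY
  obtain ⟨h1, h2⟩ := h X Y hX hY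
  refine good_of_connected (T := survivors G X Y) ?_ h1 h2
  intro v
  rw [mem_sdiff, mem_sdiff, mem_cn]
  constructor
  · rintro ⟨⟨_, h3⟩, h4⟩
    exact ⟨h3, h4⟩
  · rintro ⟨h3, h4⟩
    exact ⟨⟨mem_univ _, h3⟩, h4⟩

/-- the lower bound for `k = 0` -/
lemma Rob.zero_lower {V : Type*} [Fintype V] {G : SimpleGraph V} {m : ℕ}
    (h : Rob G univ 0 m) : ∃ r, Fintype.card V = m + 1 + r ∧ m + 1 ≤ r * (r - 1) := by
  obtain ⟨_, u, hu, _⟩ := h ∅ ∅ (by simp) (by simp)
  have hmin : ∀ v : V, m + 1 ≤ (univ.filter (fun w => G.Adj v w)).card := by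
    intro v
    have := h.min_deg (mem_univ v)
    omega
  have hn : m + 2 ≤ Fintype.card V := by
    have h1 := hmin u
    have h2 := card_step (G := G) (mem_univ u)
    rw [card_univ] at h2
    omega
  obtain ⟨r, hr⟩ : ∃ r, Fintype.card V = m + 1 + r := ⟨Fintype.card V - (m + 1), by omega⟩
  refine ⟨r, hr, ?_⟩
  have hr1 : 1 ≤ r := by omega
  -- cliques are small
  have hclique : ∀ K : Finset V, (∀ a ∈ K, ∀ b ∈ K, a ≠ b → G.Adj a b) → K.card ≤ r := by
    intro K hK
    by_contra hcon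
    push Not at hcon
    have hY : (univ \ K : Finset V).card ≤ m := by
      rw [card_sdiff_of_subset (subset_univ _), card_univ]
      omega
    obtain ⟨_, a, ha, b, hb, hab, hnadj⟩ := h ∅ (univ \ K) (by simp) hY
    rw [cn_empty, sdiff_empty, mem_sdiff, mem_sdiff] at ha hb
    apply hnadj
    apply hK a _ b _ hab
    · by_contra h3
      exact ha.2 ⟨mem_univ _, h3⟩
    · by_contra h3
      exact hb.2 ⟨mem_univ _, h3⟩
  -- a maximal clique
  obtain ⟨K, hK, hKmax⟩ := exists_max_image
    ((univ : Finset (Finset V)).filter (fun K => ∀ a ∈ K, ∀ b ∈ K, a ≠ b → G.Adj a b))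
    (fun K => K.card) ⟨∅, by simp⟩
  rw [mem_filter] at hK
  have hcover : (univ : Finset V) ⊆ K.biUnion (fun x => univ.filter (fun w => ¬ G.Adj x w)) := by
    intro v _
    rw [mem_biUnion]
    by_contra hcon
    push Not at hcon
    have h1 : ∀ x ∈ K, G.Adj x v := by
      intro x hx
      have := hcon x hx
      rw [mem_filter] at this
      push Not at this
      exact this (mem_univ _)
    have hvK : v ∉ K := fun h2 => G.irrefl (h1 v h2)
    have h2 := hKmax (insert v K) (by
      rw [mem_filter]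
      refine ⟨mem_univ _, ?_⟩
      intro a ha b hb hab
      rw [mem_insert] at ha hb
      rcases ha with rfl | ha <;> rcases hb with rfl | hb
      · exact absurd rfl hab
      · exact (h1 b hb).symm
      · exact h1 a ha
      · exact hK.2 a ha b hb hab)
    rw [card_insert_of_notMem hvK] at h2
    omega
  have hnon : ∀ x : V, (univ.filter (fun w => ¬ G.Adj x w)).card ≤ r := by
    intro x
    have h1 : (univ.filter (fun w => G.Adj x w)).card +
        (univ.filter (fun w => ¬ G.Adj x w)).card = (univ : Finset V).card :=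
      card_filter_add_card_filter_not _
    rw [card_univ] at h1
    have h2 := hmin x
    omega
  have hsq : m + 1 + r ≤ r * r := by
    have h1 := (card_le_card hcover).trans card_biUnion_le
    rw [card_univ, hr] at h1
    calc m + 1 + r ≤ ∑ x ∈ K, (univ.filter (fun w => ¬ G.Adj x w)).card := h1
      _ ≤ ∑ _x ∈ K, r := sum_le_sum (fun x _ => hnon x)
      _ = K.card * r := by rw [sum_const, smul_eq_mul]
      _ ≤ r * r := Nat.mul_le_mul_right r (hclique K hK.2)
  have h1 : r * (r - 1) + r = r * r := by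
    rw [Nat.mul_sub, mul_one]
    have : r ≤ r * r := Nat.le_mul_of_pos_left r hr1
    omega
  omega

lemma p_le {k m n : ℕ} {V : Type} [Fintype V] {G : SimpleGraph V} (hn : Fintype.card V = n)
    (h : IsRobust G k m) : p k m ≤ n :=
  Nat.sInf_le ⟨V, inferInstance, G, hn, h⟩

lemma exists_robust (k m : ℕ) : ∃ (V : Type) (_ : Fintype V) (G : SimpleGraph V),
    IsRobust G k m := by
  refine ⟨_, inferInstance, rook (k + 2) (k + (m + 1) + 1), ?_⟩
  intro X Y hX hY
  exact rook_robust k (m + 1) (by omega) X Y hX (by omega)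

lemma p_mem (k m : ℕ) : ∃ (V : Type) (_ : Fintype V) (G : SimpleGraph V),
    Fintype.card V = p k m ∧ IsRobust G k m := by
  have h1 : {n : ℕ | ∃ (V : Type) (_ : Fintype V) (G : SimpleGraph V),
      Fintype.card V = n ∧ IsRobust G k m}.Nonempty := by
    obtain ⟨V, hV, G, h⟩ := exists_robust k m
    exact ⟨_, V, hV, G, rfl, h⟩
  exact Nat.sInf_mem h1

/-- upper bound for `k ≥ 1` -/
lemma p_upper (k m : ℕ) (hk : 1 ≤ k) : p k m ≤ (k + 2) * (k + m + 1) := by
  rcases Nat.eq_zero_or_pos m with hm | hm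
  · subst hm
    refine p_le ?_ (inflated_robust k hk)
    rw [inflated_card]
    rfl
  · refine p_le ?_ (rook_robust k m hm)
    rw [Fintype.card_prod, Fintype.card_fin, Fintype.card_fin]

lemma p_zero (m : ℕ) : p 0 m = m + 1 + sInf {r : ℕ | m + 1 ≤ r * (r - 1)} := by
  apply le_antisymm
  · have h1 : {r : ℕ | m + 1 ≤ r * (r - 1)}.Nonempty :=
      ⟨m + 2, by
        change m + 1 ≤ (m + 2) * (m + 2 - 1)
        have h2 : m + 2 - 1 = m + 1 := rfl
        rw [h2]
        nlinarith⟩
    have h2 := Nat.sInf_mem h1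
    exact p_le (Fintype.card_fin _) (resGraph_robust m _ h2)
  · obtain ⟨V, hV, G, hcard, h⟩ := p_mem 0 m
    obtain ⟨r, hr, hr2⟩ := h.rob.zero_lower
    rw [← hcard, hr]
    have : sInf {r : ℕ | m + 1 ≤ r * (r - 1)} ≤ r := Nat.sInf_le hr2
    omega

lemma p_lower_main (k m : ℕ) (hk : 1 ≤ k) (hm : k = 1 ∨ 4 * k ≤ m) :
    (k + 2) * (k + m + 1) ≤ p k m := by
  obtain ⟨V, hV, G, hcard, h⟩ := p_mem k m
  obtain ⟨l, rfl⟩ : ∃ l, k = l + 1 := ⟨k - 1, by omega⟩
  have h1 := Rob.lower l h.rob (by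
    rcases hm with hm | hm
    · left
      omega
    · right
      exact hm)
  rw [card_univ, hcard] at h1
  nlinarith

lemma p_lower_general (k m : ℕ) (hk : 1 ≤ k) :
    (k + 2) * (k + 2 * m + 3) ≤ 2 * p k m := by
  obtain ⟨V, hV, G, hcard, h⟩ := p_mem k m
  obtain ⟨l, rfl⟩ : ∃ l, k = l + 1 := ⟨k - 1, by omega⟩
  have h1 := Rob.general l h.rob
  rw [card_univ, hcard] at h1
  nlinarith

/-- The value of `p(k,m)` whenever `k = 1` or `m ≥ 4k` (in particular for `k = 0` and all `m`). -/
theorem exact_region (k m : ℕ) (h : k = 1 ∨ 4 * k ≤ m) :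
    p k m = if k = 0 then m + 1 + sInf {r : ℕ | m + 1 ≤ r * (r - 1)}
      else (k + 2) * (k + m + 1) := by
  by_cases hk : k = 0
  · subst hk
    rw [if_pos rfl]
    exact p_zero m
  · rw [if_neg hk]
    exact le_antisymm (p_upper k m (by omega)) (p_lower_main k m (by omega) h)

/-- Bounds for `p(k,m)` that differ by a factor less than `2`. -/
theorem two_sided (k m : ℕ) (hk : 1 ≤ k) :
    (k + 2) * (k + 2 * m + 3) ≤ 2 * p k m ∧ p k m ≤ (k + 2) * (k + m + 1) :=
  ⟨p_lower_general k m hk, p_upper k m hk⟩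

end Pool.Agent.Nbr
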