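import Pool.Agent.helper66.NbrStruct

/-!
# The lower bound `(k+2)(k+m+1)` for `m ≥ 4k`
-/

set_option autoImplicit false

open Finset Classical

namespace Pool.Agent.Nbr

variable {V : Type*} [Fintype V] {G : SimpleGraph V}

/-- A robust graph in which all degrees are at most `m+2k` has at least `(k+2)(k+m+1)` vertices,
provided `m ≥ 4k`. -/
theorem Rob.small_degree {S : Finset V} {k m : ℕ} (h : Rob G S k m) (hk : 2 ≤ k)
    (hm : 4 * k ≤ m)
    (hdeg : ∀ v ∈ S, (S.filter (fun w => G.Adj v w)).card ≤ m + 2 * k) :
    (k + 2) * (k + m + 1) ≤ S.card := by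
  by_contra hcon
  push Not at hcon
  -- a maximum independent set
  obtain ⟨J, hJ0, hJmax⟩ := exists_max_image (S.powerset.filter (fun I => Indep G I))
    (fun I => I.card) ⟨∅, by simp [Indep]⟩
  rw [mem_filter, mem_powerset] at hJ0
  obtain ⟨hJS, hJ⟩ := hJ0
  have hmax : ∀ I ⊆ S, Indep G I → I.card ≤ J.card := by
    intro I hIS hI
    exact hJmax I (by rw [mem_filter, mem_powerset]; exact ⟨hIS, hI⟩)
  have hJ2 : k + 2 ≤ J.card := by
    obtain ⟨_, u, hu, _⟩ := h ∅ ∅ (by simp) (by simp)
    rw [sdiff_empty, mem_sdiff] at hu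
    obtain ⟨I, _, h1, h2, h3⟩ := h.exists_indep (by omega) hu.1
    rw [← h3]
    exact hmax I h1 h2
  have hJle : J.card ≤ 2 * k := by
    by_contra h1
    push Not at h1
    obtain ⟨J', hJ', hJ'card⟩ := exists_subset_card_eq (s := J) (n := k + 1 + k) (by omega)
    have h2 := h.cyclic (j := k) (by omega) le_rfl (hJ'.trans hJS)
      (fun u hu v hv huv => hJ u (hJ' hu) v (hJ' hv) huv) hJ'card
    nlinarith
  obtain ⟨b, hb⟩ : ∃ b, J.card = k + 1 + b := ⟨J.card - (k + 1), by omega⟩
  have hb1 : 1 ≤ b := by omega
  have hbk : b + 1 ≤ k := by omega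
  have hb4 : 4 * b ≤ k + 4 := by
    have h2 := h.cyclic (j := b) hb1 (by omega) hJS hJ hb
    by_contra h3
    push Not at h3
    obtain ⟨c, rfl⟩ : ∃ c, b = c + 1 := ⟨b - 1, by omega⟩
    nlinarith
  -- domination by J
  have hdom : ∀ v ∈ S, ∃ y ∈ J, v ∈ cn G {y} := by
    intro v hv
    by_contra h1
    push Not at h1
    have h2 : v ∉ cn G J := by
      intro h3
      obtain ⟨x, hx, h4⟩ := (mem_cn G).1 h3
      exact h1 x hx (mem_cn_singleton.2 h4)
    have h3 : v ∉ J := fun h4 => h2 (subset_cn J h4)
    have h4 := hmax (insert v J) (by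
      intro x hx
      rw [mem_insert] at hx
      rcases hx with rfl | hx
      · exact hv
      · exact hJS hx) (indep_insert hJ h2)
    rw [card_insert_of_notMem h3] at h4
    omega
  have howncard : ∀ y ∈ J, m + 2 ≤ (own G S J y).card + b := fun y hy =>
    h.own_large (by omega) hdeg hJS hJ hb hy
  have hownS : ∀ y, own G S J y ⊆ S := fun y => filter_subset _ _
  have hyown : ∀ y ∈ J, y ∈ own G S J y := by
    intro y hy
    rw [own, mem_filter]
    refine ⟨hJS hy, by rw [mem_cn_singleton]; exact Or.inl rfl, ?_⟩
    intro z hz hyz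
    by_contra h4
    rw [mem_cn_singleton] at hyz
    rcases hyz with h5 | h5
    · exact h4 h5.symm
    · exact hJ z hz y hy h4 h5
  have hownmem : ∀ y v, v ∈ own G S J y →
      v ∈ S ∧ v ∈ cn G {y} ∧ ∀ z ∈ J, v ∈ cn G {z} → z = y := by
    intro y v hv
    rw [own, mem_filter] at hv
    exact hv
  have hownclique : ∀ y ∈ J, ∀ u ∈ own G S J y, ∀ v ∈ own G S J y, u ≠ v → G.Adj u v := by
    intro y hy u hu v hv huv
    by_contra hnadj
    obtain ⟨hu1, hu2, hu3⟩ := hownmem y u hu
    obtain ⟨hv1, hv2, hv3⟩ := hownmem y v hv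
    have huy : u ≠ y := by
      rintro rfl
      rw [mem_cn_singleton] at hv2
      rcases hv2 with h1 | h1
      · exact huv h1.symm
      · exact hnadj h1
    have hvy : v ≠ y := by
      rintro rfl
      rw [mem_cn_singleton] at hu2
      rcases hu2 with h1 | h1
      · exact huv h1
      · exact hnadj h1.symm
    have hJ' : Indep G (J.erase y) := by
      intro a ha c hc hac
      rw [mem_erase] at ha hc
      exact hJ a ha.2 c hc.2 hac
    have hucn : u ∉ cn G (J.erase y) := by
      intro h1
      obtain ⟨x, hx, h2⟩ := (mem_cn G).1 h1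
      rw [mem_erase] at hx
      exact hx.1 (hu3 x hx.2 (mem_cn_singleton.2 h2))
    have hvcn : v ∉ cn G (J.erase y) := by
      intro h1
      obtain ⟨x, hx, h2⟩ := (mem_cn G).1 h1
      rw [mem_erase] at hx
      exact hx.1 (hv3 x hx.2 (mem_cn_singleton.2 h2))
    have hvcn2 : v ∉ cn G (insert u (J.erase y)) := by
      rw [cn_insert, mem_union, mem_cn_singleton]
      rintro ((h1 | h1) | h1)
      · exact huv h1.symm
      · exact hnadj h1
      · exact hvcn h1
    have h1 := hmax (insert v (insert u (J.erase y))) (by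
      intro x hx
      rw [mem_insert, mem_insert, mem_erase] at hx
      rcases hx with rfl | rfl | hx
      · exact hv1
      · exact hu1
      · exact hJS hx.2) (indep_insert (indep_insert hJ' hucn) hvcn2)
    rw [card_insert_of_notMem (fun h2 => hvcn2 (subset_cn _ h2)),
      card_insert_of_notMem (fun h2 => hucn (subset_cn _ h2)), card_erase_of_mem hy] at h1
    omega
  -- every vertex is completely joined to some `own y`
  have hkappa : ∀ v ∈ S, ∃ y ∈ J, own G S J y ⊆ cn G {v} := by
    intro v hv
    by_contra h1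
    push Not at h1
    have hnot : ∀ y ∈ J, ∃ u ∈ own G S J y, u ∉ cn G {v} := by
      intro y hy
      exact not_subset.1 (h1 y hy)
    have key : ∀ L : Finset V, L ⊆ J → ∃ I : Finset V, I ⊆ S ∧ Indep G I ∧
        I.card = L.card + 1 ∧ ∀ x ∈ I, ∀ y ∈ J \ L, ∃ u ∈ own G S J y, u ∉ cn G {x} := by
      intro L
      induction L using Finset.induction_on with
      | empty =>
        intro _
        refine ⟨{v}, by simpa using hv, ?_, by simp, ?_⟩
        · intro a ha c hc hac
          rw [mem_singleton] at ha hc
          exact absurd (ha.trans hc.symm) hac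
        · intro x hx y hy
          rw [mem_singleton] at hx
          subst hx
          exact hnot y (mem_sdiff.1 hy).1
      | insert y0 L hy0 ih =>
        intro hL
        obtain ⟨I, hIS, hI, hIcard, hInot⟩ := ih ((subset_insert _ _).trans hL)
        have hy0J : y0 ∈ J := hL (mem_insert_self _ _)
        have hLJ : L.card + 1 ≤ J.card := by
          have := card_le_card hL
          rwa [card_insert_of_notMem hy0] at this
        -- split I
        obtain ⟨I1, hI1, hI1card⟩ := exists_subset_card_eq (s := I) (n := min k I.card)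
          (min_le_right _ _)
        have hI2card : (I \ I1).card = I.card - min k I.card := by
          rw [card_sdiff_of_subset hI1, hI1card]
        have hnot0 : ∀ x ∈ I, ∃ u ∈ own G S J y0, u ∉ cn G {x} := fun x hx =>
          hInot x hx y0 (mem_sdiff.2 ⟨hy0J, hy0⟩)
        have hc0 := howncard y0 hy0J
        have hcov1 := h.cov (by omega) hdeg (hownS y0) (hownclique y0 hy0J) (by omega)
          (X := I1) (fun x hx => hnot0 x (hI1 hx)) (by rw [hI1card]; exact min_le_left _ _)
        have hcov2 := h.cov (by omega) hdeg (hownS y0) (hownclique y0 hy0J) (by omega)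
          (X := I \ I1) (fun x hx => hnot0 x (mem_sdiff.1 hx).1) (by rw [hI2card]; omega)
        have hcov : (own G S J y0 ∩ cn G I).card ≤
            (own G S J y0 ∩ cn G I1).card + (own G S J y0 ∩ cn G (I \ I1)).card := by
          refine le_trans (card_le_card ?_) (card_union_le _ _)
          rw [← inter_union_distrib_left, ← cn_union, union_sdiff_of_subset hI1]
        have hex : ∃ u ∈ own G S J y0, u ∉ cn G I := by
          by_contra h2
          push Not at h2
          have h3 : own G S J y0 ∩ cn G I = own G S J y0 := inter_eq_left.2 h2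
          rw [h3] at hcov
          rw [hI1card] at hcov1
          rw [hI2card] at hcov2
          omega
        obtain ⟨u, hu, huI⟩ := hex
        obtain ⟨hu1, hu2, hu3⟩ := hownmem y0 u hu
        refine ⟨insert u I, ?_, indep_insert hI huI, ?_, ?_⟩
        · intro x hx
          rw [mem_insert] at hx
          rcases hx with rfl | hx
          · exact hu1
          · exact hIS hx
        · rw [card_insert_of_notMem (fun h2 => huI (subset_cn _ h2)),
            card_insert_of_notMem hy0, hIcard]
        · intro x hx y hy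
          rw [mem_sdiff, mem_insert] at hy
          push Not at hy
          rw [mem_insert] at hx
          rcases hx with rfl | hx
          · refine ⟨y, hyown y hy.1, ?_⟩
            intro h2
            exact hy.2.1 (hu3 y hy.1 (mem_cn_symm.1 h2))
          · exact hInot x hx y (mem_sdiff.2 ⟨hy.1, hy.2.2⟩)
    obtain ⟨I, hIS, hI, hIcard, _⟩ := key J (Subset.refl J)
    have := hmax I hIS hI
    omega
  choose! κ hκJ hκ using hkappa
  -- the classes
  set A : V → Finset V := fun y => S.filter (fun v => κ v = y) with hA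
  have hAS : ∀ y, A y ⊆ S := fun y => filter_subset _ _
  have hmemA : ∀ y v, v ∈ A y ↔ v ∈ S ∧ κ v = y := by
    intro y v
    rw [hA, mem_filter]
  have hownA : ∀ y ∈ J, own G S J y ⊆ A y := by
    intro y hy v hv
    obtain ⟨hv1, _, hv3⟩ := hownmem y v hv
    rw [hmemA]
    refine ⟨hv1, ?_⟩
    apply hv3 (κ v) (hκJ v hv1)
    exact mem_cn_symm.1 (hκ v hv1 (hyown _ (hκJ v hv1)))
  have hAcard : ∀ y ∈ J, m + 2 ≤ (A y).card + b := by
    intro y hy
    have h1 := card_le_card (hownA y hy)
    have h2 := howncard y hy
    omega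
  have hAclique : ∀ y ∈ J, ∀ u ∈ A y, ∀ v ∈ A y, u ≠ v → G.Adj u v := by
    intro y hy u hu v hv huv
    by_contra hnadj
    rw [hmemA] at hu hv
    have hu2 := hκ u hu.1
    have hv2 := hκ v hv.1
    rw [hu.2] at hu2
    rw [hv.2] at hv2
    have hvu : v ∉ cn G {u} := by
      rw [mem_cn_singleton]
      rintro (h1 | h1)
      · exact huv h1.symm
      · exact hnadj h1
    have h1 := h.star hv.1 (hdeg v hv.1) (X := {u}) (by simp; omega) hvu
    have h2 : own G S J y ⊆ (S.filter (fun w => G.Adj v w)) ∩ cn G {u} := by
      intro x hx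
      rw [mem_inter, mem_filter]
      refine ⟨⟨hownS y hx, ?_⟩, hu2 hx⟩
      have h3 := hv2 hx
      rw [mem_cn_singleton] at h3
      rcases h3 with h3 | h3
      · exfalso
        rw [h3] at hx
        exact hvu (hu2 hx)
      · exact h3
    have h3 := card_le_card h2
    have h4 := howncard y hy
    rw [card_singleton] at h1
    omega
  -- vertices outside `A y` are not completely joined to `A y`
  have hAnot : ∀ y ∈ J, ∀ x ∈ S \ A y, ∃ v ∈ A y, v ∉ cn G {x} := by
    intro y hy x hx
    rw [mem_sdiff, hmemA] at hx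
    by_contra h1
    push Not at h1
    have hxy : κ x ≠ y := fun h2 => hx.2 ⟨hx.1, h2⟩
    have h2 : own G S J y ∪ own G S J (κ x) ⊆ S ∩ cn G {x} := by
      intro v hv
      rw [mem_union] at hv
      rw [mem_inter]
      rcases hv with hv | hv
      · exact ⟨hownS _ hv, h1 v (hownA y hy hv)⟩
      · exact ⟨hownS _ hv, hκ x hx.1 hv⟩
    have h3 : Disjoint (own G S J y) (own G S J (κ x)) := by
      rw [disjoint_left]
      intro v hv hv'
      obtain ⟨_, hv2, _⟩ := hownmem y v hv
      obtain ⟨_, _, hv3⟩ := hownmem (κ x) v hv'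
      exact hxy (hv3 y hy hv2).symm
    have h4 := card_le_card h2
    rw [card_union_of_disjoint h3, card_inter_cn_singleton hx.1] at h4
    have h5 := howncard y hy
    have h6 := howncard (κ x) (hκJ x hx.1)
    have h7 := hdeg x hx.1
    omega
  -- the main step
  have hmain : ∀ y ∈ J, k + m + 2 ≤ (A y).card := by
    intro y hy
    have hAy := hAcard y hy
    obtain ⟨X0, hX0, hX0card, hX0sat⟩ := exists_saturated (G := G) (S \ A y) (A y) k (by
      intro X hX hXk h2
      have h3 := h.cov (by omega) hdeg (hAS y) (hAclique y hy) (by omega)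
        (fun x hx => hAnot y hy x (hX hx)) hXk
      omega) (by omega)
    have hcov0 := h.cov (by omega) hdeg (hAS y) (hAclique y hy) (by omega)
        (fun x hx => hAnot y hy x (hX0 hx)) (by omega : X0.card ≤ k)
    set B : Finset V := A y \ cn G X0 with hB
    have hBcard : J.card ≤ B.card := by
      have h1 : B.card + (A y ∩ cn G X0).card = (A y).card := card_sdiff_add_card_inter _ _
      omega
    obtain ⟨w, hwB, hall⟩ := exists_hall B (J.erase y)
      (fun w l => ∃ z ∈ S, κ z = l ∧ G.Adj w z) (by
        rw [card_erase_of_mem hy]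
        omega)
    have hwA : w ∈ A y := (mem_sdiff.1 hwB).1
    have hwS : w ∈ S := hAS y hwA
    set L : Finset V := (J.erase y).filter (fun l => ∃ z ∈ S, κ z = l ∧ G.Adj w z) with hL
    -- a system of distinct representatives
    obtain ⟨f, hfinj, hf⟩ : ∃ f : {l // l ∈ L} → V, Function.Injective f ∧
        ∀ l, f l ∈ (B.filter (fun w' => ∃ z ∈ S, κ z = l.1 ∧ G.Adj w' z)).erase w := by
      apply (Finset.all_card_le_biUnion_card_iff_exists_injective
        (fun l : {l // l ∈ L} =>
          (B.filter (fun w' => ∃ z ∈ S, κ z = l.1 ∧ G.Adj w' z)).erase w)).1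
      intro s
      have h1 := hall (s.map (Function.Embedding.subtype _)) (by
        intro l hl
        have h2 : l ∈ L := by
          rw [mem_map] at hl
          obtain ⟨a, _, h3⟩ := hl
          rw [← h3]
          exact a.2
        rw [hL] at h2
        convert h2)
      rw [card_map] at h1
      refine h1.trans (card_le_card ?_)
      intro x hx
      rw [mem_biUnion] at hx ⊢
      obtain ⟨l, hl, hx⟩ := hx
      rw [mem_map] at hl
      obtain ⟨a, ha, rfl⟩ := hl
      exact ⟨a, ha, by simpa using hx⟩
    have hf1 : ∀ l, f l ∈ A y ∧ f l ∈ B ∧ f l ≠ w ∧ ∃ z ∈ S, κ z = l.1 ∧ G.Adj (f l) z := by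
      intro l
      have h1 := hf l
      rw [mem_erase, mem_filter] at h1
      exact ⟨(mem_sdiff.1 h1.2.1).1, h1.2.1, h1.1, h1.2.2⟩
    choose x hxS hxκ hfx using fun l => (hf1 l).2.2.2
    have hLmem : ∀ l, l ∈ L → l ∈ J ∧ l ≠ y ∧ ∃ z ∈ S, κ z = l ∧ G.Adj w z := by
      intro l hl
      rw [hL, mem_filter, mem_erase] at hl
      exact ⟨hl.1.2, hl.1.1, hl.2⟩
    choose! z hzS hzκ hwz using fun l hl => (hLmem l hl).2.2
    have hwx : ∀ l, w ∉ cn G {x l} := by
      intro l hwl
      have h1 := hX0sat (x l) (by
        rw [mem_sdiff, hmemA]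
        refine ⟨hxS l, ?_⟩
        rintro ⟨_, h2⟩
        rw [hxκ l] at h2
        exact (hLmem l.1 l.2).2.1 h2)
      have h2 : ({w, f l} : Finset V) ⊆ B ∩ cn G {x l} := by
        intro a ha
        rw [mem_insert, mem_singleton] at ha
        rw [mem_inter]
        rcases ha with rfl | rfl
        · exact ⟨hwB, hwl⟩
        · refine ⟨(hf1 l).2.1, ?_⟩
          rw [mem_cn_singleton]
          exact Or.inr (hfx l).symm
      have h3 := card_le_card h2
      rw [card_pair (hf1 l).2.2.1.symm] at h3
      omega
    -- attack with a set `P` of indices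
    have hattack : ∀ P : Finset {l // l ∈ L}, w ∉ cn G (P.image x) ∧ (P.image x).card = P.card ∧
        P.image f ⊆ (S.filter (fun u => G.Adj w u)) ∩ cn G (P.image x) ∩ A y ∧
        (P.image f).card = P.card ∧
        ∀ u ∈ S, G.Adj w u → (∃ l ∈ P, κ u = l.1) → u ∈ cn G (P.image x) := by
      intro P
      refine ⟨?_, ?_, ?_, ?_, ?_⟩
      · intro h1
        obtain ⟨a, ha, h2⟩ := (mem_cn G).1 h1
        rw [mem_image] at ha
        obtain ⟨l, _, rfl⟩ := ha
        exact hwx l (mem_cn_singleton.2 h2)
      · apply card_image_of_injective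
        intro l l' hll
        apply Subtype.ext
        rw [← hxκ l, ← hxκ l', hll]
      · intro a ha
        rw [mem_image] at ha
        obtain ⟨l, hl, rfl⟩ := ha
        rw [mem_inter, mem_inter, mem_filter]
        refine ⟨⟨⟨hAS y (hf1 l).1, ?_⟩, ?_⟩, (hf1 l).1⟩
        · exact hAclique y hy w hwA _ (hf1 l).1 (hf1 l).2.2.1.symm
        · rw [mem_cn]
          exact ⟨x l, mem_image_of_mem x hl, Or.inr (hfx l).symm⟩
      · exact card_image_of_injective _ hfinj
      · rintro u huS hwu ⟨l, hl, hul⟩
        rw [mem_cn]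
        refine ⟨x l, mem_image_of_mem x hl, ?_⟩
        by_cases h1 : u = x l
        · exact Or.inl h1
        · right
          refine hAclique l.1 (hLmem l.1 l.2).1 (x l) ?_ u ?_ (fun h2 => h1 h2.symm)
          · rw [hmemA]
            exact ⟨hxS l, hxκ l⟩
          · rw [hmemA]
            exact ⟨huS, hul⟩
    by_cases hLk : k ≤ L.card
    · -- many classes: contradiction
      exfalso
      obtain ⟨P, _, hPcard⟩ := exists_subset_card_eq (s := (univ : Finset {l // l ∈ L})) (n := k)
        (by rw [card_univ, Fintype.card_coe]; exact hLk)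
      obtain ⟨h1, h2, h3, h4, h5⟩ := hattack P
      have h6 := h.star hwS (hdeg w hwS) (X := P.image x) (by omega) h1
      have h7 : P.image f ∪ P.image (fun l => z l.1) ⊆
          (S.filter (fun u => G.Adj w u)) ∩ cn G (P.image x) := by
        intro a ha
        rw [mem_union] at ha
        rcases ha with ha | ha
        · exact (mem_inter.1 (h3 ha)).1
        · rw [mem_image] at ha
          obtain ⟨l, hl, rfl⟩ := ha
          rw [mem_inter, mem_filter]
          exact ⟨⟨hzS l.1 l.2, hwz l.1 l.2⟩,
            h5 _ (hzS l.1 l.2) (hwz l.1 l.2) ⟨l, hl, hzκ l.1 l.2⟩⟩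
      have h8 : Disjoint (P.image f) (P.image (fun l => z l.1)) := by
        rw [disjoint_left]
        intro a ha ha'
        have h9 := (mem_inter.1 (h3 ha)).2
        rw [mem_image] at ha'
        obtain ⟨l, _, rfl⟩ := ha'
        rw [hmemA, hzκ l.1 l.2] at h9
        exact (hLmem l.1 l.2).2.1 h9.2
      have h9 := card_le_card h7
      rw [card_union_of_disjoint h8, h4, card_image_of_injective, hPcard] at h9
      · omega
      · intro l l' hll
        apply Subtype.ext
        rw [← hzκ l.1 l.2, ← hzκ l'.1 l'.2]
        exact congrArg κ hll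
    · -- few classes
      push Not at hLk
      obtain ⟨h1, h2, h3, h4, h5⟩ := hattack univ
      have hcardL : (univ : Finset {l // l ∈ L}).card = L.card := by
        rw [card_univ, Fintype.card_coe]
      rw [hcardL] at h2 h4
      obtain ⟨X', hX'1, hX'2, hX'3⟩ := h.extend_kill hwS (k - L.card) (univ.image x)
        (by omega) h1
      have h6 := h.deg' (X := X') (by omega) hwS hX'2
      -- neighbours outside A y
      have h7 : univ.image f ∪ ((S.filter (fun u => G.Adj w u)) \ A y) ⊆
          (S.filter (fun u => G.Adj w u)) ∩ cn G (univ.image x) := by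
        intro a ha
        rw [mem_union] at ha
        rcases ha with ha | ha
        · exact (mem_inter.1 (h3 ha)).1
        · rw [mem_sdiff, mem_filter] at ha
          rw [mem_inter, mem_filter]
          refine ⟨ha.1, h5 a ha.1.1 ha.1.2 ?_⟩
          have h8 : κ a ∈ L := by
            rw [hL, mem_filter, mem_erase]
            refine ⟨⟨?_, hκJ a ha.1.1⟩, a, ha.1.1, rfl, ha.1.2⟩
            intro h9
            apply ha.2
            rw [hmemA]
            exact ⟨ha.1.1, h9⟩
          exact ⟨⟨κ a, h8⟩, mem_univ _, rfl⟩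
      have h8 : Disjoint (univ.image f) ((S.filter (fun u => G.Adj w u)) \ A y) := by
        rw [disjoint_left]
        intro a ha ha'
        exact (mem_sdiff.1 ha').2 (mem_inter.1 (h3 ha)).2
      have h9 := card_le_card h7
      rw [card_union_of_disjoint h8, h4] at h9
      have h10 : ((S.filter (fun u => G.Adj w u)) \ A y).card +
          ((S.filter (fun u => G.Adj w u)) ∩ A y).card = (S.filter (fun u => G.Adj w u)).card :=
        card_sdiff_add_card_inter _ _
      have h11 : (S.filter (fun u => G.Adj w u)) ∩ A y ⊆ (A y).erase w := by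
        intro a ha
        rw [mem_inter, mem_filter] at ha
        rw [mem_erase]
        refine ⟨?_, ha.2⟩
        rintro rfl
        exact G.irrefl ha.1.2
      have h12 := card_le_card h11
      rw [card_erase_of_mem hwA] at h12
      omega
  -- conclusion
  have hsum : S.card = ∑ y ∈ J, (A y).card := by
    have h1 : S.card = ∑ y ∈ J, (S.filter (fun v => κ v = y)).card :=
      card_eq_sum_card_fiberwise (fun v hv => hκJ v hv)
    exact h1
  have hge : J.card * (k + m + 2) ≤ S.card := by
    rw [hsum]
    calc J.card * (k + m + 2) = ∑ _y ∈ J, (k + m + 2) := by rw [sum_const, smul_eq_mul]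
      _ ≤ _ := sum_le_sum (fun y hy => hmain y hy)
  nlinarith

/-- the lower bound `(k+2)(k+m+1)` for `k = 1` or `m ≥ 4k` -/
theorem Rob.lower : ∀ (k : ℕ) {S : Finset V} {m : ℕ}, Rob G S (k + 1) m →
    (k = 0 ∨ 4 * (k + 1) ≤ m) → (k + 3) * (k + m + 2) ≤ S.card := by
  intro k
  induction k with
  | zero =>
    intro S m h _
    have := h.basic le_rfl
    nlinarith
  | succ k ih =>
    intro S m h hm
    have hm' : 4 * (k + 2) ≤ m := by
      rcases hm with hm | hm
      · omega
      · exact hm
    by_contra hcon
    push Not at hcon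
    have hdeg : ∀ v ∈ S, (S.filter (fun w => G.Adj v w)).card ≤ m + 2 * (k + 1 + 1) := by
      intro v hv
      have h1 := ih (h.step v) (Or.inr (by omega))
      have h2 := card_step (G := G) hv
      nlinarith
    have h1 := h.small_degree (by omega) (by omega) hdeg
    nlinarith

end Pool.Agent.Nbr
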