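import Pool.Agent.helper66.NbrCount

/-!
# Structure of robust graphs with small maximum degree
-/

set_option autoImplicit false

open Finset Classical

namespace Pool.Agent.Nbr

variable {V : Type*} [Fintype V] {G : SimpleGraph V}

/-- each further deleted closed neighbourhood can be chosen to hit a new neighbour of `v` -/
lemma Rob.extend_kill {S : Finset V} {k m : ℕ} (h : Rob G S k m) {v : V} (hv : v ∈ S) :
    ∀ (d : ℕ) (X : Finset V), X.card + d ≤ k → v ∉ cn G X →
      ∃ X' : Finset V, X'.card ≤ X.card + d ∧ v ∉ cn G X' ∧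
        ((S.filter (fun w => G.Adj v w)) ∩ cn G X).card + d ≤
          ((S.filter (fun w => G.Adj v w)) ∩ cn G X').card := by
  intro d
  induction d with
  | zero =>
    intro X _ hvX
    exact ⟨X, by simp, hvX, by simp⟩
  | succ d ih =>
    intro X0 hcard hvX0
    obtain ⟨X, hX1, hX2, hX3⟩ := ih X0 (by omega) hvX0
    obtain ⟨_, u, hu, _⟩ := h (insert v X) ∅ ((card_insert_le _ _).trans (by omega)) (by simp)
    obtain ⟨hcon, _⟩ := h X ∅ (by omega) (by simp)
    rw [sdiff_empty] at hu hcon
    rw [mem_sdiff, cn_insert, mem_union] at hu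
    push Not at hu
    set A := (S \ cn G X) ∩ cn G {v} with hA
    have hvA : v ∈ A := by
      rw [hA, mem_inter, mem_sdiff, mem_cn_singleton]
      exact ⟨⟨hv, hX2⟩, Or.inl rfl⟩
    have huA : u ∉ A := by
      rw [hA, mem_inter]
      rintro ⟨_, h2⟩
      exact hu.2.1 h2
    obtain ⟨a, ha, x, hx, hax⟩ := hcon A inter_subset_left ⟨v, hvA⟩ (by
      intro h2
      apply huA
      rw [h2, mem_sdiff]
      exact ⟨hu.1, hu.2.2⟩)
    rw [mem_sdiff] at hx
    have hxv : x ∉ cn G {v} := by
      intro h2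
      apply hx.2
      rw [hA, mem_inter]
      exact ⟨hx.1, h2⟩
    rw [hA, mem_inter, mem_cn_singleton] at ha
    have hav : a ≠ v := by
      rintro rfl
      exact hxv (mem_cn_singleton.2 (Or.inr hax))
    have hva : G.Adj v a := by
      rcases ha.2 with h2 | h2
      · exact absurd h2 hav
      · exact h2
    rw [mem_sdiff] at ha
    refine ⟨insert x X, (card_insert_le _ _).trans (by omega), ?_, ?_⟩
    · rw [cn_insert, mem_union, mem_cn_singleton]
      rintro ((h2 | h2) | h2)
      · apply hxv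
        rw [mem_cn_singleton]
        exact Or.inl h2.symm
      · apply hxv
        rw [mem_cn_singleton]
        exact Or.inr h2.symm
      · exact hX2 h2
    · have hlt : ((S.filter (fun w => G.Adj v w)) ∩ cn G X).card <
          ((S.filter (fun w => G.Adj v w)) ∩ cn G (insert x X)).card := by
        apply card_lt_card
        rw [Finset.ssubset_iff_of_subset]
        · refine ⟨a, ?_, ?_⟩
          · rw [mem_inter, mem_filter, cn_insert, mem_union, mem_cn_singleton]
            exact ⟨⟨ha.1.1, hva⟩, Or.inl (Or.inr hax.symm)⟩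
          · rw [mem_inter]
            rintro ⟨_, h2⟩
            exact ha.1.2 h2
        · exact inter_subset_inter_left (cn_mono (subset_insert _ _))
      omega

/-- number of surviving neighbours, in the form of a difference -/
lemma Rob.deg' {S : Finset V} {k m : ℕ} (h : Rob G S k m) {X : Finset V} (hX : X.card ≤ k)
    {v : V} (hvS : v ∈ S) (hv : v ∉ cn G X) :
    m + 1 + ((S.filter (fun w => G.Adj v w)) ∩ cn G X).card ≤
      (S.filter (fun w => G.Adj v w)).card := by
  have h1 := h.deg hX hvS hv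
  have h2 : (S \ cn G X).filter (fun w => G.Adj v w) =
      (S.filter (fun w => G.Adj v w)) \ cn G X := by
    ext w
    simp only [mem_filter, mem_sdiff]
    tauto
  rw [h2] at h1
  have h3 := card_sdiff_add_card_inter (S.filter (fun w => G.Adj v w)) (cn G X)
  omega

/-- bound on the number of neighbours of `v` hit by few closed neighbourhoods -/
lemma Rob.star {S : Finset V} {k m : ℕ} (h : Rob G S k m) {v : V} (hv : v ∈ S)
    (hdeg : (S.filter (fun w => G.Adj v w)).card ≤ m + 2 * k) {X : Finset V} (hX : X.card ≤ k)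
    (hvX : v ∉ cn G X) :
    ((S.filter (fun w => G.Adj v w)) ∩ cn G X).card + 1 ≤ k + X.card := by
  obtain ⟨X', h1, h2, h3⟩ := h.extend_kill hv (k - X.card) X (by omega) hvX
  have h4 := h.deg' (X := X') (by omega) hv h2
  omega

/-- coverage of a large clique by few closed neighbourhoods -/
lemma Rob.cov {S : Finset V} {k m : ℕ} (h : Rob G S k m) (hk : 1 ≤ k)
    (hdeg : ∀ v ∈ S, (S.filter (fun w => G.Adj v w)).card ≤ m + 2 * k) {R : Finset V}
    (hRS : R ⊆ S) (hR : ∀ u ∈ R, ∀ v ∈ R, u ≠ v → G.Adj u v) (hRcard : 3 * k ≤ R.card + 1)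
    {X : Finset V} (hXR : ∀ x ∈ X, ∃ v ∈ R, v ∉ cn G {x}) (hX : X.card ≤ k) :
    (R ∩ cn G X).card + 1 ≤ k + X.card := by
  have hsub : ∀ (X : Finset V) (v : V), v ∈ R → v ∉ cn G X →
      R ∩ cn G X ⊆ (S.filter (fun w => G.Adj v w)) ∩ cn G X := by
    intro X v hv hvX w hw
    rw [mem_inter] at hw
    rw [mem_inter, mem_filter]
    refine ⟨⟨hRS hw.1, ?_⟩, hw.2⟩
    refine hR v hv w hw.1 ?_
    rintro rfl
    exact hvX hw.2
  induction X using Finset.induction_on with
  | empty => simpa [cn_empty] using hk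
  | insert x X hx ih =>
    rw [card_insert_of_notMem hx] at hX
    have h1 := ih (fun y hy => hXR y (mem_insert_of_mem hy)) (by omega)
    obtain ⟨v, hvR, hvx⟩ := hXR x (mem_insert_self _ _)
    have h2 := h.star (hRS hvR) (hdeg v (hRS hvR)) (X := {x}) (by simpa using hk) hvx
    have h3 := card_le_card (hsub {x} v hvR hvx)
    rw [card_singleton] at h2
    have h4 : (R ∩ cn G (insert x X)).card ≤ (R ∩ cn G {x}).card + (R ∩ cn G X).card := by
      rw [cn_insert, inter_union_distrib_left]
      exact card_union_le _ _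
    have h5 : ∃ w ∈ R, w ∉ cn G (insert x X) := by
      by_contra hcon
      push Not at hcon
      have h6 : R ∩ cn G (insert x X) = R := inter_eq_left.2 hcon
      rw [h6] at h4
      omega
    obtain ⟨w, hwR, hw⟩ := h5
    have h6 := h.star (hRS hwR) (hdeg w (hRS hwR)) (X := insert x X)
      (by rw [card_insert_of_notMem hx]; omega) hw
    have h7 := card_le_card (hsub (insert x X) w hwR hw)
    omega

/-- the set of vertices dominated by exactly one member `y` of `J` -/
noncomputable def own (G : SimpleGraph V) (S J : Finset V) (y : V) : Finset V :=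
  S.filter (fun v => v ∈ cn G {y} ∧ ∀ z ∈ J, v ∈ cn G {z} → z = y)

lemma mem_cn_symm {u v : V} : u ∈ cn G {v} ↔ v ∈ cn G {u} := by
  rw [mem_cn_singleton, mem_cn_singleton]
  constructor
  · rintro (h | h)
    · exact Or.inl h.symm
    · exact Or.inr h.symm
  · rintro (h | h)
    · exact Or.inl h.symm
    · exact Or.inr h.symm

/-- a finset version of: choose the largest set doubly covering -/
lemma exists_saturated (𝒜 T : Finset V) (k : ℕ)
    (hbound : ∀ X ⊆ 𝒜, X.card ≤ k → 2 * X.card ≤ (T ∩ cn G X).card → X.card + 1 ≤ k) :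
    1 ≤ k → ∃ X ⊆ 𝒜, X.card + 1 ≤ k ∧ ∀ x ∈ 𝒜, ((T \ cn G X) ∩ cn G {x}).card ≤ 1 := by
  intro hk
  obtain ⟨X, hX, hmax⟩ := exists_max_image
    (𝒜.powerset.filter (fun X => X.card ≤ k ∧ 2 * X.card ≤ (T ∩ cn G X).card))
    (fun X => X.card) ⟨∅, by simp⟩
  rw [mem_filter, mem_powerset] at hX
  have h1 := hbound X hX.1 hX.2.1 hX.2.2
  refine ⟨X, hX.1, h1, ?_⟩
  intro x hx
  by_contra hcon
  push Not at hcon
  have hxX : x ∉ X := by
    intro h2
    have h3 : (T \ cn G X) ∩ cn G {x} = ∅ := by
      rw [eq_empty_iff_forall_notMem]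
      intro w hw
      rw [mem_inter, mem_sdiff] at hw
      exact hw.1.2 (cn_mono (singleton_subset_iff.2 h2) hw.2)
    rw [h3] at hcon
    simp at hcon
  have h2 : (T ∩ cn G X).card + ((T \ cn G X) ∩ cn G {x}).card ≤
      (T ∩ cn G (insert x X)).card := by
    rw [← card_union_of_disjoint]
    · apply card_le_card
      intro w hw
      rw [mem_union, mem_inter, mem_inter, mem_sdiff] at hw
      rw [mem_inter, cn_insert, mem_union]
      rcases hw with hw | hw
      · exact ⟨hw.1, Or.inr hw.2⟩
      · exact ⟨hw.1.1, Or.inl hw.2⟩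
    · rw [disjoint_left]
      intro w hw hw'
      rw [mem_inter] at hw
      rw [mem_inter, mem_sdiff] at hw'
      exact hw'.1.2 hw.2
  have h3 := hmax (insert x X) (by
    rw [mem_filter, mem_powerset]
    refine ⟨?_, ?_, ?_⟩
    · intro w hw
      rw [mem_insert] at hw
      rcases hw with rfl | hw
      · exact hx
      · exact hX.1 hw
    · rw [card_insert_of_notMem hxX]
      omega
    · rw [card_insert_of_notMem hxX]
      omega)
  rw [card_insert_of_notMem hxX] at h3
  omega

/-- the sets `own y` are large -/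
lemma Rob.own_large {S : Finset V} {k m b : ℕ} (h : Rob G S k m) (hk : 1 ≤ k)
    (hdeg : ∀ v ∈ S, (S.filter (fun w => G.Adj v w)).card ≤ m + 2 * k) {J : Finset V}
    (hJS : J ⊆ S) (hJ : Indep G J) (hcard : J.card = k + 1 + b) {y : V} (hy : y ∈ J) :
    m + 2 ≤ (own G S J y).card + b := by
  have hyX : ∀ X ⊆ J.erase y, y ∉ cn G X := by
    intro X hX hyX
    rw [mem_cn] at hyX
    obtain ⟨x, hx, h1⟩ := hyX
    have h2 := hX hx
    rw [mem_erase] at h2
    rcases h1 with h1 | h1
    · exact h2.1 h1.symm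
    · exact hJ x h2.2 y hy h2.1 h1
  obtain ⟨X0, hX0, hX0card, hX0sat⟩ := exists_saturated (G := G) (J.erase y)
    (S.filter (fun w => G.Adj y w)) k (by
      intro X hX hXk h2
      have h3 := h.star (hJS hy) (hdeg y (hJS hy)) hXk (hyX X hX)
      omega) hk
  obtain ⟨X, hX0X, hXJ, hXcard⟩ := exists_subsuperset_card_eq (n := k) hX0 (by omega) (by
    rw [card_erase_of_mem hy, hcard]
    omega)
  have h1 := h.deg (X := X) hXcard.le (hJS hy) (hyX X hXJ)
  have h2 : (S \ cn G X).filter (fun w => G.Adj y w) ⊆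
      (own G S J y).erase y ∪ (J.erase y \ X).biUnion
        (fun z => ((S.filter (fun w => G.Adj y w)) \ cn G X0) ∩ cn G {z}) := by
    intro w hw
    rw [mem_filter, mem_sdiff] at hw
    rw [mem_union, mem_biUnion, mem_erase, own, mem_filter]
    by_cases h3 : ∀ z ∈ J, w ∈ cn G {z} → z = y
    · left
      refine ⟨?_, hw.1.1, ?_, h3⟩
      · rintro rfl
        exact G.irrefl hw.2
      · rw [mem_cn_singleton]
        exact Or.inr hw.2
    · right
      push Not at h3
      obtain ⟨z, hz, hwz, hzy⟩ := h3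
      refine ⟨z, ?_, ?_⟩
      · rw [mem_sdiff, mem_erase]
        refine ⟨⟨hzy, hz⟩, ?_⟩
        intro h4
        exact hw.1.2 (cn_mono (singleton_subset_iff.2 h4) hwz)
      · rw [mem_inter, mem_sdiff, mem_filter]
        refine ⟨⟨⟨hw.1.1, hw.2⟩, ?_⟩, hwz⟩
        intro h4
        exact hw.1.2 (cn_mono hX0X h4)
  have h3 : ((J.erase y \ X).biUnion
        (fun z => ((S.filter (fun w => G.Adj y w)) \ cn G X0) ∩ cn G {z})).card ≤ b := by
    refine card_biUnion_le.trans ?_
    calc ∑ z ∈ J.erase y \ X, (((S.filter (fun w => G.Adj y w)) \ cn G X0) ∩ cn G {z}).card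
        ≤ ∑ _z ∈ J.erase y \ X, 1 := by
          refine sum_le_sum (fun z hz => ?_)
          rw [mem_sdiff] at hz
          exact hX0sat z hz.1
      _ = b := by
          rw [sum_const, smul_eq_mul, mul_one, card_sdiff_of_subset hXJ, hXcard,
            card_erase_of_mem hy, hcard]
          omega
  have hyown : y ∈ own G S J y := by
    rw [own, mem_filter]
    refine ⟨hJS hy, by rw [mem_cn_singleton]; exact Or.inl rfl, ?_⟩
    intro z hz hyz
    by_contra h4
    rw [mem_cn_singleton] at hyz
    rcases hyz with h5 | h5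
    · exact h4 h5.symm
    · exact hJ z hz y hy h4 h5
  have h4 := card_le_card h2
  have h5 := card_union_le ((own G S J y).erase y) ((J.erase y \ X).biUnion
        (fun z => ((S.filter (fun w => G.Adj y w)) \ cn G X0) ∩ cn G {z}))
  rw [card_erase_of_mem hyown] at h5
  have h6 : 1 ≤ (own G S J y).card := card_pos.2 ⟨y, hyown⟩
  omega

omit [Fintype V] in
/-- Hall's condition holds at some vertex -/
lemma exists_hall (B L : Finset V) (rel : V → V → Prop) (hcard : L.card < B.card) :
    ∃ w ∈ B, ∀ F ⊆ L.filter (fun l => rel w l),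
      F.card ≤ (F.biUnion (fun l => (B.filter (fun w' => rel w' l)).erase w)).card := by
  by_contra hcon
  push Not at hcon
  choose! F hF1 hF2 using hcon
  have hpos : ∀ w ∈ B, 0 < (F w).card := fun w hw => lt_of_le_of_lt (Nat.zero_le _) (hF2 w hw)
  have hFL : ∀ w ∈ B, ∀ l ∈ F w, l ∈ L ∧ rel w l := by
    intro w hw l hl
    have := hF1 w hw hl
    rwa [mem_filter] at this
  have hle : ∀ w ∈ B, ∀ l ∈ F w, (B.filter (fun w' => rel w' l)).card ≤ (F w).card := by
    intro w hw l hl
    have hwB : w ∈ B.filter (fun w' => rel w' l) := by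
      rw [mem_filter]
      exact ⟨hw, (hFL w hw l hl).2⟩
    have h1 : (B.filter (fun w' => rel w' l)).erase w ⊆
        (F w).biUnion (fun l => (B.filter (fun w' => rel w' l)).erase w) := by
      intro x hx
      rw [mem_biUnion]
      exact ⟨l, hl, hx⟩
    have h2 := card_le_card h1
    rw [card_erase_of_mem hwB] at h2
    have h3 := hF2 w hw
    omega
  have h1 : (B.card : ℚ) = ∑ w ∈ B, ∑ _l ∈ F w, (1 : ℚ) / (F w).card := by
    have : ∀ w ∈ B, ∑ _l ∈ F w, (1 : ℚ) / (F w).card = 1 := by
      intro w hw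
      rw [sum_const, nsmul_eq_mul]
      have := hpos w hw
      field_simp
    rw [sum_congr rfl this, sum_const, nsmul_eq_mul, mul_one]
  have h2 : ∑ w ∈ B, ∑ _l ∈ F w, (1 : ℚ) / (F w).card ≤
      ∑ w ∈ B, ∑ l ∈ L, (if l ∈ F w then (1 : ℚ) / (B.filter (fun w' => rel w' l)).card else 0) := by
    refine sum_le_sum (fun w hw => ?_)
    rw [← sum_filter]
    have h3 : L.filter (fun l => l ∈ F w) = F w := by
      ext l
      rw [mem_filter]
      exact ⟨fun h => h.2, fun h => ⟨(hFL w hw l h).1, h⟩⟩
    rw [h3]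
    refine sum_le_sum (fun l hl => ?_)
    have h4 := hle w hw l hl
    have h5 : 0 < (B.filter (fun w' => rel w' l)).card := by
      rw [card_pos]
      exact ⟨w, by rw [mem_filter]; exact ⟨hw, (hFL w hw l hl).2⟩⟩
    apply one_div_le_one_div_of_le
    · exact_mod_cast h5
    · exact_mod_cast h4
  rw [sum_comm] at h2
  have h3 : ∑ l ∈ L, ∑ w ∈ B,
      (if l ∈ F w then (1 : ℚ) / (B.filter (fun w' => rel w' l)).card else 0) ≤
      ∑ _l ∈ L, (1 : ℚ) := by
    refine sum_le_sum (fun l hl => ?_)
    rw [← sum_filter, sum_const, nsmul_eq_mul]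
    have h4 : B.filter (fun w => l ∈ F w) ⊆ B.filter (fun w' => rel w' l) := by
      intro w hw
      rw [mem_filter] at hw ⊢
      exact ⟨hw.1, (hFL w hw.1 l hw.2).2⟩
    have h5 := card_le_card h4
    rcases Nat.eq_zero_or_pos (B.filter (fun w' => rel w' l)).card with h6 | h6
    · rw [h6]
      simp
    · rw [mul_one_div, div_le_one (by exact_mod_cast h6)]
      exact_mod_cast h5
  rw [sum_const, nsmul_eq_mul, mul_one] at h3
  rw [← h1] at h2
  have h4 : (B.card : ℚ) ≤ L.card := h2.trans h3
  have h5 : B.card ≤ L.card := by exact_mod_cast h4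
  omega

end Pool.Agent.Nbr
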