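import Pool.Agent.helper66.Brouwer

set_option autoImplicit false

/-!
# Antipodal orbits (idea of helper98 and helper99)

If a continuous self map `S` of a box symmetric about `z` increases a function `E` at least as fast
as `c` times the `ℓ¹` length of the step, then `S` has a fixed point `x` whose `ℓ¹` distance from the
centre is controlled by `E (2z - w) - E w` for some `w`.
-/

open Set Metric Topology Filter

namespace Pool.Agent.helper66.Brouwer

variable {ι : Type*} [Fintype ι]

theorem orbit (z r : ι → ℝ) (hr : ∀ i, 0 ≤ r i) (S : (ι → ℝ) → (ι → ℝ))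
    (hS : ContinuousOn S (Icc (z - r) (z + r)))
    (hm : MapsTo S (Icc (z - r) (z + r)) (Icc (z - r) (z + r)))
    (E : (ι → ℝ) → ℝ) (hE : ContinuousOn E (Icc (z - r) (z + r))) (c : ℝ) (hc : 0 < c)
    (h : ∀ x ∈ Icc (z - r) (z + r), c * ∑ i, |S x i - x i| ≤ E (S x) - E x) :
    ∃ w ∈ Icc (z - r) (z + r), ∃ x ∈ Icc (z - r) (z + r), S x = x ∧
      2 * c * ∑ i, |x i - z i| ≤ E ((2 : ℝ) • z - w) - E w ∧
      2 * c * ∑ i, |w i - z i| ≤ E ((2 : ℝ) • z - w) - E w := by
  classical
  set K : Set (ι → ℝ) := Icc (z - r) (z + r) with hK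
  have hKc : IsCompact K := isCompact_Icc
  have hrefl : ∀ w ∈ K, (2 : ℝ) • z - w ∈ K := by
    intro w hw
    constructor
    · intro i
      have := hw.2 i
      simp only [Pi.add_apply, Pi.sub_apply, Pi.smul_apply, smul_eq_mul] at this ⊢
      linarith
    · intro i
      have := hw.1 i
      simp only [Pi.add_apply, Pi.sub_apply, Pi.smul_apply, smul_eq_mul] at this ⊢
      linarith
  have hiter : ∀ N : ℕ, MapsTo (S^[N]) K K := fun N => hm.iterate N
  have hitc : ∀ N : ℕ, ContinuousOn (S^[N]) K := fun N => hS.iterate hm N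
  -- the key estimate for every `N`
  have key : ∀ N : ℕ, ∃ w ∈ K, ∃ x ∈ K,
      (N + 1 : ℝ) * (c * ∑ i, |S x i - x i|) ≤ E ((2 : ℝ) • z - w) - E w ∧
      2 * c * ∑ i, |x i - z i| ≤ E ((2 : ℝ) • z - w) - E w ∧
      2 * c * ∑ i, |w i - z i| ≤ E ((2 : ℝ) • z - w) - E w := by
    intro N
    obtain ⟨w, hw, hw'⟩ := exists_fixed_box (z - r) (z + r)
      (fun i => by
        have := hr i
        simp only [Pi.add_apply, Pi.sub_apply]
        linarith)
      (fun w => (2 : ℝ) • z - S^[N + 1] w)
      (continuousOn_const.sub (hitc (N + 1)))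
      (fun w hw => hrefl _ (hiter (N + 1) hw))
    have hSN : S^[N + 1] w = (2 : ℝ) • z - w := by
      rw [eq_sub_iff_add_eq, ← eq_sub_iff_add_eq']
      exact hw'.symm
    let x : ℕ → ι → ℝ := fun k => S^[k] w
    have hx : ∀ k, x k ∈ K := fun k => hiter k hw
    have hxs : ∀ k, S (x k) = x (k + 1) := fun k => (Function.iterate_succ_apply' S k w).symm
    let d : ℕ → ℝ := fun k => ∑ i, |x (k + 1) i - x k i|
    have hd0 : ∀ k, 0 ≤ d k := fun k => Finset.sum_nonneg fun i _ => abs_nonneg _
    have hstep : ∀ k, c * d k ≤ E (x (k + 1)) - E (x k) := by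
      intro k
      have := h (x k) (hx k)
      rw [hxs k] at this
      exact this
    have htel : c * ∑ k ∈ Finset.range (N + 1), d k ≤ E ((2 : ℝ) • z - w) - E w := by
      rw [Finset.mul_sum]
      calc ∑ k ∈ Finset.range (N + 1), c * d k
          ≤ ∑ k ∈ Finset.range (N + 1), (E (x (k + 1)) - E (x k)) :=
            Finset.sum_le_sum fun k _ => hstep k
        _ = E (x (N + 1)) - E (x 0) := Finset.sum_range_sub (fun k => E (x k)) (N + 1)
        _ = _ := by
            have h1 : x (N + 1) = (2 : ℝ) • z - w := hSN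
            have h2 : x 0 = w := rfl
            rw [h1, h2]
    -- distances along the orbit
    have hdist : ∀ a b : ℕ, a ≤ b → ∑ i, |x b i - x a i| ≤ ∑ k ∈ Finset.Ico a b, d k := by
      intro a b hab
      induction b, hab using Nat.le_induction with
      | base => simp
      | succ b hab ih =>
        rw [Finset.sum_Ico_succ_top hab]
        calc ∑ i, |x (b + 1) i - x a i|
            ≤ ∑ i, (|x b i - x a i| + |x (b + 1) i - x b i|) := by
              refine Finset.sum_le_sum fun i _ => ?_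
              have := abs_sub_le (x (b + 1) i) (x b i) (x a i)
              linarith
          _ = ∑ i, |x b i - x a i| + d b := Finset.sum_add_distrib
          _ ≤ _ := by linarith
    have hz : ∀ k ≤ N + 1, 2 * ∑ i, |x k i - z i| ≤ ∑ k ∈ Finset.range (N + 1), d k := by
      intro k hk
      have h1 := hdist 0 k (Nat.zero_le _)
      have h2 := hdist k (N + 1) hk
      have h3 : ∑ j ∈ Finset.Ico 0 k, d j + ∑ j ∈ Finset.Ico k (N + 1), d j =
          ∑ j ∈ Finset.range (N + 1), d j := by
        rw [Finset.sum_Ico_consecutive _ (Nat.zero_le _) hk, Finset.range_eq_Ico]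
      have h4 : 2 * ∑ i, |x k i - z i| ≤ ∑ i, |x k i - x 0 i| + ∑ i, |x (N + 1) i - x k i| := by
        rw [Finset.mul_sum, ← Finset.sum_add_distrib]
        refine Finset.sum_le_sum fun i _ => ?_
        have e1 : x (N + 1) i = 2 * z i - w i := congrFun hSN i
        have e2 : x 0 i = w i := rfl
        have e3 : 2 * (x k i - z i) = (x k i - x 0 i) - (x (N + 1) i - x k i) := by
          rw [e1, e2]; ring
        calc 2 * |x k i - z i| = |2 * (x k i - z i)| := by rw [abs_mul, abs_two]
          _ ≤ _ := by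
            rw [e3]
            exact abs_sub _ _
      linarith
    obtain ⟨k, hk, hk'⟩ : ∃ k ∈ Finset.range (N + 1),
        d k ≤ (∑ j ∈ Finset.range (N + 1), d j) / (N + 1 : ℝ) := by
      by_contra hcon
      push Not at hcon
      have h1 := Finset.sum_lt_sum_of_nonempty (s := Finset.range (N + 1)) (by simp) hcon
      rw [Finset.sum_const, Finset.card_range, nsmul_eq_mul] at h1
      have h2 : (0 : ℝ) < N + 1 := by positivity
      have h3 : ((N + 1 : ℕ) : ℝ) * ((∑ j ∈ Finset.range (N + 1), d j) / (N + 1 : ℝ)) =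
          ∑ j ∈ Finset.range (N + 1), d j := by
        push_cast
        field_simp
      rw [h3] at h1
      exact lt_irrefl _ h1
    have hkN : k ≤ N + 1 := (Finset.mem_range.1 hk).le
    refine ⟨w, hw, x k, hx k, ?_, ?_, ?_⟩
    · rw [hxs k]
      have h2 : (0 : ℝ) < N + 1 := by positivity
      rw [le_div_iff₀ h2] at hk'
      calc (N + 1 : ℝ) * (c * ∑ i, |x (k + 1) i - x k i|) = c * (d k * (N + 1)) := by
            simp only [d]; ring
        _ ≤ c * ∑ j ∈ Finset.range (N + 1), d j := by gcongr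
        _ ≤ _ := htel
    · have := hz k hkN
      calc 2 * c * ∑ i, |x k i - z i| = c * (2 * ∑ i, |x k i - z i|) := by ring
        _ ≤ c * ∑ j ∈ Finset.range (N + 1), d j := by gcongr
        _ ≤ _ := htel
    · have := hz 0 (Nat.zero_le _)
      calc 2 * c * ∑ i, |w i - z i| = c * (2 * ∑ i, |x 0 i - z i|) := by
            simp only [x, Function.iterate_zero, id]; ring
        _ ≤ c * ∑ j ∈ Finset.range (N + 1), d j := by gcongr
        _ ≤ _ := htel
  choose w hw x hx h1 h2 h3 using key
  obtain ⟨M, hM⟩ := hKc.exists_bound_of_continuousOn hE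
  obtain ⟨a, ha, φ, hφ, hφa⟩ := (hKc.prod hKc).tendsto_subseq (x := fun n => (w n, x n))
    (fun n => ⟨hw n, hx n⟩)
  obtain ⟨wl, xl⟩ := a
  have hwl : wl ∈ K := ha.1
  have hxl : xl ∈ K := ha.2
  have tw : Tendsto (fun n => w (φ n)) atTop (𝓝 wl) :=
    (continuous_fst.tendsto _).comp hφa
  have tx : Tendsto (fun n => x (φ n)) atTop (𝓝 xl) :=
    (continuous_snd.tendsto _).comp hφa
  have twK : Tendsto (fun n => w (φ n)) atTop (𝓝[K] wl) :=
    tendsto_nhdsWithin_iff.2 ⟨tw, Eventually.of_forall fun n => hw _⟩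
  have txK : Tendsto (fun n => x (φ n)) atTop (𝓝[K] xl) :=
    tendsto_nhdsWithin_iff.2 ⟨tx, Eventually.of_forall fun n => hx _⟩
  have tE : Tendsto (fun n => E (w (φ n))) atTop (𝓝 (E wl)) := (hE wl hwl).tendsto.comp twK
  have tr : Tendsto (fun n => (2 : ℝ) • z - w (φ n)) atTop (𝓝[K] ((2 : ℝ) • z - wl)) :=
    tendsto_nhdsWithin_iff.2 ⟨tendsto_const_nhds.sub tw,
      Eventually.of_forall fun n => hrefl _ (hw _)⟩
  have tEr : Tendsto (fun n => E ((2 : ℝ) • z - w (φ n))) atTop (𝓝 (E ((2 : ℝ) • z - wl))) :=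
    (hE _ (hrefl _ hwl)).tendsto.comp tr
  have tS : Tendsto (fun n => S (x (φ n))) atTop (𝓝 (S xl)) := (hS xl hxl).tendsto.comp txK
  have tc : ∀ {u : ℕ → ι → ℝ} {v : ι → ℝ}, Tendsto u atTop (𝓝 v) → ∀ i,
      Tendsto (fun n => u n i) atTop (𝓝 (v i)) := fun hu i => (tendsto_pi_nhds.1 hu) i
  refine ⟨wl, hwl, xl, hxl, ?_, ?_, ?_⟩
  · -- fixed point
    have t1 : Tendsto (fun n => c * ∑ i, |S (x (φ n)) i - x (φ n) i|) atTop
        (𝓝 (c * ∑ i, |S xl i - xl i|)) :=
      tendsto_const_nhds.mul (tendsto_finsetSum _ fun i _ => ((tc tS i).sub (tc tx i)).abs)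
    have t2 : Tendsto (fun n : ℕ => 2 * M / ((φ n : ℝ) + 1)) atTop (𝓝 0) := by
      refine Tendsto.div_atTop tendsto_const_nhds ?_
      exact tendsto_atTop_add_const_right _ _
        (tendsto_natCast_atTop_atTop.comp hφ.tendsto_atTop)
    have h4 : c * ∑ i, |S xl i - xl i| ≤ 0 := by
      refine le_of_tendsto_of_tendsto' t1 t2 fun n => ?_
      have h5 : (0 : ℝ) < (φ n : ℝ) + 1 := by positivity
      rw [le_div_iff₀ h5, mul_comm]
      refine (h1 (φ n)).trans ?_
      have h6 := hM _ (hrefl _ (hw (φ n)))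
      have h7 := hM _ (hw (φ n))
      rw [Real.norm_eq_abs] at h6 h7
      have := (abs_le.1 h6).2
      have := (abs_le.1 h7).1
      linarith
    have h5 : ∑ i, |S xl i - xl i| = 0 := by
      have h6 : 0 ≤ ∑ i, |S xl i - xl i| := Finset.sum_nonneg fun i _ => abs_nonneg _
      nlinarith
    funext i
    have h6 := (Finset.sum_eq_zero_iff_of_nonneg fun i _ => abs_nonneg (S xl i - xl i)).1 h5 i
      (Finset.mem_univ i)
    exact sub_eq_zero.1 (abs_eq_zero.1 h6)
  · refine le_of_tendsto_of_tendsto'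
      (tendsto_const_nhds.mul (tendsto_finsetSum _ fun i _ => ((tc tx i).sub_const (z i)).abs))
      (tEr.sub tE) fun n => h2 (φ n)
  · refine le_of_tendsto_of_tendsto'
      (tendsto_const_nhds.mul (tendsto_finsetSum _ fun i _ => ((tc tw i).sub_const (z i)).abs))
      (tEr.sub tE) fun n => h3 (φ n)

end Pool.Agent.helper66.Brouwer
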