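import Pool.Agent.helper66.TauDefs

/-!
# Core combinatorics for `S₁(Γ, T)` and `S₁(T, T)`

`Φ : Set ℝ → Prop` is the class of allowed sets of reals (open sets, or Borel sets).

* `SG Φ X`: the index version of `S₁(Γ, Γ)` for `X`.
* `ST Φ X`: the index version of every countable `τ`-cover contains an infinite `γ`-cover.
-/

set_option autoImplicit false

open Set Filter

namespace Pool.Agent.TauSel

/-- Index version of `S₁(Γ, Γ)` for the set of reals `X`, with covers by sets in the class `Φ`. -/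
def SG (Φ : Set ℝ → Prop) (X : Set ℝ) : Prop :=
  ∀ U : ℕ → ℕ → Set ℝ, (∀ n m, Φ (U n m)) → (∀ n, ∀ x ∈ X, {m | x ∉ U n m}.Finite) →
    ∃ g : ℕ → ℕ, ∀ x ∈ X, {n | x ∉ U n (g n)}.Finite

/-- Index version of: every `τ`-cover of `X` by sets in `Φ` contains a `γ`-cover. -/
def ST (Φ : Set ℝ → Prop) (X : Set ℝ) : Prop :=
  ∀ (U : ℕ → Set ℝ) (I : Set ℕ), (∀ i, Φ (U i)) → I.Infinite →
    (∀ x ∈ X, {i | i ∈ I ∧ x ∈ U i}.Infinite) →
    (∀ x ∈ X, ∀ y ∈ X, {i | i ∈ I ∧ x ∈ U i ∧ y ∉ U i}.Finite ∨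
      {i | i ∈ I ∧ y ∈ U i ∧ x ∉ U i}.Finite) →
    ∃ J : Set ℕ, J ⊆ I ∧ J.Infinite ∧ ∀ x ∈ X, {i | i ∈ J ∧ x ∉ U i}.Finite

/-! ### Countable additivity of `SG` -/

theorem SG_step {Φ : Set ℝ → Prop} {Z Y : Set ℝ} (hY : SG Φ Y) (hYZ : Y ⊆ Z)
    {U : ℕ → ℕ → Set ℝ} (hΦ : ∀ n m, Φ (U n m)) (h : ℕ → ℕ → ℕ)
    (hinv : ∀ n, ∀ x ∈ Z, {k | x ∉ U n (h n k)}.Finite) :
    ∃ h' : ℕ → ℕ → ℕ, (∀ n, ∀ x ∈ Z, {k | x ∉ U n (h' n k)}.Finite) ∧
      (∀ n, range (h' n) ⊆ range (h n)) ∧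
      ∀ x ∈ Y, {p : ℕ × ℕ | x ∉ U p.1 (h' p.1 p.2)}.Finite := by
  obtain ⟨g, hg⟩ := hY (fun p m => U p.unpair.1 (h p.unpair.1 (p.unpair.2 + m)))
    (fun p m => hΦ _ _) (by
      intro p x hx
      have h1 := hinv p.unpair.1 x (hYZ hx)
      exact h1.preimage (f := fun m => p.unpair.2 + m) (fun a _ b _ hab => by simpa using hab))
  refine ⟨fun n k => h n (k + g (Nat.pair n k)), ?_, ?_, ?_⟩
  · intro n x hx
    obtain ⟨M, hM⟩ := (hinv n x hx).bddAbove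
    refine (Set.finite_Iic M).subset ?_
    intro k hk
    have : k + g (Nat.pair n k) ≤ M := hM hk
    exact le_trans (Nat.le_add_right _ _) this
  · rintro n _ ⟨k, rfl⟩
    exact ⟨k + g (Nat.pair n k), rfl⟩
  · intro x hx
    have h1 := hg x hx
    have h2 := h1.preimage (f := fun p : ℕ × ℕ => Nat.pair p.1 p.2) (by
      rintro ⟨a, b⟩ _ ⟨c, d⟩ _ hab
      have := Nat.pair_eq_pair.1 hab
      exact Prod.ext this.1 this.2)
    refine h2.subset ?_
    rintro ⟨a, b⟩ hab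
    simpa using hab

theorem SG_iUnion {Φ : Set ℝ → Prop} (X : ℕ → Set ℝ) (hX : ∀ n, SG Φ (X n)) :
    SG Φ (⋃ n, X n) := by
  intro U hΦ hU
  set Z := ⋃ n, X n with hZ
  have hsub : ∀ j, X j ⊆ Z := fun j => subset_iUnion X j
  have step : ∀ (j : ℕ) (h : {h : ℕ → ℕ → ℕ // ∀ n, ∀ x ∈ Z, {k | x ∉ U n (h n k)}.Finite}),
      ∃ h' : {h : ℕ → ℕ → ℕ // ∀ n, ∀ x ∈ Z, {k | x ∉ U n (h n k)}.Finite},
        (∀ n, range (h'.1 n) ⊆ range (h.1 n)) ∧
        ∀ x ∈ X j, {p : ℕ × ℕ | x ∉ U p.1 (h'.1 p.1 p.2)}.Finite := by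
    intro j h
    obtain ⟨h', h1, h2, h3⟩ := SG_step (hX j) (hsub j) hΦ h.1 h.2
    exact ⟨⟨h', h1⟩, h2, h3⟩
  choose F hF1 hF2 using step
  let seq : ℕ → {h : ℕ → ℕ → ℕ // ∀ n, ∀ x ∈ Z, {k | x ∉ U n (h n k)}.Finite} :=
    fun j => Nat.rec ⟨fun _ k => k, hU⟩ (fun j h => F j h) j
  have seq_succ : ∀ j, seq (j + 1) = F j (seq j) := fun j => rfl
  have hmono : ∀ i j, i ≤ j → ∀ n, range ((seq j).1 n) ⊆ range ((seq i).1 n) := by
    intro i j hij
    induction j, hij using Nat.le_induction with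
    | base => intro n; exact Subset.rfl
    | succ j hj ih =>
      intro n
      rw [seq_succ]
      exact (hF1 j (seq j) n).trans (ih n)
  refine ⟨fun n => (seq n).1 n 0, ?_⟩
  intro x hx
  obtain ⟨j, hj⟩ := mem_iUnion.1 hx
  have hfin := hF2 j (seq j) x hj
  rw [← seq_succ] at hfin
  refine ((Set.finite_Iic j).union (hfin.image Prod.fst)).subset ?_
  intro n hn
  by_cases hnj : n ≤ j
  · exact Or.inl hnj
  · right
    have hle : j + 1 ≤ n := by omega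
    have hmem : (seq n).1 n 0 ∈ range ((seq (j + 1)).1 n) := hmono _ _ hle n ⟨0, rfl⟩
    obtain ⟨k, hk⟩ := hmem
    refine ⟨(n, k), ?_, rfl⟩
    simp only [mem_ofPred_eq]
    rw [hk]
    exact hn

theorem SG_subsingleton {Φ : Set ℝ → Prop} (X : Set ℝ) (hX : X.Subsingleton) : SG Φ X := by
  intro U _ hU
  rcases hX.eq_empty_or_singleton with h | ⟨x, h⟩
  · exact ⟨fun _ => 0, by simp [h]⟩
  · subst h
    have : ∀ n, ∃ m, x ∈ U n m := by
      intro n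
      by_contra hcon
      push Not at hcon
      have h1 := hU n x rfl
      have h2 : {m | x ∉ U n m} = univ := by ext m; simp [hcon m]
      rw [h2] at h1
      exact Set.infinite_univ h1
    choose g hg using this
    refine ⟨g, ?_⟩
    rintro y rfl
    simp [hg]

theorem SG_diff {Φ : Set ℝ → Prop} (hun : ∀ A B, Φ A → Φ B → Φ (A ∪ B)) {Z D : Set ℝ}
    (hD : Φ D) (h : SG Φ Z) : SG Φ (Z \ D) := by
  intro U hΦ hU
  obtain ⟨g, hg⟩ := h (fun n m => U n m ∪ D) (fun n m => hun _ _ (hΦ n m) hD) (by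
    intro n x hx
    by_cases hxD : x ∈ D
    · have : {m | x ∉ U n m ∪ D} = ∅ := by ext m; simp [hxD]
      rw [this]; exact finite_empty
    · refine (hU n x ⟨hx, hxD⟩).subset ?_
      intro m hm
      simp only [mem_ofPred_eq, mem_union, not_or] at hm
      exact hm.1)
  refine ⟨g, ?_⟩
  intro x hx
  refine (hg x hx.1).subset ?_
  intro n hn
  simp only [mem_ofPred_eq, mem_union, not_or]
  exact ⟨hn, hx.2⟩

/-! ### Countable additivity of `ST` -/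

theorem ST_iUnion {Φ : Set ℝ → Prop} (X : ℕ → Set ℝ) (hX : ∀ n, ST Φ (X n)) :
    ST Φ (⋃ n, X n) := by
  intro U I hΦ hI hlarge hlin
  set Z := ⋃ n, X n with hZ
  have hsub : ∀ j, X j ⊆ Z := fun j => subset_iUnion X j
  -- good index sets
  let Good : Set ℕ → Prop := fun K => K ⊆ I ∧ K.Infinite ∧ ∀ x ∈ Z, {i | i ∈ K ∧ x ∈ U i}.Infinite
  have step : ∀ (j : ℕ) (K : {K : Set ℕ // Good K}), ∃ K' : {K : Set ℕ // Good K},
      K'.1 ⊆ K.1 ∧ ∀ x ∈ X j, {i | i ∈ K'.1 ∧ x ∉ U i}.Finite := by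
    rintro j ⟨K, hKI, hKinf, hKlarge⟩
    have hKlin : ∀ x ∈ Z, ∀ y ∈ Z, {i | i ∈ K ∧ x ∈ U i ∧ y ∉ U i}.Finite ∨
        {i | i ∈ K ∧ y ∈ U i ∧ x ∉ U i}.Finite := by
      intro x hx y hy
      rcases hlin x hx y hy with h | h
      · left; exact h.subset (fun i hi => ⟨hKI hi.1, hi.2⟩)
      · right; exact h.subset (fun i hi => ⟨hKI hi.1, hi.2⟩)
    obtain ⟨J, hJK, hJinf, hJ⟩ := hX j U K hΦ hKinf (fun x hx => hKlarge x (hsub j hx))
      (fun x hx y hy => hKlin x (hsub j hx) y (hsub j hy))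
    by_cases hgood : ∀ x ∈ Z, {i | i ∈ J ∧ x ∈ U i}.Infinite
    · exact ⟨⟨J, hJK.trans hKI, hJinf, hgood⟩, hJK, hJ⟩
    · push Not at hgood
      obtain ⟨y, hyZ, hy⟩ := hgood
      refine ⟨⟨{i | i ∈ K ∧ y ∈ U i}, fun i hi => hKI hi.1, hKlarge y hyZ, ?_⟩, fun i hi => hi.1, ?_⟩
      · intro z hz
        rcases hKlin y hyZ z hz with h | h
        · -- K ∩ A_y \ A_z finite
          have h1 := (hKlarge y hyZ).sdiff h
          refine h1.mono ?_
          rintro i ⟨⟨hiK, hyi⟩, hi2⟩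
          refine ⟨⟨hiK, hyi⟩, ?_⟩
          by_contra hzi
          exact hi2 ⟨hiK, hyi, hzi⟩
        · have h1 := (hKlarge z hz).sdiff h
          refine h1.mono ?_
          rintro i ⟨⟨hiK, hzi⟩, hi2⟩
          refine ⟨⟨hiK, ?_⟩, hzi⟩
          by_contra hyi
          exact hi2 ⟨hiK, hzi, hyi⟩
      · intro x hx
        have hxZ := hsub j hx
        -- `J ⊆* A_x`, `J ∩ A_y` finite
        have hinf : {i | i ∈ K ∧ x ∈ U i ∧ y ∉ U i}.Infinite := by
          have h1 := (hJinf.sdiff (hJ x hx)).sdiff hy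
          refine h1.mono ?_
          rintro i ⟨⟨hiJ, hi1⟩, hi2⟩
          refine ⟨hJK hiJ, ?_, ?_⟩
          · by_contra hxi; exact hi1 ⟨hiJ, hxi⟩
          · intro hyi; exact hi2 ⟨hiJ, hyi⟩
        rcases hKlin x hxZ y hyZ with h | h
        · exact absurd h hinf
        · refine h.subset ?_
          rintro i ⟨⟨hiK, hyi⟩, hxi⟩
          exact ⟨hiK, hyi, hxi⟩
  choose F hF1 hF2 using step
  let seq : ℕ → {K : Set ℕ // Good K} :=
    fun j => Nat.rec ⟨I, Subset.rfl, hI, hlarge⟩ (fun j h => F j h) j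
  have seq_succ : ∀ j, seq (j + 1) = F j (seq j) := fun j => rfl
  have hmono : ∀ i j, i ≤ j → (seq j).1 ⊆ (seq i).1 := by
    intro i j hij
    induction j, hij using Nat.le_induction with
    | base => exact Subset.rfl
    | succ j hj ih =>
      rw [seq_succ]
      exact (hF1 j (seq j)).trans ih
  -- choose a diagonal sequence
  have hex : ∀ (j m : ℕ), ∃ i, i ∈ (seq j).1 ∧ m < i := by
    intro j m
    obtain ⟨i, hi, hm⟩ := (seq j).2.2.1.exists_gt m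
    exact ⟨i, hi, hm⟩
  choose c hc1 hc2 using hex
  let d : ℕ → ℕ := fun j => Nat.rec (c 0 0) (fun j prev => c (j + 1) prev) j
  have d_succ : ∀ j, d (j + 1) = c (j + 1) (d j) := fun j => rfl
  have d_mem : ∀ j, d j ∈ (seq j).1 := by
    intro j
    cases j with
    | zero => exact hc1 0 0
    | succ j => exact hc1 (j + 1) (d j)
  have d_mono : StrictMono d := strictMono_nat_of_lt_succ (fun j => by rw [d_succ]; exact hc2 _ _)
  refine ⟨range d, ?_, Set.infinite_range_of_injective d_mono.injective, ?_⟩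
  · rintro _ ⟨j, rfl⟩
    exact (seq j).2.1 (d_mem j)
  · intro x hx
    obtain ⟨j, hj⟩ := mem_iUnion.1 hx
    have hfin := hF2 j (seq j) x hj
    rw [← seq_succ] at hfin
    refine (hfin.union ((Set.finite_Iic j).image d)).subset ?_
    rintro _ ⟨⟨k, rfl⟩, hk⟩
    by_cases hkj : k ≤ j
    · right; exact ⟨k, hkj, rfl⟩
    · left
      exact ⟨hmono (j + 1) k (by omega) (d_mem k), hk⟩

theorem ST_subsingleton {Φ : Set ℝ → Prop} (X : Set ℝ) (hX : X.Subsingleton) : ST Φ X := by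
  intro U I _ hI hlarge _
  rcases hX.eq_empty_or_singleton with h | ⟨x, h⟩
  · exact ⟨I, Subset.rfl, hI, by simp [h]⟩
  · subst h
    refine ⟨{i | i ∈ I ∧ x ∈ U i}, fun i hi => hi.1, hlarge x rfl, ?_⟩
    rintro y rfl
    have : {i | i ∈ {i | i ∈ I ∧ y ∈ U i} ∧ y ∉ U i} = ∅ := by
      ext i; simp only [mem_ofPred_eq, mem_empty_iff_false, iff_false]; tauto
    rw [this]; exact finite_empty

theorem ST_diff {Φ : Set ℝ → Prop} (hun : ∀ A B, Φ A → Φ B → Φ (A ∪ B)) {Z D : Set ℝ}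
    (hD : Φ D) (h : ST Φ Z) : ST Φ (Z \ D) := by
  intro U I hΦ hI hlarge hlin
  obtain ⟨J, hJI, hJinf, hJ⟩ := h (fun i => U i ∪ D) I (fun i => hun _ _ (hΦ i) hD) hI (by
    intro x hx
    by_cases hxD : x ∈ D
    · refine hI.mono ?_
      intro i hi
      exact ⟨hi, Or.inr hxD⟩
    · refine (hlarge x ⟨hx, hxD⟩).mono ?_
      rintro i ⟨hi, hi2⟩
      exact ⟨hi, Or.inl hi2⟩) (by
    intro x hx y hy
    by_cases hxD : x ∈ D
    · right
      have : {i | i ∈ I ∧ y ∈ U i ∪ D ∧ x ∉ U i ∪ D} = ∅ := by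
        ext i; simp [hxD]
      rw [this]; exact finite_empty
    · by_cases hyD : y ∈ D
      · left
        have : {i | i ∈ I ∧ x ∈ U i ∪ D ∧ y ∉ U i ∪ D} = ∅ := by
          ext i; simp [hyD]
        rw [this]; exact finite_empty
      · have := hlin x ⟨hx, hxD⟩ y ⟨hy, hyD⟩
        simpa [hxD, hyD] using this)
  refine ⟨J, hJI, hJinf, ?_⟩
  intro x hx
  refine (hJ x hx.1).subset ?_
  rintro i ⟨hi, hi2⟩
  refine ⟨hi, ?_⟩
  simp only [mem_union, not_or]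
  exact ⟨hi2, hx.2⟩

/-! ### Consequences of countable additivity -/

theorem Q_union {Q : Set ℝ → Prop} (hσ : ∀ X : ℕ → Set ℝ, (∀ n, Q (X n)) → Q (⋃ n, X n))
    {A B : Set ℝ} (hA : Q A) (hB : Q B) : Q (A ∪ B) := by
  have h := hσ (fun n => if n = 0 then A else B) (by
    intro n
    by_cases hn : n = 0
    · simpa [hn] using hA
    · simpa [hn] using hB)
  have heq : (⋃ n : ℕ, (fun n => if n = 0 then A else B) n) = A ∪ B := by
    ext x
    simp only [mem_iUnion, mem_union]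
    constructor
    · rintro ⟨n, hn⟩
      by_cases h0 : n = 0
      · left; simpa [h0] using hn
      · right; simpa [h0] using hn
    · rintro (h | h)
      · exact ⟨0, by simpa using h⟩
      · exact ⟨1, by simpa using h⟩
  rwa [heq] at h

theorem Q_biUnion {Q : Set ℝ → Prop} (hσ : ∀ X : ℕ → Set ℝ, (∀ n, Q (X n)) → Q (⋃ n, X n))
    (hs : ∀ s : Set ℝ, s.Subsingleton → Q s) {ι : Type*} {T : Set ι} (hT : T.Countable)
    (F : ι → Set ℝ) (hF : ∀ i ∈ T, Q (F i)) : Q (⋃ i ∈ T, F i) := by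
  rcases T.eq_empty_or_nonempty with h | h
  · subst h
    have : (⋃ i ∈ (∅ : Set ι), F i) = ∅ := by simp
    rw [this]
    exact hs _ subsingleton_empty
  · obtain ⟨f, hf⟩ := hT.exists_eq_range h
    have h1 := hσ (fun n => F (f n)) (fun n => hF _ (by rw [hf]; exact ⟨n, rfl⟩))
    have h2 : (⋃ i ∈ T, F i) = ⋃ n, F (f n) := by
      rw [hf]; simp
    rwa [h2]

theorem Q_countable {Q : Set ℝ → Prop} (hσ : ∀ X : ℕ → Set ℝ, (∀ n, Q (X n)) → Q (⋃ n, X n))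
    (hs : ∀ s : Set ℝ, s.Subsingleton → Q s) {T : Set ℝ} (hT : T.Countable) : Q T := by
  have h := Q_biUnion hσ hs hT (fun x => {x}) (fun x _ => hs _ subsingleton_singleton)
  simpa using h

/-- The `0`-`1` argument along the real line. -/
theorem zero_one {Q : Set ℝ → Prop} (hσ : ∀ X : ℕ → Set ℝ, (∀ n, Q (X n)) → Q (⋃ n, X n))
    (hs : ∀ s : Set ℝ, s.Subsingleton → Q s) {X D : Set ℝ} (hD : Dense D)
    (h : ∀ c ∈ D, Q (X ∩ Iio c) ∨ Q (X ∩ Ioi c)) : Q X := by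
  obtain ⟨T, hTL, hTc, hT⟩ := TopologicalSpace.isOpen_biUnion_countable
    {c | c ∈ D ∧ Q (X ∩ Iio c)} (fun c => Iio c) (fun c _ => isOpen_Iio)
  obtain ⟨S, hSR, hSc, hS⟩ := TopologicalSpace.isOpen_biUnion_countable
    {c | c ∈ D ∧ Q (X ∩ Ioi c)} (fun c => Ioi c) (fun c _ => isOpen_Ioi)
  have h1 : Q (⋃ c ∈ T, X ∩ Iio c) := Q_biUnion hσ hs hTc _ (fun c hc => (hTL hc).2)
  have h2 : Q (⋃ c ∈ S, X ∩ Ioi c) := Q_biUnion hσ hs hSc _ (fun c hc => (hSR hc).2)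
  set A := ⋃ c ∈ T, X ∩ Iio c with hAdef
  set B := ⋃ c ∈ S, X ∩ Ioi c with hBdef
  have hA : ∀ c ∈ D, Q (X ∩ Iio c) → ∀ x ∈ X, x < c → x ∈ A := by
    intro c hc hQ x hx hxc
    have : x ∈ ⋃ c ∈ {c | c ∈ D ∧ Q (X ∩ Iio c)}, Iio c := by
      simp only [mem_iUnion]
      exact ⟨c, ⟨hc, hQ⟩, hxc⟩
    rw [← hT] at this
    simp only [mem_iUnion] at this
    obtain ⟨c', hc', hx'⟩ := this
    simp only [hAdef, mem_iUnion]
    exact ⟨c', hc', hx, hx'⟩
  have hB : ∀ c ∈ D, Q (X ∩ Ioi c) → ∀ x ∈ X, c < x → x ∈ B := by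
    intro c hc hQ x hx hxc
    have : x ∈ ⋃ c ∈ {c | c ∈ D ∧ Q (X ∩ Ioi c)}, Ioi c := by
      simp only [mem_iUnion]
      exact ⟨c, ⟨hc, hQ⟩, hxc⟩
    rw [← hS] at this
    simp only [mem_iUnion] at this
    obtain ⟨c', hc', hx'⟩ := this
    simp only [hBdef, mem_iUnion]
    exact ⟨c', hc', hx, hx'⟩
  have hlt : ∀ x ∈ X \ (A ∪ B), ∀ y ∈ X \ (A ∪ B), ¬ x < y := by
    rintro x ⟨hx, hx'⟩ y ⟨hy, hy'⟩ hxy
    obtain ⟨c, hcD, hxc, hcy⟩ := hD.exists_between hxy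
    rcases h c hcD with hQ | hQ
    · exact hx' (Or.inl (hA c hcD hQ x hx hxc))
    · exact hy' (Or.inr (hB c hcD hQ y hy hcy))
  have hsub : (X \ (A ∪ B)).Subsingleton := by
    intro x hx y hy
    exact le_antisymm (not_lt.1 (hlt y hy x hx)) (not_lt.1 (hlt x hx y hy))
  have h3 := Q_union hσ (Q_union hσ h1 h2) (hs _ hsub)
  have hAX : A ⊆ X := by
    intro x hx
    simp only [hAdef, mem_iUnion] at hx
    obtain ⟨c, _, hx, _⟩ := hx
    exact hx
  have hBX : B ⊆ X := by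
    intro x hx
    simp only [hBdef, mem_iUnion] at hx
    obtain ⟨c, _, hx, _⟩ := hx
    exact hx
  have heq : (A ∪ B) ∪ (X \ (A ∪ B)) = X := by
    ext x
    constructor
    · rintro ((hx | hx) | hx)
      · exact hAX hx
      · exact hBX hx
      · exact hx.1
    · intro hx
      by_cases h' : x ∈ A ∪ B
      · exact Or.inl h'
      · exact Or.inr ⟨hx, h'⟩
  rwa [heq] at h3

end Pool.Agent.TauSel
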