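import Mathlib

/-!
# Covers and selection principles for sets of reals

The definitions follow the problem file of MP_9c4169_gt word for word. A set of reals `X : Set ℝ` is
viewed as a space through its coercion to a type, with the subspace topology; a cover of `X` is a
family of subsets of that type.
-/

set_option autoImplicit false

namespace Pool.Agent.TauSel

/-- `𝒰` is a cover of the space `α`: its union is `α` and `α` is not a member of `𝒰`. -/
def IsCover {α : Type*} (𝒰 : Set (Set α)) : Prop :=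
  ⋃₀ 𝒰 = Set.univ ∧ Set.univ ∉ 𝒰

/-- `𝒰` is large: each point lies in infinitely many members of `𝒰`. -/
def IsLarge {α : Type*} (𝒰 : Set (Set α)) : Prop :=
  ∀ x : α, {A : Set α | A ∈ 𝒰 ∧ x ∈ A}.Infinite

/-- `𝒰` is a `γ`-cover: an infinite cover such that each point lies in all but finitely many
members. -/
def IsGammaCover {α : Type*} (𝒰 : Set (Set α)) : Prop :=
  IsCover 𝒰 ∧ 𝒰.Infinite ∧ ∀ x : α, {A : Set α | A ∈ 𝒰 ∧ x ∉ A}.Finite

/-- `𝒰` is a `τ`-cover: a large cover such that for all points `x, y` at least one of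
`{A ∈ 𝒰 : x ∈ A, y ∉ A}` and `{A ∈ 𝒰 : y ∈ A, x ∉ A}` is finite. -/
def IsTauCover {α : Type*} (𝒰 : Set (Set α)) : Prop :=
  IsCover 𝒰 ∧ IsLarge 𝒰 ∧ ∀ x y : α,
    {A : Set α | A ∈ 𝒰 ∧ x ∈ A ∧ y ∉ A}.Finite ∨ {A : Set α | A ∈ 𝒰 ∧ y ∈ A ∧ x ∉ A}.Finite

/-- The open `γ`-covers of `α`. -/
def OpenGamma (α : Type*) [TopologicalSpace α] : Set (Set (Set α)) :=
  {𝒰 | IsGammaCover 𝒰 ∧ ∀ A ∈ 𝒰, IsOpen A}

/-- The open `τ`-covers of `α`. -/
def OpenTau (α : Type*) [TopologicalSpace α] : Set (Set (Set α)) :=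
  {𝒰 | IsTauCover 𝒰 ∧ ∀ A ∈ 𝒰, IsOpen A}

/-- The countable Borel `γ`-covers of `α`. -/
def BorelGamma (α : Type*) [TopologicalSpace α] : Set (Set (Set α)) :=
  {𝒰 | 𝒰.Countable ∧ IsGammaCover 𝒰 ∧ ∀ A ∈ 𝒰, @MeasurableSet α (borel α) A}

/-- The countable Borel `τ`-covers of `α`. -/
def BorelTau (α : Type*) [TopologicalSpace α] : Set (Set (Set α)) :=
  {𝒰 | 𝒰.Countable ∧ IsTauCover 𝒰 ∧ ∀ A ∈ 𝒰, @MeasurableSet α (borel α) A}

/-- The selection principle `S₁(𝔘, 𝔙)`: for every sequence `𝒰 n` of members of `𝔘` there are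
`U n ∈ 𝒰 n` with `{U n : n ∈ ℕ} ∈ 𝔙`. -/
def S1 {α : Type*} (𝔘 𝔙 : Set (Set (Set α))) : Prop :=
  ∀ 𝒰 : ℕ → Set (Set α), (∀ n, 𝒰 n ∈ 𝔘) →
    ∃ U : ℕ → Set α, (∀ n, U n ∈ 𝒰 n) ∧ Set.range U ∈ 𝔙

/-- A property `P` of sets of reals is preserved under finite unions. -/
def PreservedUnderFiniteUnions (P : Set ℝ → Prop) : Prop :=
  ∀ X Y : Set ℝ, P X → P Y → P (X ∪ Y)

/-- A property `P` of sets of reals is preserved under countable unions (of countably infinitely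
many sets, repetitions allowed). -/
def PreservedUnderCountableUnions (P : Set ℝ → Prop) : Prop :=
  ∀ X : ℕ → Set ℝ, (∀ n, P (X n)) → P (⋃ n, X n)

end Pool.Agent.TauSel
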