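import Pool.Agent.helper66.TauMain

/-!
# `S₁(Γ, T) = S₁(Γ, Γ)` and `S₁(T, T) = S₁(T, Γ)` for sets of reals, open and Borel covers
-/

set_option autoImplicit false

open Set Filter

namespace Pool.Agent.TauSel

/-- A set of reals with `S₁(Γ, T)` has dense complement (it contains no Cantor set). -/
theorem dense_compl_of_AG {X : Set ℝ} (h : AG IsOpen X) : Dense Xᶜ := by
  rw [← interior_eq_empty_iff_dense_compl]
  by_contra hne
  have hne' : (interior X).Nonempty := nonempty_iff_ne_empty.2 hne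
  obtain ⟨a, b, hab, hsub⟩ := isOpen_interior.exists_Ioo_subset hne'
  have hsubX : Ioo a b ⊆ X := hsub.trans interior_subset
  obtain ⟨a', ha1, ha2⟩ := exists_between hab
  obtain ⟨b', hb1, hb2⟩ := exists_between ha2
  have hunc : ¬ (Icc a' b').Countable := by
    intro hc
    have h1 := Cardinal.le_aleph0_iff_set_countable.2 hc
    rw [Cardinal.mk_Icc_real hb1] at h1
    exact absurd h1 (not_le.2 Cardinal.aleph0_lt_continuum)
  obtain ⟨f, hfr, hfc, hfi⟩ := isClosed_Icc.exists_nat_bool_injection_of_not_countable hunc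
  have hfX : ∀ z, f z ∈ X := by
    intro z
    have := hfr ⟨z, rfl⟩
    exact hsubX ⟨lt_of_lt_of_le ha1 this.1, lt_of_le_of_lt this.2 hb2⟩
  let C : ℕ → ℕ → Set (ℕ → Bool) :=
    fun n m => {z | z (Nat.pair n m) = true ∧ ∀ k < m, z (Nat.pair n k) = false}
  have hCclosed : ∀ n m, IsClosed (C n m) := by
    intro n m
    have h1 : IsClosed {z : ℕ → Bool | z (Nat.pair n m) = true} :=
      isClosed_eq (continuous_apply _) continuous_const
    have h2 : IsClosed (⋂ k ∈ {k | k < m}, {z : ℕ → Bool | z (Nat.pair n k) = false}) :=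
      isClosed_biInter (fun k _ => isClosed_eq (continuous_apply _) continuous_const)
    have h3 : C n m = {z : ℕ → Bool | z (Nat.pair n m) = true} ∩
        (⋂ k ∈ {k | k < m}, {z : ℕ → Bool | z (Nat.pair n k) = false}) := by
      ext z
      simp [C]
    rw [h3]
    exact h1.inter h2
  have hCdisj : ∀ n i j z, z ∈ C n i → z ∈ C n j → i = j := by
    intro n i j z hi hj
    rcases lt_trichotomy i j with hlt | heq | hlt
    · have := hj.2 i hlt
      rw [hi.1] at this
      exact absurd this (by simp)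
    · exact heq
    · have := hi.2 j hlt
      rw [hj.1] at this
      exact absurd this (by simp)
  have hCne : ∀ n i, ∃ z, z ∈ C n i := by
    intro n i
    refine ⟨fun p => decide (p = Nat.pair n i), by simp, ?_⟩
    intro k hk
    have hne : Nat.pair n k ≠ Nat.pair n i := by
      intro h'
      have := (Nat.pair_eq_pair.1 h').2
      omega
    simp [hne]
  have hKclosed : ∀ n m, IsClosed (f '' C n m) :=
    fun n m => ((hCclosed n m).isCompact.image hfc).isClosed
  obtain ⟨g, hg, _⟩ := h (fun n m => (f '' C n m)ᶜ) (fun n m => (hKclosed n m).isOpen_compl) (by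
      intro n i j hij
      obtain ⟨z, hz⟩ := hCne n i
      have h1 : (⟨f z, hfX z⟩ : X) ∉ tr X (f '' C n i)ᶜ := by
        intro h'
        exact h' ⟨z, hz, rfl⟩
      have h2 : tr X (f '' C n i)ᶜ = tr X (f '' C n j)ᶜ := hij
      rw [h2] at h1
      have h3 : f z ∈ f '' C n j := by
        by_contra h'
        exact h1 h'
      obtain ⟨w, hw, hwz⟩ := h3
      have : w = z := hfi hwz
      subst this
      exact hCdisj n i j w hz hw) (by
      intro n i hsub'
      obtain ⟨z, hz⟩ := hCne n i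
      exact hsub' (hfX z) ⟨z, hz, rfl⟩) (by
      intro n x _
      have hsub' : {i | x ∉ (f '' C n i)ᶜ}.Subsingleton := by
        intro i hi j hj
        simp only [mem_compl_iff, not_not, mem_ofPred_eq] at hi hj
        obtain ⟨z, hz, hzx⟩ := hi
        obtain ⟨w, hw, hwx⟩ := hj
        have : w = z := hfi (hwx.trans hzx.symm)
        subst this
        exact hCdisj n i j w hz hw
      exact hsub'.finite)
  obtain ⟨n, hn⟩ := hg (f (fun p => decide (p.unpair.2 = g p.unpair.1))) (hfX _)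
  apply hn
  refine ⟨_, ⟨?_, ?_⟩, rfl⟩
  · simp
  · intro k hk
    have : k ≠ g n := by omega
    simp [this]

/-! ### From the partition lemmas to the index versions -/

theorem SG_open_of_AG {X : Set ℝ} (h : AG IsOpen X) : SG IsOpen X := by
  refine zero_one (Q := SG IsOpen) SG_iUnion SG_subsingleton (dense_compl_of_AG h) ?_
  intro c hc
  refine partition_SG (fun A B => IsOpen.union) (fun A B => IsOpen.inter)
    (fun A x hA => hA.sdiff isClosed_singleton) isOpen_Iio isOpen_Ioi ?_ ?_ h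
  · intro x hx
    have hne : x ≠ c := fun h' => hc (h' ▸ hx)
    exact lt_or_gt_of_ne hne
  · intro x _ h1 h2
    exact lt_asymm (show x < c from h1) (show c < x from h2)

theorem ST_open_of_AT {X : Set ℝ} (h : AT IsOpen X) : ST IsOpen X := by
  refine zero_one (Q := ST IsOpen) ST_iUnion ST_subsingleton (dense_compl_of_AG (AG_of_AT h)) ?_
  intro c hc
  refine partition_ST (fun A B => IsOpen.union) (fun A B => IsOpen.inter)
    (fun A x hA => hA.sdiff isClosed_singleton) isOpen_Iio isOpen_Ioi ?_ ?_ h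
  · intro x hx
    have hne : x ≠ c := fun h' => hc (h' ▸ hx)
    exact lt_or_gt_of_ne hne
  · intro x _ h1 h2
    exact lt_asymm (show x < c from h1) (show c < x from h2)

theorem inter_Ioi_eq (X : Set ℝ) (c : ℝ) : X ∩ Ioi c = (X ∩ Ici c) \ {c} := by
  ext x
  simp only [mem_inter_iff, mem_Ioi, Set.mem_sdiff, mem_Ici, mem_singleton_iff]
  constructor
  · rintro ⟨h1, h2⟩
    exact ⟨⟨h1, h2.le⟩, h2.ne'⟩
  · rintro ⟨⟨h1, h2⟩, h3⟩
    exact ⟨h1, lt_of_le_of_ne h2 (Ne.symm h3)⟩

theorem SG_borel_of_AG {X : Set ℝ} (h : AG MeasurableSet X) : SG MeasurableSet X := by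
  refine zero_one (Q := SG MeasurableSet) SG_iUnion SG_subsingleton (D := univ) dense_univ ?_
  intro c _
  rcases partition_SG (Φ := MeasurableSet) (fun A B => MeasurableSet.union)
    (fun A B => MeasurableSet.inter) (fun A x hA => hA.diff (measurableSet_singleton x))
    (measurableSet_Iio (a := c)) (measurableSet_Ici (a := c)) (by
      intro x _
      exact lt_or_ge x c) (by
      intro x _ h1 h2
      exact absurd (show x < c from h1) (not_lt.2 (show c ≤ x from h2))) h with h1 | h1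
  · exact Or.inl h1
  · right
    rw [inter_Ioi_eq]
    exact SG_diff (fun A B => MeasurableSet.union) (measurableSet_singleton c) h1

theorem ST_borel_of_AT {X : Set ℝ} (h : AT MeasurableSet X) : ST MeasurableSet X := by
  refine zero_one (Q := ST MeasurableSet) ST_iUnion ST_subsingleton (D := univ) dense_univ ?_
  intro c _
  rcases partition_ST (Φ := MeasurableSet) (fun A B => MeasurableSet.union)
    (fun A B => MeasurableSet.inter) (fun A x hA => hA.diff (measurableSet_singleton x))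
    (measurableSet_Iio (a := c)) (measurableSet_Ici (a := c)) (by
      intro x _
      exact lt_or_ge x c) (by
      intro x _ h1 h2
      exact absurd (show x < c from h1) (not_lt.2 (show c ≤ x from h2))) h with h1 | h1
  · exact Or.inl h1
  · right
    rw [inter_Ioi_eq]
    exact ST_diff (fun A B => MeasurableSet.union) (measurableSet_singleton c) h1

/-! ### Characterizations -/

theorem S1_openGamma_openTau_iff_SG (X : Set ℝ) :
    S1 (OpenGamma X) (OpenTau X) ↔ SG IsOpen X := by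
  constructor
  · intro h
    exact SG_open_of_AG (AG_of_S1 (rep_open X) h)
  · intro h
    exact S1_of_SG (rep_open X) (fun 𝒰 h1 h2 h3 => (rep_open X).t2 𝒰 h1 h2.isTauCover h3) h

theorem S1_openGamma_openGamma_iff_SG (X : Set ℝ) :
    S1 (OpenGamma X) (OpenGamma X) ↔ SG IsOpen X := by
  constructor
  · intro h
    rw [← S1_openGamma_openTau_iff_SG]
    intro 𝒰 h𝒰
    obtain ⟨U, hU1, hU2, hU3⟩ := h 𝒰 h𝒰
    exact ⟨U, hU1, hU2.isTauCover, hU3⟩
  · intro h
    exact S1_of_SG (rep_open X) (fun 𝒰 h1 h2 h3 => (rep_open X).g2 𝒰 h1 h2 h3) h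

theorem S1_borelGamma_borelTau_iff_SG (X : Set ℝ) :
    S1 (BorelGamma X) (BorelTau X) ↔ SG MeasurableSet X := by
  constructor
  · intro h
    exact SG_borel_of_AG (AG_of_S1 (rep_borel X) h)
  · intro h
    exact S1_of_SG (rep_borel X) (fun 𝒰 h1 h2 h3 => (rep_borel X).t2 𝒰 h1 h2.isTauCover h3) h

theorem S1_borelGamma_borelGamma_iff_SG (X : Set ℝ) :
    S1 (BorelGamma X) (BorelGamma X) ↔ SG MeasurableSet X := by
  constructor
  · intro h
    rw [← S1_borelGamma_borelTau_iff_SG]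
    intro 𝒰 h𝒰
    obtain ⟨U, hU1, hU2, hU3, hU4⟩ := h 𝒰 h𝒰
    exact ⟨U, hU1, hU2, hU3.isTauCover, hU4⟩
  · intro h
    exact S1_of_SG (rep_borel X) (fun 𝒰 h1 h2 h3 => (rep_borel X).g2 𝒰 h1 h2 h3) h

theorem nonempty_of_S1_openTau {X : Set ℝ} {𝔙 : Set (Set (Set X))} (h : S1 (OpenTau X) 𝔙) :
    X.Nonempty := by
  by_contra hne
  rw [not_nonempty_iff_eq_empty] at hne
  subst hne
  obtain ⟨U, hU, _⟩ := h (fun _ => ∅) (fun _ => by
    refine ⟨⟨⟨?_, fun h' => h'⟩, fun x => x.2.elim, fun x => x.2.elim⟩, fun A hA => hA.elim⟩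
    ext x
    exact x.2.elim)
  exact hU 0

theorem nonempty_of_S1_borelTau {X : Set ℝ} {𝔙 : Set (Set (Set X))} (h : S1 (BorelTau X) 𝔙) :
    X.Nonempty := by
  by_contra hne
  rw [not_nonempty_iff_eq_empty] at hne
  subst hne
  obtain ⟨U, hU, _⟩ := h (fun _ => ∅) (fun _ => by
    refine ⟨countable_empty, ⟨⟨?_, fun h' => h'⟩, fun x => x.2.elim, fun x => x.2.elim⟩,
      fun A hA => hA.elim⟩
    ext x
    exact x.2.elim)
  exact hU 0

theorem S1_openGamma_of_openTau {X : Set ℝ} {𝔙 : Set (Set (Set X))} (h : S1 (OpenTau X) 𝔙) :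
    S1 (OpenGamma X) 𝔙 := fun 𝒰 h𝒰 => h 𝒰 (fun n => ⟨(h𝒰 n).1.isTauCover, (h𝒰 n).2⟩)

theorem S1_borelGamma_of_borelTau {X : Set ℝ} {𝔙 : Set (Set (Set X))} (h : S1 (BorelTau X) 𝔙) :
    S1 (BorelGamma X) 𝔙 :=
  fun 𝒰 h𝒰 => h 𝒰 (fun n => ⟨(h𝒰 n).1, (h𝒰 n).2.1.isTauCover, (h𝒰 n).2.2⟩)

theorem S1_openTau_openTau_iff (X : Set ℝ) :
    S1 (OpenTau X) (OpenTau X) ↔ X.Nonempty ∧ SG IsOpen X ∧ ST IsOpen X := by
  constructor
  · intro h
    refine ⟨nonempty_of_S1_openTau h, ?_, ST_open_of_AT (AT_of_S1 (rep_open X) h)⟩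
    rw [← S1_openGamma_openTau_iff_SG]
    exact S1_openGamma_of_openTau h
  · rintro ⟨h1, h2, h3⟩
    exact S1_of_ST (rep_open X) (fun 𝒰 h1 h2 h3 => (rep_open X).t2 𝒰 h1 h2.isTauCover h3) h1 h2 h3

theorem S1_openTau_openGamma_iff (X : Set ℝ) :
    S1 (OpenTau X) (OpenGamma X) ↔ X.Nonempty ∧ SG IsOpen X ∧ ST IsOpen X := by
  constructor
  · intro h
    rw [← S1_openTau_openTau_iff]
    intro 𝒰 h𝒰
    obtain ⟨U, hU1, hU2, hU3⟩ := h 𝒰 h𝒰
    exact ⟨U, hU1, hU2.isTauCover, hU3⟩
  · rintro ⟨h1, h2, h3⟩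
    exact S1_of_ST (rep_open X) (fun 𝒰 h1 h2 h3 => (rep_open X).g2 𝒰 h1 h2 h3) h1 h2 h3

theorem S1_borelTau_borelTau_iff (X : Set ℝ) :
    S1 (BorelTau X) (BorelTau X) ↔ X.Nonempty ∧ SG MeasurableSet X ∧ ST MeasurableSet X := by
  constructor
  · intro h
    refine ⟨nonempty_of_S1_borelTau h, ?_, ST_borel_of_AT (AT_of_S1 (rep_borel X) h)⟩
    rw [← S1_borelGamma_borelTau_iff_SG]
    exact S1_borelGamma_of_borelTau h
  · rintro ⟨h1, h2, h3⟩
    exact S1_of_ST (rep_borel X) (fun 𝒰 h1 h2 h3 => (rep_borel X).t2 𝒰 h1 h2.isTauCover h3) h1 h2 h3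

theorem S1_borelTau_borelGamma_iff (X : Set ℝ) :
    S1 (BorelTau X) (BorelGamma X) ↔ X.Nonempty ∧ SG MeasurableSet X ∧ ST MeasurableSet X := by
  constructor
  · intro h
    rw [← S1_borelTau_borelTau_iff]
    intro 𝒰 h𝒰
    obtain ⟨U, hU1, hU2, hU3, hU4⟩ := h 𝒰 h𝒰
    exact ⟨U, hU1, hU2, hU3.isTauCover, hU4⟩
  · rintro ⟨h1, h2, h3⟩
    exact S1_of_ST (rep_borel X) (fun 𝒰 h1 h2 h3 => (rep_borel X).g2 𝒰 h1 h2 h3) h1 h2 h3

/-! ### Additivity -/

theorem union_eq_iUnion_ite (X Y : Set ℝ) :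
    X ∪ Y = ⋃ n : ℕ, (if n = 0 then X else Y) := by
  ext x
  simp only [mem_iUnion, mem_union]
  constructor
  · rintro (h | h)
    · exact ⟨0, by simpa using h⟩
    · exact ⟨1, by simpa using h⟩
  · rintro ⟨n, hn⟩
    by_cases h0 : n = 0
    · left; simpa [h0] using hn
    · right; simpa [h0] using hn

theorem finite_of_countable_unions {P : Set ℝ → Prop} (h : PreservedUnderCountableUnions P) :
    PreservedUnderFiniteUnions P := by
  intro X Y hX hY
  rw [union_eq_iUnion_ite]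
  apply h
  intro n
  by_cases h0 : n = 0
  · simpa [h0] using hX
  · simpa [h0] using hY

theorem additive_S1_openGamma_openTau :
    PreservedUnderCountableUnions (fun X : Set ℝ => S1 (OpenGamma X) (OpenTau X)) := by
  intro X hX
  rw [S1_openGamma_openTau_iff_SG]
  exact SG_iUnion X (fun n => (S1_openGamma_openTau_iff_SG (X n)).1 (hX n))

theorem additive_S1_borelGamma_borelTau :
    PreservedUnderCountableUnions (fun X : Set ℝ => S1 (BorelGamma X) (BorelTau X)) := by
  intro X hX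
  rw [S1_borelGamma_borelTau_iff_SG]
  exact SG_iUnion X (fun n => (S1_borelGamma_borelTau_iff_SG (X n)).1 (hX n))

theorem additive_S1_openTau_openTau :
    PreservedUnderCountableUnions (fun X : Set ℝ => S1 (OpenTau X) (OpenTau X)) := by
  intro X hX
  rw [S1_openTau_openTau_iff]
  have h := fun n => (S1_openTau_openTau_iff (X n)).1 (hX n)
  refine ⟨?_, SG_iUnion X (fun n => (h n).2.1), ST_iUnion X (fun n => (h n).2.2)⟩
  obtain ⟨x, hx⟩ := (h 0).1
  exact ⟨x, mem_iUnion.2 ⟨0, hx⟩⟩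

theorem additive_S1_borelTau_borelTau :
    PreservedUnderCountableUnions (fun X : Set ℝ => S1 (BorelTau X) (BorelTau X)) := by
  intro X hX
  rw [S1_borelTau_borelTau_iff]
  have h := fun n => (S1_borelTau_borelTau_iff (X n)).1 (hX n)
  refine ⟨?_, SG_iUnion X (fun n => (h n).2.1), ST_iUnion X (fun n => (h n).2.2)⟩
  obtain ⟨x, hx⟩ := (h 0).1
  exact ⟨x, mem_iUnion.2 ⟨0, hx⟩⟩

end Pool.Agent.TauSel
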