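import Pool.Agent.helper66.TauPartition

/-!
# From the selection principles to their index versions and back
-/

set_option autoImplicit false

open Set Filter

namespace Pool.Agent.TauSel

/-! ### General facts on covers -/

theorem IsGammaCover.isTauCover {α : Type*} {𝒰 : Set (Set α)} (h : IsGammaCover 𝒰) :
    IsTauCover 𝒰 := by
  obtain ⟨hc, hinf, hfin⟩ := h
  refine ⟨hc, ?_, ?_⟩
  · intro x
    refine (hinf.sdiff (hfin x)).mono ?_
    rintro A ⟨hA, hA2⟩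
    refine ⟨hA, ?_⟩
    by_contra hx
    exact hA2 ⟨hA, hx⟩
  · intro x y
    left
    refine (hfin y).subset ?_
    rintro A ⟨hA, _, hy⟩
    exact ⟨hA, hy⟩

/-- A sequence of sets, none of them the whole space, such that each point is in all but finitely
many of them, forms a `γ`-cover. -/
theorem range_gamma {α : Type*} (U : ℕ → Set α) (hne : ∀ n, U n ≠ univ)
    (hfin : ∀ x, {n | x ∉ U n}.Finite) : IsGammaCover (range U) := by
  refine ⟨⟨?_, ?_⟩, ?_, ?_⟩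
  · refine eq_univ_of_forall ?_
    intro x
    obtain ⟨n, hn⟩ := (hfin x).infinite_compl.nonempty
    simp only [mem_compl_iff, mem_ofPred_eq, not_not] at hn
    exact ⟨U n, ⟨n, rfl⟩, hn⟩
  · rintro ⟨n, hn⟩
    exact hne n hn
  · intro hrange
    have h1 : (univ : Set ℕ).Infinite := infinite_univ
    have h2 : (univ : Set ℕ) = ⋃ S ∈ range U, {n | U n = S} := by
      ext n
      simp
    have h3 : ∃ S ∈ range U, {n | U n = S}.Infinite := by
      by_contra hcon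
      push Not at hcon
      apply h1
      rw [h2]
      exact hrange.biUnion hcon
    obtain ⟨S, ⟨m, hm⟩, hS⟩ := h3
    have hSne : S ≠ univ := by rw [← hm]; exact hne m
    obtain ⟨x, hx⟩ := (ne_univ_iff_exists_notMem S).1 hSne
    refine hS ((hfin x).subset ?_)
    intro n hn
    have : U n = S := hn
    show x ∉ U n
    rwa [this]
  · intro x
    refine ((hfin x).image U).subset ?_
    rintro _ ⟨⟨n, rfl⟩, hn⟩
    exact ⟨n, hn, rfl⟩

/-! ### Abstract families of covers -/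

/-- `𝔊`, `𝔗` are families of `γ`-covers and `τ`-covers of `X` by traces of sets in `Φ`. -/
structure Rep (Φ : Set ℝ → Prop) (X : Set ℝ) (𝔊 𝔗 : Set (Set (Set X))) : Prop where
  g1 : ∀ 𝒰 ∈ 𝔊, IsGammaCover 𝒰 ∧ ∀ A ∈ 𝒰, ∃ W, Φ W ∧ tr X W = A
  g2 : ∀ 𝒰 : Set (Set X), 𝒰.Countable → IsGammaCover 𝒰 → (∀ A ∈ 𝒰, ∃ W, Φ W ∧ tr X W = A) → 𝒰 ∈ 𝔊
  t1 : ∀ 𝒰 ∈ 𝔗, IsTauCover 𝒰 ∧ ∀ A ∈ 𝒰, ∃ W, Φ W ∧ tr X W = A
  t2 : ∀ 𝒰 : Set (Set X), 𝒰.Countable → IsTauCover 𝒰 → (∀ A ∈ 𝒰, ∃ W, Φ W ∧ tr X W = A) → 𝒰 ∈ 𝔗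
  t3 : ∀ 𝒰 ∈ 𝔗, ∃ 𝒱 : Set (Set X), 𝒱 ⊆ 𝒰 ∧ 𝒱.Countable ∧ IsTauCover 𝒱

theorem AT_of_S1 {Φ : Set ℝ → Prop} {X : Set ℝ} {𝔊 𝔗 : Set (Set (Set X))} (hR : Rep Φ X 𝔊 𝔗)
    (h : S1 𝔗 𝔗) : AT Φ X := by
  intro W I hΦ hinj hX hinf hlarge hlin
  have hmem : ∀ n, (fun i => tr X (W n i)) '' (I n) ∈ 𝔗 := by
    intro n
    apply hR.t2 _ ((to_countable (I n)).image _)
    · refine ⟨⟨?_, ?_⟩, ?_, ?_⟩
      · refine eq_univ_of_forall ?_
        intro x
        obtain ⟨i, hi, hxi⟩ := (hlarge n x.1 x.2).nonempty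
        exact ⟨tr X (W n i), ⟨i, hi, rfl⟩, hxi⟩
      · rintro ⟨i, hi, hu⟩
        apply hX n i hi
        intro x hx
        have : (⟨x, hx⟩ : X) ∈ tr X (W n i) := by
          have hu' : tr X (W n i) = univ := hu
          rw [hu']; trivial
        exact this
      · intro x
        refine ((hlarge n x.1 x.2).image ((hinj n).mono (fun i hi => hi.1))).mono ?_
        rintro _ ⟨i, ⟨hi, hxi⟩, rfl⟩
        exact ⟨⟨i, hi, rfl⟩, hxi⟩
      · intro x y
        rcases hlin n x.1 x.2 y.1 y.2 with h1 | h1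
        · left
          refine (h1.image (fun i => tr X (W n i))).subset ?_
          rintro _ ⟨⟨i, hi, rfl⟩, hx, hy⟩
          exact ⟨i, ⟨hi, hx, hy⟩, rfl⟩
        · right
          refine (h1.image (fun i => tr X (W n i))).subset ?_
          rintro _ ⟨⟨i, hi, rfl⟩, hx, hy⟩
          exact ⟨i, ⟨hi, hx, hy⟩, rfl⟩
    · rintro _ ⟨i, _, rfl⟩
      exact ⟨W n i, hΦ n i, rfl⟩
  obtain ⟨U, hU, hUT⟩ := h _ hmem
  choose g hg1 hg2 using hU
  have hrange : range (fun n => tr X (W n (g n))) = range U := by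
    congr 1
    funext n
    exact hg2 n
  obtain ⟨⟨hcov, _⟩, _, hlin'⟩ := (hR.t1 _ hUT).1
  refine ⟨g, hg1, ?_, ?_⟩
  · intro x hx
    have : (⟨x, hx⟩ : X) ∈ ⋃₀ range U := by rw [hcov]; trivial
    obtain ⟨_, ⟨n, rfl⟩, hn⟩ := this
    refine ⟨n, ?_⟩
    rw [← hg2 n] at hn
    exact hn
  · intro x y
    rw [hrange]
    exact hlin' x y

theorem AG_of_S1 {Φ : Set ℝ → Prop} {X : Set ℝ} {𝔊 𝔗 : Set (Set (Set X))} (hR : Rep Φ X 𝔊 𝔗)
    (h : S1 𝔊 𝔗) : AG Φ X := by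
  intro W hΦ hinj hX hfin
  have hmem : ∀ n, range (fun i => tr X (W n i)) ∈ 𝔊 := by
    intro n
    apply hR.g2 _ (countable_range _)
    · apply range_gamma
      · intro i hu
        apply hX n i
        intro x hx
        have : (⟨x, hx⟩ : X) ∈ tr X (W n i) := by
          rw [hu]; trivial
        exact this
      · intro x
        exact hfin n x.1 x.2
    · rintro _ ⟨i, rfl⟩
      exact ⟨W n i, hΦ n i, rfl⟩
  obtain ⟨U, hU, hUT⟩ := h _ hmem
  choose g hg2 using hU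
  have hrange : range (fun n => tr X (W n (g n))) = range U := by
    congr 1
    funext n
    exact hg2 n
  obtain ⟨⟨hcov, _⟩, _, hlin'⟩ := (hR.t1 _ hUT).1
  refine ⟨g, ?_, ?_⟩
  · intro x hx
    have : (⟨x, hx⟩ : X) ∈ ⋃₀ range U := by rw [hcov]; trivial
    obtain ⟨_, ⟨n, rfl⟩, hn⟩ := this
    refine ⟨n, ?_⟩
    rw [← hg2 n] at hn
    exact hn
  · intro x y
    rw [hrange]
    exact hlin' x y

/-- From `SG` to `S₁(Γ, 𝔙)` for every `𝔙` that contains the countable `γ`-covers. -/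
theorem S1_of_SG {Φ : Set ℝ → Prop} {X : Set ℝ} {𝔊 𝔗 𝔙 : Set (Set (Set X))} (hR : Rep Φ X 𝔊 𝔗)
    (h𝔙 : ∀ 𝒰 : Set (Set X), 𝒰.Countable → IsGammaCover 𝒰 →
      (∀ A ∈ 𝒰, ∃ W, Φ W ∧ tr X W = A) → 𝒰 ∈ 𝔙)
    (h : SG Φ X) : S1 𝔊 𝔙 := by
  intro 𝒰 h𝒰
  have h1 : ∀ n, ∃ f : ℕ → Set X, Function.Injective f ∧ ∀ m, f m ∈ 𝒰 n := by
    intro n
    have hinf := (hR.g1 _ (h𝒰 n)).1.2.1
    let e := hinf.natEmbedding
    refine ⟨fun m => (e m : Set X), ?_, fun m => (e m).2⟩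
    intro a b hab
    exact e.injective (Subtype.ext hab)
  choose f hfinj hf using h1
  have h2 : ∀ n m, ∃ W, Φ W ∧ tr X W = f n m := fun n m => (hR.g1 _ (h𝒰 n)).2 _ (hf n m)
  choose W hWΦ hW using h2
  obtain ⟨g, hg⟩ := h W hWΦ (by
    intro n x hx
    have h3 := (hR.g1 _ (h𝒰 n)).1.2.2 ⟨x, hx⟩
    refine (h3.preimage (f := f n) (hfinj n).injOn).subset ?_
    intro m hm
    refine ⟨hf n m, ?_⟩
    rw [← hW n m]
    exact hm)
  refine ⟨fun n => f n (g n), fun n => hf n (g n), ?_⟩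
  apply h𝔙 _ (countable_range _)
  · apply range_gamma
    · intro n hu
      have := (hR.g1 _ (h𝒰 n)).1.1.2
      rw [← hu] at this
      exact this (hf n (g n))
    · intro x
      refine (hg x.1 x.2).subset ?_
      intro n hn
      have h4 : x ∉ f n (g n) := hn
      rw [← hW n (g n)] at h4
      exact h4
  · rintro _ ⟨n, rfl⟩
    exact ⟨W n (g n), hWΦ _ _, hW _ _⟩

/-- From `SG` and `ST` to `S₁(T, 𝔙)` for every `𝔙` that contains the countable `γ`-covers. -/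
theorem S1_of_ST {Φ : Set ℝ → Prop} {X : Set ℝ} {𝔊 𝔗 𝔙 : Set (Set (Set X))} (hR : Rep Φ X 𝔊 𝔗)
    (h𝔙 : ∀ 𝒰 : Set (Set X), 𝒰.Countable → IsGammaCover 𝒰 →
      (∀ A ∈ 𝒰, ∃ W, Φ W ∧ tr X W = A) → 𝒰 ∈ 𝔙)
    (hne : X.Nonempty) (h : SG Φ X) (hT : ST Φ X) : S1 𝔗 𝔙 := by
  intro 𝒰 h𝒰
  obtain ⟨x₀, hx₀⟩ := hne
  -- countable subcovers
  have h0 : ∀ n, ∃ f : ℕ → Set X, Function.Injective f ∧ (∀ m, f m ∈ 𝒰 n) ∧
      IsTauCover (range f) := by
    intro n
    obtain ⟨𝒱, h1, h2, h3⟩ := hR.t3 _ (h𝒰 n)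
    have hinf : 𝒱.Infinite := (h3.2.1 ⟨x₀, hx₀⟩).mono (fun A hA => hA.1)
    have : Countable 𝒱 := h2.to_subtype
    have : Infinite 𝒱 := hinf.to_subtype
    obtain ⟨e⟩ := nonempty_denumerable 𝒱
    let e' := (Denumerable.eqv 𝒱).symm
    refine ⟨fun m => (e' m : Set X), ?_, fun m => h1 (e' m).2, ?_⟩
    · intro a b hab
      exact e'.injective (Subtype.ext hab)
    · have : range (fun m => (e' m : Set X)) = 𝒱 := by
        ext A
        constructor
        · rintro ⟨m, rfl⟩; exact (e' m).2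
        · intro hA
          obtain ⟨m, hm⟩ := e'.surjective ⟨A, hA⟩
          exact ⟨m, by simp [hm]⟩
      rw [this]
      exact h3
  choose f hfinj hf hfT using h0
  have h2 : ∀ n m, ∃ W, Φ W ∧ tr X W = f n m := fun n m => (hR.t1 _ (h𝒰 n)).2 _ (hf n m)
  choose W hWΦ hW using h2
  -- pass to `γ`-subcovers
  have h3 : ∀ n, ∃ J : Set ℕ, J.Infinite ∧ ∀ x ∈ X, {i | i ∈ J ∧ x ∉ W n i}.Finite := by
    intro n
    obtain ⟨J, _, hJ1, hJ2⟩ := hT (W n) univ (hWΦ n) infinite_univ (by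
      intro x hx
      have h4 := (hfT n).2.1 ⟨x, hx⟩
      have h5 : {A : Set X | A ∈ range (f n) ∧ (⟨x, hx⟩ : X) ∈ A} =
          f n '' {i | (⟨x, hx⟩ : X) ∈ f n i} := by
        ext A
        constructor
        · rintro ⟨⟨i, rfl⟩, hi⟩; exact ⟨i, hi, rfl⟩
        · rintro ⟨i, hi, rfl⟩; exact ⟨⟨i, rfl⟩, hi⟩
      rw [h5] at h4
      refine (h4.of_image (f n)).mono ?_
      intro i hi
      refine ⟨trivial, ?_⟩
      have h6 : (⟨x, hx⟩ : X) ∈ f n i := hi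
      rw [← hW n i] at h6
      exact h6) (by
      intro x hx y hy
      rcases (hfT n).2.2 ⟨x, hx⟩ ⟨y, hy⟩ with h4 | h4
      · left
        refine (h4.preimage (f := f n) (hfinj n).injOn).subset ?_
        rintro i ⟨_, h5, h6⟩
        refine ⟨⟨i, rfl⟩, ?_, ?_⟩
        · rw [← hW n i]; exact h5
        · rw [← hW n i]; exact h6
      · right
        refine (h4.preimage (f := f n) (hfinj n).injOn).subset ?_
        rintro i ⟨_, h5, h6⟩
        refine ⟨⟨i, rfl⟩, ?_, ?_⟩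
        · rw [← hW n i]; exact h5
        · rw [← hW n i]; exact h6)
    exact ⟨J, hJ1, hJ2⟩
  choose J hJinf hJ using h3
  let E : ∀ n, ℕ ↪ J n := fun n => Set.Infinite.natEmbedding (J n) (hJinf n)
  obtain ⟨g, hg⟩ := h (fun n m => W n ((E n m : J n) : ℕ)) (fun n m => hWΦ _ _) (by
    intro n x hx
    have h4 := (hJ n x hx).preimage (f := fun m => ((E n m : J n) : ℕ)) (by
      intro a _ b _ hab
      exact (E n).injective (Subtype.ext hab))
    refine h4.subset ?_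
    intro m hm
    exact ⟨(E n m).2, hm⟩)
  refine ⟨fun n => f n ((E n (g n) : J n) : ℕ), fun n => hf n _, ?_⟩
  apply h𝔙 _ (countable_range _)
  · apply range_gamma
    · intro n hu
      have := (hR.t1 _ (h𝒰 n)).1.1.2
      rw [← hu] at this
      exact this (hf n _)
    · intro x
      refine (hg x.1 x.2).subset ?_
      intro n hn
      have h4 : x ∉ f n ((E n (g n) : J n) : ℕ) := hn
      rw [← hW n _] at h4
      exact h4
  · rintro _ ⟨n, rfl⟩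
    exact ⟨W n _, hWΦ _ _, hW _ _⟩

/-! ### The open case -/

/-- Every large open cover of a second countable space contains a countable large subfamily. -/
theorem countable_large {α : Type*} [TopologicalSpace α] [SecondCountableTopology α]
    {𝒰 : Set (Set α)} (hopen : ∀ A ∈ 𝒰, IsOpen A) (hlarge : IsLarge 𝒰) :
    ∃ 𝒱 : Set (Set α), 𝒱 ⊆ 𝒰 ∧ 𝒱.Countable ∧ IsLarge 𝒱 := by
  have h1 : ∀ b : Set α, ∃ 𝒱 : Set (Set α), 𝒱 ⊆ {A | A ∈ 𝒰 ∧ b ⊆ A} ∧ 𝒱.Countable ∧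
      (𝒱.Finite → 𝒱 = {A | A ∈ 𝒰 ∧ b ⊆ A}) := by
    intro b
    by_cases hfin : {A | A ∈ 𝒰 ∧ b ⊆ A}.Finite
    · exact ⟨_, Subset.rfl, hfin.countable, fun _ => rfl⟩
    · let e := Set.Infinite.natEmbedding {A | A ∈ 𝒰 ∧ b ⊆ A} hfin
      refine ⟨range (fun n => (e n : Set α)), ?_, countable_range _, ?_⟩
      · rintro _ ⟨n, rfl⟩; exact (e n).2
      · intro hf
        exfalso
        refine Set.infinite_range_of_injective (f := fun n => (e n : Set α)) ?_ hf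
        intro m n hmn
        exact e.injective (Subtype.ext hmn)
  choose V hV1 hV2 hV3 using h1
  refine ⟨⋃ b ∈ TopologicalSpace.countableBasis α, V b, ?_, ?_, ?_⟩
  · intro A hA
    simp only [mem_iUnion] at hA
    obtain ⟨b, _, hA⟩ := hA
    exact (hV1 b hA).1
  · exact (TopologicalSpace.countable_countableBasis α).biUnion (fun b _ => hV2 b)
  · intro x hfin
    have hsub : {A | A ∈ 𝒰 ∧ x ∈ A} ⊆
        {A | A ∈ (⋃ b ∈ TopologicalSpace.countableBasis α, V b) ∧ x ∈ A} := by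
      rintro A ⟨hA, hxA⟩
      refine ⟨?_, hxA⟩
      obtain ⟨b, hb, hxb, hbA⟩ :=
        (TopologicalSpace.isBasis_countableBasis α).exists_subset_of_mem_open hxA (hopen A hA)
      simp only [mem_iUnion]
      refine ⟨b, hb, ?_⟩
      have hfinb : (V b).Finite := by
        refine hfin.subset ?_
        intro B hB
        refine ⟨?_, (hV1 b hB).2 hxb⟩
        simp only [mem_iUnion]
        exact ⟨b, hb, hB⟩
      rw [hV3 b hfinb]
      exact ⟨hA, hbA⟩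
    exact hlarge x (hfin.subset hsub)

theorem isTauCover_of_large {α : Type*} {𝒰 𝒱 : Set (Set α)} (h𝒰 : IsTauCover 𝒰) (hsub : 𝒱 ⊆ 𝒰)
    (hlarge : IsLarge 𝒱) : IsTauCover 𝒱 := by
  refine ⟨⟨?_, fun h => h𝒰.1.2 (hsub h)⟩, hlarge, ?_⟩
  · refine eq_univ_of_forall ?_
    intro x
    obtain ⟨A, hA, hxA⟩ := (hlarge x).nonempty
    exact ⟨A, hA, hxA⟩
  · intro x y
    rcases h𝒰.2.2 x y with h | h
    · left; exact h.subset (fun A hA => ⟨hsub hA.1, hA.2⟩)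
    · right; exact h.subset (fun A hA => ⟨hsub hA.1, hA.2⟩)

theorem rep_open (X : Set ℝ) : Rep IsOpen X (OpenGamma X) (OpenTau X) where
  g1 := by
    rintro 𝒰 ⟨h1, h2⟩
    refine ⟨h1, fun A hA => ?_⟩
    obtain ⟨W, hW, rfl⟩ := isOpen_induced_iff.1 (h2 A hA)
    exact ⟨W, hW, rfl⟩
  g2 := by
    intro 𝒰 _ h1 h2
    refine ⟨h1, fun A hA => ?_⟩
    obtain ⟨W, hW, rfl⟩ := h2 A hA
    exact hW.preimage continuous_subtype_val
  t1 := by
    rintro 𝒰 ⟨h1, h2⟩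
    refine ⟨h1, fun A hA => ?_⟩
    obtain ⟨W, hW, rfl⟩ := isOpen_induced_iff.1 (h2 A hA)
    exact ⟨W, hW, rfl⟩
  t2 := by
    intro 𝒰 _ h1 h2
    refine ⟨h1, fun A hA => ?_⟩
    obtain ⟨W, hW, rfl⟩ := h2 A hA
    exact hW.preimage continuous_subtype_val
  t3 := by
    rintro 𝒰 ⟨h1, h2⟩
    obtain ⟨𝒱, h3, h4, h5⟩ := countable_large h2 h1.2.1
    exact ⟨𝒱, h3, h4, isTauCover_of_large h1 h3 h5⟩

theorem rep_borel (X : Set ℝ) : Rep MeasurableSet X (BorelGamma X) (BorelTau X) := by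
  have key : ∀ A : Set X, @MeasurableSet X (borel X) A ↔
      ∃ W : Set ℝ, MeasurableSet W ∧ tr X W = A := by
    intro A
    have h1 : borel X = (borel ℝ).comap (Subtype.val : X → ℝ) := borel_comap
    rw [h1]
    constructor
    · rintro ⟨W, hW, hWA⟩
      refine ⟨W, ?_, hWA⟩
      have h2 : (inferInstance : MeasurableSpace ℝ) = borel ℝ := BorelSpace.measurable_eq
      show @MeasurableSet ℝ (inferInstance : MeasurableSpace ℝ) W
      rw [h2]
      exact hW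
    · rintro ⟨W, hW, hWA⟩
      refine ⟨W, ?_, hWA⟩
      have h2 : (inferInstance : MeasurableSpace ℝ) = borel ℝ := BorelSpace.measurable_eq
      have hW' : @MeasurableSet ℝ (inferInstance : MeasurableSpace ℝ) W := hW
      rw [h2] at hW'
      exact hW'
  exact {
    g1 := by
      rintro 𝒰 ⟨_, h1, h2⟩
      exact ⟨h1, fun A hA => (key A).1 (h2 A hA)⟩
    g2 := by
      intro 𝒰 h0 h1 h2
      exact ⟨h0, h1, fun A hA => (key A).2 (h2 A hA)⟩
    t1 := by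
      rintro 𝒰 ⟨_, h1, h2⟩
      exact ⟨h1, fun A hA => (key A).1 (h2 A hA)⟩
    t2 := by
      intro 𝒰 h0 h1 h2
      exact ⟨h0, h1, fun A hA => (key A).2 (h2 A hA)⟩
    t3 := by
      rintro 𝒰 ⟨h0, h1, _⟩
      exact ⟨𝒰, Subset.rfl, h0, h1⟩ }

end Pool.Agent.TauSel
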