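import Pool.Agent.helper66.TauCore

/-!
# The partition lemmas

If `X` is the union of two disjoint (relatively clopen, or Borel) pieces and `X` satisfies
`S₁(Γ, T)` then one of the pieces satisfies `S₁(Γ, Γ)`; similarly for `S₁(T, T)`.
-/

set_option autoImplicit false

open Set Filter

namespace Pool.Agent.TauSel

/-- The trace on `X` of an ambient set. -/
abbrev tr (X : Set ℝ) (W : Set ℝ) : Set X := Subtype.val ⁻¹' W

/-- `S₁(T, T)`, applied to families with ambient representatives. -/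
def AT (Φ : Set ℝ → Prop) (X : Set ℝ) : Prop :=
  ∀ (W : ℕ → ℕ → Set ℝ) (I : ℕ → Set ℕ), (∀ n i, Φ (W n i)) →
    (∀ n, Set.InjOn (fun i => tr X (W n i)) (I n)) →
    (∀ n, ∀ i ∈ I n, ¬ X ⊆ W n i) →
    (∀ n, (I n).Infinite) →
    (∀ n, ∀ x ∈ X, {i | i ∈ I n ∧ x ∈ W n i}.Infinite) →
    (∀ n, ∀ x ∈ X, ∀ y ∈ X, {i | i ∈ I n ∧ x ∈ W n i ∧ y ∉ W n i}.Finite ∨
      {i | i ∈ I n ∧ y ∈ W n i ∧ x ∉ W n i}.Finite) →
    ∃ g : ℕ → ℕ, (∀ n, g n ∈ I n) ∧ (∀ x ∈ X, ∃ n, x ∈ W n (g n)) ∧ ∀ x y : X,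
      {S : Set X | S ∈ range (fun n => tr X (W n (g n))) ∧ x ∈ S ∧ y ∉ S}.Finite ∨
      {S : Set X | S ∈ range (fun n => tr X (W n (g n))) ∧ y ∈ S ∧ x ∉ S}.Finite

/-- `S₁(Γ, T)`, applied to families with ambient representatives. -/
def AG (Φ : Set ℝ → Prop) (X : Set ℝ) : Prop :=
  ∀ (W : ℕ → ℕ → Set ℝ), (∀ n i, Φ (W n i)) →
    (∀ n, Function.Injective (fun i => tr X (W n i))) →
    (∀ n i, ¬ X ⊆ W n i) →
    (∀ n, ∀ x ∈ X, {i | x ∉ W n i}.Finite) →
    ∃ g : ℕ → ℕ, (∀ x ∈ X, ∃ n, x ∈ W n (g n)) ∧ ∀ x y : X,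
      {S : Set X | S ∈ range (fun n => tr X (W n (g n))) ∧ x ∈ S ∧ y ∉ S}.Finite ∨
      {S : Set X | S ∈ range (fun n => tr X (W n (g n))) ∧ y ∈ S ∧ x ∉ S}.Finite

theorem AG_of_AT {Φ : Set ℝ → Prop} {X : Set ℝ} (h : AT Φ X) : AG Φ X := by
  intro W hΦ hinj hX hfin
  obtain ⟨g, _, h2, h3⟩ := h W (fun _ => univ) hΦ (fun n => (hinj n).injOn)
    (fun n i _ => hX n i) (fun _ => infinite_univ) (by
      intro n x hx
      have h1 := (hfin n x hx).infinite_compl
      refine h1.mono ?_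
      intro i hi
      simp only [mem_compl_iff, mem_ofPred_eq, not_not] at hi
      exact ⟨trivial, hi⟩) (by
      intro n x _ y hy
      left
      refine (hfin n y hy).subset ?_
      rintro i ⟨_, _, hi⟩
      exact hi)
  exact ⟨g, h2, h3⟩

/-- If `y` is in almost all `S k`, and `x` is outside infinitely many `S k`, the `S k` being
distinct members of `R`, then infinitely many members of `R` contain `y` and not `x`. -/
theorem half_infinite {X : Set ℝ} (x y : X) (S : ℕ → Set X) (R : Set (Set X))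
    (hS : ∀ k, S k ∈ R) (hinj : Function.Injective S) (hy : {k | y ∉ S k}.Finite)
    (hx : {k | x ∉ S k}.Infinite) : {T : Set X | T ∈ R ∧ y ∈ T ∧ x ∉ T}.Infinite := by
  have h1 := (hx.sdiff hy).image (f := S) hinj.injOn
  refine h1.mono ?_
  rintro _ ⟨k, ⟨hk1, hk2⟩, rfl⟩
  refine ⟨hS k, ?_, hk1⟩
  by_contra h
  exact hk2 h

/-- The combined covers: on the piece `A` the given set, on the piece `B` everything but the
point `b`. -/
def comb (A B U : Set ℝ) (b : ℝ) : Set ℝ := (U ∩ A) ∪ (B \ {b})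

theorem comb_mem_left {A B U : Set ℝ} {b x : ℝ} (hA : x ∈ A) (hB : x ∉ B) :
    x ∈ comb A B U b ↔ x ∈ U := by
  simp [comb, hA, hB]

theorem comb_mem_right {A B U : Set ℝ} {b x : ℝ} (hA : x ∉ A) (hB : x ∈ B) :
    x ∈ comb A B U b ↔ x ≠ b := by
  simp [comb, hA, hB]

theorem pieces_infinite {Q : Set ℝ → Prop}
    (hσ : ∀ X : ℕ → Set ℝ, (∀ n, Q (X n)) → Q (⋃ n, X n))
    (hs : ∀ s : Set ℝ, s.Subsingleton → Q s) {Y : Set ℝ} (hY : ¬ Q Y) :
    ∃ a : ℕ → ℝ, Function.Injective a ∧ ∀ n, a n ∈ Y := by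
  have hinf : Y.Infinite := by
    intro hfin
    exact hY (Q_countable hσ hs hfin.countable)
  let e := hinf.natEmbedding
  refine ⟨fun n => (e n : ℝ), ?_, fun n => (e n).2⟩
  intro m n hmn
  exact e.injective (Subtype.ext hmn)

/-- From the selected combined covers: the dichotomy. `S0 k` is the selected set of number `2 k`,
`S1 k` the one of number `2 k + 1`. -/
theorem dichotomy {X A B : Set ℝ} (hdis : ∀ x ∈ X, x ∈ A → x ∉ B) (S : ℕ → Set ℝ)
    (U V : ℕ → Set ℝ) (a b : ℕ → ℝ) (ha : Function.Injective a) (hb : Function.Injective b)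
    (haA : ∀ n, a n ∈ X ∩ A) (hbB : ∀ n, b n ∈ X ∩ B)
    (hS0 : ∀ k, S (2 * k) = comb A B (U k) (b k)) (hS1 : ∀ k, S (2 * k + 1) = comb B A (V k) (a k))
    (hlin : ∀ x y : X,
      {T : Set X | T ∈ range (fun n => tr X (S n)) ∧ x ∈ T ∧ y ∉ T}.Finite ∨
      {T : Set X | T ∈ range (fun n => tr X (S n)) ∧ y ∈ T ∧ x ∉ T}.Finite) :
    (∀ x ∈ X ∩ A, {k | x ∉ U k}.Finite) ∨ (∀ y ∈ X ∩ B, {k | y ∉ V k}.Finite) := by
  have hdis' : ∀ x ∈ X, x ∈ B → x ∉ A := fun x hx hxB hxA => hdis x hx hxA hxB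
  by_contra hcon
  push Not at hcon
  obtain ⟨⟨x, hx, hxinf⟩, ⟨y, hy, hyinf⟩⟩ := hcon
  -- traces
  have hinj0 : Function.Injective (fun k => tr X (S (2 * k))) := by
    intro k l hkl
    have h1 : (⟨b k, (hbB k).1⟩ : X) ∉ tr X (S (2 * k)) := by
      show b k ∉ S (2 * k)
      rw [hS0, comb_mem_right (hdis' _ (hbB k).1 (hbB k).2) (hbB k).2]
      simp
    have h2 : (⟨b k, (hbB k).1⟩ : X) ∉ tr X (S (2 * l)) := by
      have : tr X (S (2 * k)) = tr X (S (2 * l)) := hkl
      rwa [this] at h1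
    have h3 : b k ∉ S (2 * l) := h2
    rw [hS0, comb_mem_right (hdis' _ (hbB k).1 (hbB k).2) (hbB k).2, not_not] at h3
    exact hb h3
  have hinj1 : Function.Injective (fun k => tr X (S (2 * k + 1))) := by
    intro k l hkl
    have h1 : (⟨a k, (haA k).1⟩ : X) ∉ tr X (S (2 * k + 1)) := by
      show a k ∉ S (2 * k + 1)
      rw [hS1, comb_mem_right (hdis _ (haA k).1 (haA k).2) (haA k).2]
      simp
    have h2 : (⟨a k, (haA k).1⟩ : X) ∉ tr X (S (2 * l + 1)) := by
      have : tr X (S (2 * k + 1)) = tr X (S (2 * l + 1)) := hkl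
      rwa [this] at h1
    have h3 : a k ∉ S (2 * l + 1) := h2
    rw [hS1, comb_mem_right (hdis _ (haA k).1 (haA k).2) (haA k).2, not_not] at h3
    exact ha h3
  have hxB : x ∉ B := hdis x hx.1 hx.2
  have hyA : y ∉ A := hdis' y hy.1 hy.2
  have e1 := half_infinite (⟨x, hx.1⟩ : X) (⟨y, hy.1⟩ : X) (fun k => tr X (S (2 * k)))
    (range (fun n => tr X (S n))) (fun k => ⟨2 * k, rfl⟩) hinj0 (by
      have hsub : {k | y = b k}.Subsingleton := by
        intro k hk l hl
        exact hb ((show b k = y from hk.symm).trans hl)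
      refine hsub.finite.subset ?_
      intro k hk
      have h3 : y ∉ S (2 * k) := hk
      rwa [hS0, comb_mem_right hyA hy.2, not_not] at h3) (by
      refine hxinf.mono ?_
      intro k hk
      show x ∉ S (2 * k)
      rwa [hS0, comb_mem_left hx.2 hxB])
  have e2 := half_infinite (⟨y, hy.1⟩ : X) (⟨x, hx.1⟩ : X) (fun k => tr X (S (2 * k + 1)))
    (range (fun n => tr X (S n))) (fun k => ⟨2 * k + 1, rfl⟩) hinj1 (by
      have hsub : {k | x = a k}.Subsingleton := by
        intro k hk l hl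
        exact ha ((show a k = x from hk.symm).trans hl)
      refine hsub.finite.subset ?_
      intro k hk
      have h3 : x ∉ S (2 * k + 1) := hk
      rwa [hS1, comb_mem_right hxB hx.2, not_not] at h3) (by
      refine hyinf.mono ?_
      intro k hk
      show y ∉ S (2 * k + 1)
      rwa [hS1, comb_mem_left hy.2 hyA])
  rcases hlin (⟨x, hx.1⟩ : X) (⟨y, hy.1⟩ : X) with h | h
  · exact e2 h
  · exact e1 h

/-- The partition lemma for `S₁(Γ, T)`. -/
theorem partition_SG {Φ : Set ℝ → Prop} (hun : ∀ A B, Φ A → Φ B → Φ (A ∪ B))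
    (hint : ∀ A B, Φ A → Φ B → Φ (A ∩ B)) (hpt : ∀ A x, Φ A → Φ (A \ {x}))
    {X A B : Set ℝ} (hA : Φ A) (hB : Φ B) (hcov : X ⊆ A ∪ B) (hdis : ∀ x ∈ X, x ∈ A → x ∉ B)
    (hX : AG Φ X) : SG Φ (X ∩ A) ∨ SG Φ (X ∩ B) := by
  have hdis' : ∀ x ∈ X, x ∈ B → x ∉ A := fun x hx hxB hxA => hdis x hx hxA hxB
  by_contra hcon
  push Not at hcon
  obtain ⟨hnA, hnB⟩ := hcon
  obtain ⟨a, ha, haA⟩ := pieces_infinite (Q := SG Φ) SG_iUnion SG_subsingleton hnA
  obtain ⟨b, hb, hbB⟩ := pieces_infinite (Q := SG Φ) SG_iUnion SG_subsingleton hnB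
  unfold SG at hnA hnB
  push Not at hnA hnB
  obtain ⟨U, hUΦ, hUfin, hUno⟩ := hnA
  obtain ⟨V, hVΦ, hVfin, hVno⟩ := hnB
  let W : ℕ → ℕ → Set ℝ := fun n i =>
    if n % 2 = 0 then comb A B (U (n / 2) i) (b (Nat.pair (n / 2) i))
    else comb B A (V (n / 2) i) (a (Nat.pair (n / 2) i))
  have hW0 : ∀ k i, W (2 * k) i = comb A B (U k i) (b (Nat.pair k i)) := by
    intro k i
    have h1 : (2 * k) % 2 = 0 := by omega
    have h2 : (2 * k) / 2 = k := by omega
    simp only [W, h1, if_true, h2]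
  have hW1 : ∀ k i, W (2 * k + 1) i = comb B A (V k i) (a (Nat.pair k i)) := by
    intro k i
    have h1 : ¬ (2 * k + 1) % 2 = 0 := by omega
    have h2 : (2 * k + 1) / 2 = k := by omega
    simp only [W, h1, if_false, h2]
  have hpar : ∀ n, (∃ k, n = 2 * k) ∨ (∃ k, n = 2 * k + 1) := by
    intro n
    rcases Nat.even_or_odd' n with ⟨k, h | h⟩
    · exact Or.inl ⟨k, h⟩
    · exact Or.inr ⟨k, h⟩
  obtain ⟨g, _, hlin⟩ := hX W (by
      intro n i
      rcases hpar n with ⟨k, rfl⟩ | ⟨k, rfl⟩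
      · rw [hW0]
        exact hun _ _ (hint _ _ (hUΦ _ _) hA) (hpt _ _ hB)
      · rw [hW1]
        exact hun _ _ (hint _ _ (hVΦ _ _) hB) (hpt _ _ hA)) (by
      intro n i j hij
      rcases hpar n with ⟨k, rfl⟩ | ⟨k, rfl⟩
      · have h1 : (⟨b (Nat.pair k i), (hbB _).1⟩ : X) ∉ tr X (W (2 * k) i) := by
          show b (Nat.pair k i) ∉ W (2 * k) i
          rw [hW0, comb_mem_right (hdis' _ (hbB _).1 (hbB _).2) (hbB _).2]
          simp
        have h2 : tr X (W (2 * k) i) = tr X (W (2 * k) j) := hij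
        rw [h2] at h1
        have h3 : b (Nat.pair k i) ∉ W (2 * k) j := h1
        rw [hW0, comb_mem_right (hdis' _ (hbB _).1 (hbB _).2) (hbB _).2, not_not] at h3
        exact (Nat.pair_eq_pair.1 (hb h3)).2
      · have h1 : (⟨a (Nat.pair k i), (haA _).1⟩ : X) ∉ tr X (W (2 * k + 1) i) := by
          show a (Nat.pair k i) ∉ W (2 * k + 1) i
          rw [hW1, comb_mem_right (hdis _ (haA _).1 (haA _).2) (haA _).2]
          simp
        have h2 : tr X (W (2 * k + 1) i) = tr X (W (2 * k + 1) j) := hij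
        rw [h2] at h1
        have h3 : a (Nat.pair k i) ∉ W (2 * k + 1) j := h1
        rw [hW1, comb_mem_right (hdis _ (haA _).1 (haA _).2) (haA _).2, not_not] at h3
        exact (Nat.pair_eq_pair.1 (ha h3)).2) (by
      intro n i hsub
      rcases hpar n with ⟨k, rfl⟩ | ⟨k, rfl⟩
      · have h1 := hsub (hbB (Nat.pair k i)).1
        rw [hW0, comb_mem_right (hdis' _ (hbB _).1 (hbB _).2) (hbB _).2] at h1
        exact h1 rfl
      · have h1 := hsub (haA (Nat.pair k i)).1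
        rw [hW1, comb_mem_right (hdis _ (haA _).1 (haA _).2) (haA _).2] at h1
        exact h1 rfl) (by
      intro n x hx
      rcases hpar n with ⟨k, rfl⟩ | ⟨k, rfl⟩
      · rcases hcov hx with hxA | hxB
        · refine (hUfin k x ⟨hx, hxA⟩).subset ?_
          intro i hi
          have h1 : x ∉ W (2 * k) i := hi
          rwa [hW0, comb_mem_left hxA (hdis x hx hxA)] at h1
        · have hsub : {i | x = b (Nat.pair k i)}.Subsingleton := by
            intro i hi j hj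
            have h1 : b (Nat.pair k i) = b (Nat.pair k j) := (show b _ = x from hi.symm).trans hj
            exact (Nat.pair_eq_pair.1 (hb h1)).2
          refine hsub.finite.subset ?_
          intro i hi
          have h1 : x ∉ W (2 * k) i := hi
          rwa [hW0, comb_mem_right (hdis' x hx hxB) hxB, not_not] at h1
      · rcases hcov hx with hxA | hxB
        · have hsub : {i | x = a (Nat.pair k i)}.Subsingleton := by
            intro i hi j hj
            have h1 : a (Nat.pair k i) = a (Nat.pair k j) := (show a _ = x from hi.symm).trans hj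
            exact (Nat.pair_eq_pair.1 (ha h1)).2
          refine hsub.finite.subset ?_
          intro i hi
          have h1 : x ∉ W (2 * k + 1) i := hi
          rwa [hW1, comb_mem_right (hdis x hx hxA) hxA, not_not] at h1
        · refine (hVfin k x ⟨hx, hxB⟩).subset ?_
          intro i hi
          have h1 : x ∉ W (2 * k + 1) i := hi
          rwa [hW1, comb_mem_left hxB (hdis' x hx hxB)] at h1)
  have hpairinj : ∀ (f : ℕ → ℕ), Function.Injective (fun k => Nat.pair k (f k)) := by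
    intro f k l hkl
    exact (Nat.pair_eq_pair.1 hkl).1
  rcases dichotomy hdis (fun n => W n (g n)) (fun k => U k (g (2 * k)))
    (fun k => V k (g (2 * k + 1))) (fun k => a (Nat.pair k (g (2 * k + 1))))
    (fun k => b (Nat.pair k (g (2 * k)))) (ha.comp (hpairinj _)) (hb.comp (hpairinj _))
    (fun n => haA _) (fun n => hbB _) (fun k => hW0 _ _) (fun k => hW1 _ _) hlin with h | h
  · obtain ⟨x, hx, hxinf⟩ := hUno (fun k => g (2 * k))
    exact hxinf (h x hx)
  · obtain ⟨y, hy, hyinf⟩ := hVno (fun k => g (2 * k + 1))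
    exact hyinf (h y hy)

/-- The partition lemma for `S₁(T, T)`. -/
theorem partition_ST {Φ : Set ℝ → Prop} (hun : ∀ A B, Φ A → Φ B → Φ (A ∪ B))
    (hint : ∀ A B, Φ A → Φ B → Φ (A ∩ B)) (hpt : ∀ A x, Φ A → Φ (A \ {x}))
    {X A B : Set ℝ} (hA : Φ A) (hB : Φ B) (hcov : X ⊆ A ∪ B) (hdis : ∀ x ∈ X, x ∈ A → x ∉ B)
    (hX : AT Φ X) : ST Φ (X ∩ A) ∨ ST Φ (X ∩ B) := by
  have hdis' : ∀ x ∈ X, x ∈ B → x ∉ A := fun x hx hxB hxA => hdis x hx hxA hxB
  by_contra hcon
  push Not at hcon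
  obtain ⟨hnA, hnB⟩ := hcon
  obtain ⟨a, ha, haA⟩ := pieces_infinite (Q := ST Φ) ST_iUnion ST_subsingleton hnA
  obtain ⟨b, hb, hbB⟩ := pieces_infinite (Q := ST Φ) ST_iUnion ST_subsingleton hnB
  unfold ST at hnA hnB
  push Not at hnA hnB
  obtain ⟨U, K, hUΦ, hKinf, hUlarge, hUlin, hUno⟩ := hnA
  obtain ⟨V, L, hVΦ, hLinf, hVlarge, hVlin, hVno⟩ := hnB
  let W : ℕ → ℕ → Set ℝ := fun n i =>
    if n % 2 = 0 then comb A B (U i) (b (Nat.pair (n / 2) i))
    else comb B A (V i) (a (Nat.pair (n / 2) i))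
  let I : ℕ → Set ℕ := fun n => if n % 2 = 0 then K \ Iic (n / 2) else L \ Iic (n / 2)
  have hW0 : ∀ k i, W (2 * k) i = comb A B (U i) (b (Nat.pair k i)) := by
    intro k i
    have h1 : (2 * k) % 2 = 0 := by omega
    have h2 : (2 * k) / 2 = k := by omega
    simp only [W, h1, if_true, h2]
  have hW1 : ∀ k i, W (2 * k + 1) i = comb B A (V i) (a (Nat.pair k i)) := by
    intro k i
    have h1 : ¬ (2 * k + 1) % 2 = 0 := by omega
    have h2 : (2 * k + 1) / 2 = k := by omega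
    simp only [W, h1, if_false, h2]
  have hI0 : ∀ k, I (2 * k) = K \ Iic k := by
    intro k
    have h1 : (2 * k) % 2 = 0 := by omega
    have h2 : (2 * k) / 2 = k := by omega
    simp only [I, h1, if_true, h2]
  have hI1 : ∀ k, I (2 * k + 1) = L \ Iic k := by
    intro k
    have h1 : ¬ (2 * k + 1) % 2 = 0 := by omega
    have h2 : (2 * k + 1) / 2 = k := by omega
    simp only [I, h1, if_false, h2]
  have hpar : ∀ n, (∃ k, n = 2 * k) ∨ (∃ k, n = 2 * k + 1) := by
    intro n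
    rcases Nat.even_or_odd' n with ⟨k, h | h⟩
    · exact Or.inl ⟨k, h⟩
    · exact Or.inr ⟨k, h⟩
  have hbsub : ∀ (x : ℝ) (k : ℕ), {i | x = b (Nat.pair k i)}.Finite := by
    intro x k
    have hsub : {i | x = b (Nat.pair k i)}.Subsingleton := by
      intro i hi j hj
      have h1 : b (Nat.pair k i) = b (Nat.pair k j) := (show b _ = x from hi.symm).trans hj
      exact (Nat.pair_eq_pair.1 (hb h1)).2
    exact hsub.finite
  have hasub : ∀ (x : ℝ) (k : ℕ), {i | x = a (Nat.pair k i)}.Finite := by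
    intro x k
    have hsub : {i | x = a (Nat.pair k i)}.Subsingleton := by
      intro i hi j hj
      have h1 : a (Nat.pair k i) = a (Nat.pair k j) := (show a _ = x from hi.symm).trans hj
      exact (Nat.pair_eq_pair.1 (ha h1)).2
    exact hsub.finite
  -- one half of the largeness and linearity conditions, in general form
  have large_half : ∀ (A' B' : Set ℝ) (U' : ℕ → Set ℝ) (K' : Set ℕ) (b' : ℕ → ℝ) (k : ℕ),
      (∀ x ∈ X, x ∈ A' → x ∉ B') → (∀ x ∈ X, x ∈ B' → x ∉ A') → X ⊆ A' ∪ B' →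
      (∀ (x : ℝ) (k : ℕ), {i | x = b' (Nat.pair k i)}.Finite) → K'.Infinite →
      (∀ x ∈ X ∩ A', {i | i ∈ K' ∧ x ∈ U' i}.Infinite) →
      ∀ x ∈ X, {i | i ∈ K' \ Iic k ∧ x ∈ comb A' B' (U' i) (b' (Nat.pair k i))}.Infinite := by
    intro A' B' U' K' b' k hd hd' hc hb' hK' hl x hx
    rcases hc hx with hxA | hxB
    · refine ((hl x ⟨hx, hxA⟩).sdiff (finite_Iic k)).mono ?_
      rintro i ⟨⟨hi1, hi2⟩, hi3⟩
      refine ⟨⟨hi1, hi3⟩, ?_⟩
      rwa [comb_mem_left hxA (hd x hx hxA)]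
    · refine ((hK'.sdiff (finite_Iic k)).sdiff (hb' x k)).mono ?_
      rintro i ⟨hi1, hi2⟩
      refine ⟨hi1, ?_⟩
      rw [comb_mem_right (hd' x hx hxB) hxB]
      exact hi2
  have lin_half : ∀ (A' B' : Set ℝ) (U' : ℕ → Set ℝ) (K' : Set ℕ) (b' : ℕ → ℝ) (k : ℕ),
      (∀ x ∈ X, x ∈ A' → x ∉ B') → (∀ x ∈ X, x ∈ B' → x ∉ A') → X ⊆ A' ∪ B' →
      (∀ (x : ℝ) (k : ℕ), {i | x = b' (Nat.pair k i)}.Finite) →
      (∀ x ∈ X ∩ A', ∀ y ∈ X ∩ A', {i | i ∈ K' ∧ x ∈ U' i ∧ y ∉ U' i}.Finite ∨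
        {i | i ∈ K' ∧ y ∈ U' i ∧ x ∉ U' i}.Finite) →
      ∀ x ∈ X, ∀ y ∈ X,
        {i | i ∈ K' \ Iic k ∧ x ∈ comb A' B' (U' i) (b' (Nat.pair k i)) ∧
          y ∉ comb A' B' (U' i) (b' (Nat.pair k i))}.Finite ∨
        {i | i ∈ K' \ Iic k ∧ y ∈ comb A' B' (U' i) (b' (Nat.pair k i)) ∧
          x ∉ comb A' B' (U' i) (b' (Nat.pair k i))}.Finite := by
    intro A' B' U' K' b' k hd hd' hc hb' hl x hx y hy
    rcases hc hy with hyA | hyB
    · rcases hc hx with hxA | hxB
      · rcases hl x ⟨hx, hxA⟩ y ⟨hy, hyA⟩ with h | h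
        · left
          refine h.subset ?_
          rintro i ⟨⟨hi1, _⟩, hi2, hi3⟩
          rw [comb_mem_left hxA (hd x hx hxA)] at hi2
          rw [comb_mem_left hyA (hd y hy hyA)] at hi3
          exact ⟨hi1, hi2, hi3⟩
        · right
          refine h.subset ?_
          rintro i ⟨⟨hi1, _⟩, hi2, hi3⟩
          rw [comb_mem_left hyA (hd y hy hyA)] at hi2
          rw [comb_mem_left hxA (hd x hx hxA)] at hi3
          exact ⟨hi1, hi2, hi3⟩
      · right
        refine (hb' x k).subset ?_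
        rintro i ⟨_, _, hi3⟩
        rw [comb_mem_right (hd' x hx hxB) hxB, not_not] at hi3
        exact hi3
    · left
      refine (hb' y k).subset ?_
      rintro i ⟨_, _, hi3⟩
      rw [comb_mem_right (hd' y hy hyB) hyB, not_not] at hi3
      exact hi3
  obtain ⟨g, hgI, _, hlin⟩ := hX W I (by
      intro n i
      rcases hpar n with ⟨k, rfl⟩ | ⟨k, rfl⟩
      · rw [hW0]
        exact hun _ _ (hint _ _ (hUΦ _) hA) (hpt _ _ hB)
      · rw [hW1]
        exact hun _ _ (hint _ _ (hVΦ _) hB) (hpt _ _ hA)) (by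
      intro n i _ j _ hij
      rcases hpar n with ⟨k, rfl⟩ | ⟨k, rfl⟩
      · have h1 : (⟨b (Nat.pair k i), (hbB _).1⟩ : X) ∉ tr X (W (2 * k) i) := by
          show b (Nat.pair k i) ∉ W (2 * k) i
          rw [hW0, comb_mem_right (hdis' _ (hbB _).1 (hbB _).2) (hbB _).2]
          simp
        have h2 : tr X (W (2 * k) i) = tr X (W (2 * k) j) := hij
        rw [h2] at h1
        have h3 : b (Nat.pair k i) ∉ W (2 * k) j := h1
        rw [hW0, comb_mem_right (hdis' _ (hbB _).1 (hbB _).2) (hbB _).2, not_not] at h3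
        exact (Nat.pair_eq_pair.1 (hb h3)).2
      · have h1 : (⟨a (Nat.pair k i), (haA _).1⟩ : X) ∉ tr X (W (2 * k + 1) i) := by
          show a (Nat.pair k i) ∉ W (2 * k + 1) i
          rw [hW1, comb_mem_right (hdis _ (haA _).1 (haA _).2) (haA _).2]
          simp
        have h2 : tr X (W (2 * k + 1) i) = tr X (W (2 * k + 1) j) := hij
        rw [h2] at h1
        have h3 : a (Nat.pair k i) ∉ W (2 * k + 1) j := h1
        rw [hW1, comb_mem_right (hdis _ (haA _).1 (haA _).2) (haA _).2, not_not] at h3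
        exact (Nat.pair_eq_pair.1 (ha h3)).2) (by
      intro n i _ hsub
      rcases hpar n with ⟨k, rfl⟩ | ⟨k, rfl⟩
      · have h1 := hsub (hbB (Nat.pair k i)).1
        rw [hW0, comb_mem_right (hdis' _ (hbB _).1 (hbB _).2) (hbB _).2] at h1
        exact h1 rfl
      · have h1 := hsub (haA (Nat.pair k i)).1
        rw [hW1, comb_mem_right (hdis _ (haA _).1 (haA _).2) (haA _).2] at h1
        exact h1 rfl) (by
      intro n
      rcases hpar n with ⟨k, rfl⟩ | ⟨k, rfl⟩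
      · rw [hI0]; exact hKinf.sdiff (finite_Iic k)
      · rw [hI1]; exact hLinf.sdiff (finite_Iic k)) (by
      intro n x hx
      rcases hpar n with ⟨k, rfl⟩ | ⟨k, rfl⟩
      · have := large_half A B U K b k hdis hdis' hcov hbsub hKinf hUlarge x hx
        simpa only [hI0, hW0] using this
      · have := large_half B A V L a k hdis' hdis (by rwa [union_comm]) hasub hLinf hVlarge x hx
        simpa only [hI1, hW1] using this) (by
      intro n x hx y hy
      rcases hpar n with ⟨k, rfl⟩ | ⟨k, rfl⟩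
      · have := lin_half A B U K b k hdis hdis' hcov hbsub hUlin x hx y hy
        simpa only [hI0, hW0] using this
      · have := lin_half B A V L a k hdis' hdis (by rwa [union_comm]) hasub hVlin x hx y hy
        simpa only [hI1, hW1] using this)
  have hpairinj : ∀ (f : ℕ → ℕ), Function.Injective (fun k => Nat.pair k (f k)) := by
    intro f k l hkl
    exact (Nat.pair_eq_pair.1 hkl).1
  have hrange_inf : ∀ f : ℕ → ℕ, (∀ k, k < f k) → (range f).Infinite := by
    intro f hf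
    refine Set.infinite_of_not_bddAbove ?_
    rintro ⟨M, hM⟩
    have h1 : f M ≤ M := hM ⟨M, rfl⟩
    exact absurd (hf M) (by omega)
  have hg0 : ∀ k, g (2 * k) ∈ K ∧ k < g (2 * k) := by
    intro k
    have h1 := hgI (2 * k)
    rw [hI0] at h1
    exact ⟨h1.1, not_le.1 h1.2⟩
  have hg1 : ∀ k, g (2 * k + 1) ∈ L ∧ k < g (2 * k + 1) := by
    intro k
    have h1 := hgI (2 * k + 1)
    rw [hI1] at h1
    exact ⟨h1.1, not_le.1 h1.2⟩
  rcases dichotomy hdis (fun n => W n (g n)) (fun k => U (g (2 * k)))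
    (fun k => V (g (2 * k + 1))) (fun k => a (Nat.pair k (g (2 * k + 1))))
    (fun k => b (Nat.pair k (g (2 * k)))) (ha.comp (hpairinj _)) (hb.comp (hpairinj _))
    (fun n => haA _) (fun n => hbB _) (fun k => hW0 _ _) (fun k => hW1 _ _) hlin with h | h
  · obtain ⟨x, hx, hxinf⟩ := hUno (range fun k => g (2 * k)) (by
      rintro _ ⟨k, rfl⟩; exact (hg0 k).1) (hrange_inf _ (fun k => (hg0 k).2))
    refine hxinf (((h x hx).image (fun k => g (2 * k))).subset ?_)
    rintro _ ⟨⟨k, rfl⟩, hk⟩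
    exact ⟨k, hk, rfl⟩
  · obtain ⟨x, hx, hxinf⟩ := hVno (range fun k => g (2 * k + 1)) (by
      rintro _ ⟨k, rfl⟩; exact (hg1 k).1) (hrange_inf _ (fun k => (hg1 k).2))
    refine hxinf (((h x hx).image (fun k => g (2 * k + 1))).subset ?_)
    rintro _ ⟨⟨k, rfl⟩, hk⟩
    exact ⟨k, hk, rfl⟩

end Pool.Agent.TauSel
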